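import Pool.Agent.Kro.Avg

/-! Module Cover: every `h ≠ 0` is in some window: let `k` be the least with `r M 2^(E k + d) ≤ 2^(s k)` (exists: `s k - E k - d → ∞`; `k ≥ 1` since `s 0 = 0`).
If `h ∈ bx (2^(K+2))`: `r M ≤ 2^((d+1)(K+2))`. `k = 1`: `s 1 = 2^(10(d+1))`. `k ≥ 2`: `2^(s(k-1)) < r M 2^(E(k-1)+d)` and `2 (E(k-1)+d) ≤ s(k-1)` (`s_two`)
give `s(k-1) < 2 (d+1)(K+2)`, `s k = 2^(d+1) s(k-1)`. -/

namespace Pool.Agent.Kro

open Finset

theorem cover (d K : ℕ) (hd : 1 ≤ d) (h : Fin d → ℤ) (h0 : h ≠ 0)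
    (hK : h ∈ bx (fun _ : Fin d => 2 ^ (K + 2))) :
    ∃ k, 1 ≤ k ∧ h ∈ HH d k ∧ s d k ≤ 2 ^ (10 * (d + 1)) * (K + 2) := by
  classical
  have hr := rr_pos d h
  have hm := mx_pos d h h0
  have hmK : mx h ≤ 2 ^ (K + 2) := by
    unfold mx
    apply Finset.sup_le
    intro i _
    unfold bx at hK
    rw [Fintype.mem_piFinset] at hK
    have e1 := Finset.mem_Icc.1 (hK i)
    have e2 : ((h i).natAbs : ℤ) ≤ ((2 ^ (K + 2) : ℕ) : ℤ) := by
      rw [Int.natCast_natAbs, abs_le]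
      exact e1
    exact_mod_cast e2
  have hrm : rr h * mx h ≤ 2 ^ ((d + 1) * (K + 2)) := by
    calc rr h * mx h ≤ mx h ^ d * mx h := Nat.mul_le_mul_right _ (rr_le d h h0)
      _ = mx h ^ (d + 1) := (pow_succ _ _).symm
      _ ≤ (2 ^ (K + 2)) ^ (d + 1) := Nat.pow_le_pow_left hmK _
      _ = 2 ^ ((d + 1) * (K + 2)) := by rw [← pow_mul, mul_comm]
  have hex : ∃ k, rr h * mx h * 2 ^ (E d k + d) ≤ 2 ^ (s d k) := by
    refine ⟨2 * ((d + 1) * (K + 2)), ?_⟩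
    have hpos : 1 ≤ 2 * ((d + 1) * (K + 2)) := by
      have : 0 < 2 * ((d + 1) * (K + 2)) := by positivity
      omega
    have h1 := s_ge d (2 * ((d + 1) * (K + 2)))
    have h2 := s_two d (2 * ((d + 1) * (K + 2))) hd hpos
    calc rr h * mx h * 2 ^ (E d (2 * ((d + 1) * (K + 2))) + d)
        ≤ 2 ^ ((d + 1) * (K + 2)) * 2 ^ (E d (2 * ((d + 1) * (K + 2))) + d) :=
          Nat.mul_le_mul_right _ hrm
      _ = 2 ^ ((d + 1) * (K + 2) + (E d (2 * ((d + 1) * (K + 2))) + d)) := (pow_add _ _ _).symm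
      _ ≤ _ := Nat.pow_le_pow_right (by norm_num) (by omega)
  set k := Nat.find hex with hk
  have hk1 : rr h * mx h * 2 ^ (E d k + d) ≤ 2 ^ (s d k) := Nat.find_spec hex
  have hk0 : 1 ≤ k := by
    by_contra hlt
    have hkz : k = 0 := by omega
    rw [hkz, s_zero] at hk1
    have h3 : 2 ≤ 2 ^ (E d 0 + d) := by
      calc 2 = 2 ^ 1 := by norm_num
        _ ≤ 2 ^ (E d 0 + d) := Nat.pow_le_pow_right (by norm_num) (by omega)
    have h4 : 1 * 1 * 2 ≤ rr h * mx h * 2 ^ (E d 0 + d) :=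
      Nat.mul_le_mul (Nat.mul_le_mul hr hm) h3
    simp at hk1
    omega
  have hk2 : ¬ rr h * mx h * 2 ^ (E d (k - 1) + d) ≤ 2 ^ (s d (k - 1)) :=
    Nat.find_min hex (by omega)
  push Not at hk2
  refine ⟨k, hk0, ?_, ?_⟩
  · unfold HH
    refine Finset.mem_filter.2 ⟨?_, hk1, hk2⟩
    unfold bx
    rw [Fintype.mem_piFinset]
    intro i
    have e1 : (h i).natAbs ≤ mx h := by
      unfold mx
      exact Finset.le_sup (f := fun i => (h i).natAbs) (Finset.mem_univ i)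
    have e2 : mx h ≤ 2 ^ (s d k) := by
      calc mx h = 1 * mx h * 1 := by ring
        _ ≤ rr h * mx h * 2 ^ (E d k + d) :=
          Nat.mul_le_mul (Nat.mul_le_mul_right _ hr) Nat.one_le_two_pow
        _ ≤ _ := hk1
    have e3 : ((h i).natAbs : ℤ) ≤ ((2 ^ (s d k) : ℕ) : ℤ) := by exact_mod_cast e1.trans e2
    rw [Int.natCast_natAbs, abs_le] at e3
    exact Finset.mem_Icc.2 e3
  · rcases Nat.lt_or_ge 1 k with h2 | h2
    · obtain ⟨j, hj⟩ : ∃ j, k = j + 1 := ⟨k - 1, by omega⟩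
      have hj1 : 1 ≤ j := by omega
      rw [hj] at hk2 ⊢
      rw [Nat.add_sub_cancel] at hk2
      rw [s_succ d j hj1]
      have h5 := s_two d j hd hj1
      have h6 : 2 ^ (s d j) < 2 ^ ((d + 1) * (K + 2) + (E d j + d)) := by
        calc 2 ^ (s d j) < rr h * mx h * 2 ^ (E d j + d) := hk2
          _ ≤ 2 ^ ((d + 1) * (K + 2)) * 2 ^ (E d j + d) := Nat.mul_le_mul_right _ hrm
          _ = _ := (pow_add _ _ _).symm
      have h7 : s d j < (d + 1) * (K + 2) + (E d j + d) := (Nat.pow_lt_pow_iff_right (by norm_num)).1 h6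
      have h8 : s d j ≤ 2 * ((d + 1) * (K + 2)) := by omega
      have h9 : 2 ^ (d + 1) * (2 * (d + 1)) ≤ 2 ^ (10 * (d + 1)) := by
        have h10 : d + 1 ≤ 2 ^ (d + 1) := Nat.lt_two_pow_self.le
        calc 2 ^ (d + 1) * (2 * (d + 1)) ≤ 2 ^ (d + 1) * (2 ^ (d + 1) * 2 ^ (d + 1)) := by
              apply Nat.mul_le_mul_left
              apply Nat.mul_le_mul _ h10
              calc 2 = 2 ^ 1 := by norm_num
                _ ≤ 2 ^ (d + 1) := Nat.pow_le_pow_right (by norm_num) (by omega)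
          _ = 2 ^ ((d + 1) + ((d + 1) + (d + 1))) := by
              rw [pow_add _ (d + 1) ((d + 1) + (d + 1)), pow_add _ (d + 1) (d + 1)]
          _ ≤ _ := Nat.pow_le_pow_right (by norm_num) (by omega)
      calc 2 ^ (d + 1) * s d j ≤ 2 ^ (d + 1) * (2 * ((d + 1) * (K + 2))) := Nat.mul_le_mul_left _ h8
        _ = 2 ^ (d + 1) * (2 * (d + 1)) * (K + 2) := by ring
        _ ≤ _ := Nat.mul_le_mul_right _ h9
    · have : k = 1 := by omega
      rw [this, s_one]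
      exact Nat.le_mul_of_pos_right _ (by omega)

end Pool.Agent.Kro
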