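import Pool.Agent.Kro.Xh
import Pool.Agent.Kro.Cover

/-! Module Win: sum over the windows. By `cover` the sum is `≤ ∑_{k ≥ 1, s k ≤ Q} FF k (corner k) ≤ ∑_{k ≥ 1, s k ≤ Q} 4 A k`,
`Q = 2^(10(d+1)) (K+2)` (`inv_xx_le`, `FF_corner`). `A k ≤ 9·4^(d+1) (E k + 1) (5 s k)^d`, and for `s k ≤ Q`, `k ≥ 1`: `2^(k-1) ≤ s k ≤ Q` so
`E k + 1 ≤ C log(K+2)` (constant `C` depending on `d`; `log (K+2) ≥ log 2 > 0`); `∑_{k ≥ 1, s k ≤ Q} (s k)^d ≤ 2 Q^d` (geometric: `s(k+1)^d ≥ 2 s(k)^d`). -/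

namespace Pool.Agent.Kro

open Finset

private theorem Win_geo (d : ℕ) (hd : 1 ≤ d) (n : ℕ) (hn : 1 ≤ n) :
    ∑ k ∈ Icc 1 n, (s d k) ^ d ≤ 2 * (s d n) ^ d := by
  induction n, hn using Nat.le_induction with
  | base => simp; omega
  | succ n hn ih =>
    rw [Finset.sum_Icc_succ_top (by omega)]
    have h1 : 2 * (s d n) ^ d ≤ (s d (n + 1)) ^ d := by
      rw [s_succ d n hn, mul_pow]
      apply Nat.mul_le_mul_right
      rw [← pow_mul]
      calc 2 = 2 ^ 1 := by norm_num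
        _ ≤ 2 ^ ((d + 1) * d) := Nat.pow_le_pow_right (by norm_num) (by nlinarith)
    omega

private theorem Win_pow (d : ℕ) (k : ℕ) (hk : 1 ≤ k) : 2 ^ (k - 1) ≤ s d k := by
  unfold s
  rw [if_neg (by omega)]
  apply Nat.pow_le_pow_right (by norm_num)
  nlinarith [Nat.zero_le (d * (k - 1))]

private theorem Win_A (d k : ℕ) (hk : 1 ≤ k) :
    (A d k : ℝ) ≤ 9 * 4 ^ (d + 1) * ((10 * (d + 1) ^ 2 + (d + 1) * (d + 2) + 1) * k) *
      (5 ^ d * (s d k : ℝ) ^ d) := by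
  have hs := s_pos d k hk
  unfold A
  push_cast
  have h1 : (E d k : ℝ) + 1 ≤ (10 * (d + 1) ^ 2 + (d + 1) * (d + 2) + 1) * k := by
    unfold E
    push_cast
    have hk' : (1 : ℝ) ≤ k := by exact_mod_cast hk
    have hd0 : (0 : ℝ) ≤ 10 * ((d : ℝ) + 1) ^ 2 + 1 := by positivity
    nlinarith [mul_nonneg hd0 (sub_nonneg.2 hk')]
  have h2 : (2 * (s d k : ℝ) + 3) ^ d ≤ 5 ^ d * (s d k : ℝ) ^ d := by
    rw [← mul_pow]
    have : (1 : ℝ) ≤ s d k := by exact_mod_cast hs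
    apply pow_le_pow_left₀ (by positivity)
    linarith
  gcongr

private theorem Win_log (d K k : ℕ) (hk : 1 ≤ k) (hs : s d k ≤ 2 ^ (10 * (d + 1)) * (K + 2)) :
    (k : ℝ) ≤ (10 * (d + 1) + 2) * (Real.log (K + 2) / Real.log 2) := by
  have h1 := (Win_pow d k hk).trans hs
  have h2 : ((2 : ℝ) ^ (k - 1)) ≤ 2 ^ (10 * (d + 1)) * (K + 2) := by exact_mod_cast h1
  have h3 := Real.log_le_log (by positivity) h2
  rw [Real.log_mul (by positivity) (by positivity), Real.log_pow, Real.log_pow] at h3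
  have hl2 : 0 < Real.log 2 := Real.log_pos (by norm_num)
  have h4 : 1 ≤ Real.log (K + 2) / Real.log 2 := by
    rw [one_le_div hl2]
    apply Real.log_le_log (by norm_num)
    have : (0 : ℝ) ≤ K := Nat.cast_nonneg K
    linarith
  have h5 : ((k - 1 : ℕ) : ℝ) ≤ (10 * (d + 1) : ℕ) + Real.log (K + 2) / Real.log 2 := by
    have h6 : Real.log (K + 2) = (Real.log (K + 2) / Real.log 2) * Real.log 2 := by
      field_simp
    rw [h6, ← add_mul] at h3
    exact le_of_mul_le_mul_right h3 hl2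
  have h7 : ((k - 1 : ℕ) : ℝ) = (k : ℝ) - 1 := by
    rw [Nat.cast_sub hk]; simp
  rw [h7] at h5
  push_cast at h5
  have hd0 : (0 : ℝ) ≤ 10 * ((d : ℝ) + 1) + 1 := by positivity
  nlinarith [mul_nonneg hd0 (sub_nonneg.2 h4)]

theorem sum_A (d : ℕ) (hd : 1 ≤ d) : ∃ C : ℝ, 0 ≤ C ∧ ∀ K : ℕ, ∀ I : Finset ℕ,
    (∀ k ∈ I, 1 ≤ k ∧ s d k ≤ 2 ^ (10 * (d + 1)) * (K + 2)) →
    (∑ k ∈ I, 4 * (A d k : ℝ)) ≤ C * (K + 2) ^ d * Real.log (K + 2) := by
  have hl2 : 0 < Real.log 2 := Real.log_pos (by norm_num)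
  set c1 : ℝ := 10 * (d + 1) ^ 2 + (d + 1) * (d + 2) + 1 with hc1
  have hc1p : 0 ≤ c1 := by positivity
  set c0 : ℝ := 4 * (9 * 4 ^ (d + 1) * (c1 * ((10 * (d + 1) + 2) / Real.log 2)) * 5 ^ d) with hc0
  have hc0p : 0 ≤ c0 := by positivity
  refine ⟨c0 * (2 * (2 ^ (10 * (d + 1))) ^ d), by positivity, ?_⟩
  intro K I hI
  have hL : 0 ≤ Real.log ((K : ℝ) + 2) := by
    apply Real.log_nonneg
    have : (0 : ℝ) ≤ K := Nat.cast_nonneg K
    linarith
  have hterm : ∀ k ∈ I, 4 * (A d k : ℝ) ≤ c0 * Real.log (K + 2) * ((s d k : ℝ) ^ d) := by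
    intro k hk
    obtain ⟨h1, h2⟩ := hI k hk
    have hA := Win_A d k h1
    have hlog := Win_log d K k h1 h2
    have h3 : (A d k : ℝ) ≤ 9 * 4 ^ (d + 1) *
        (c1 * ((10 * (d + 1) + 2) * (Real.log (K + 2) / Real.log 2))) *
        (5 ^ d * (s d k : ℝ) ^ d) := by
      refine hA.trans ?_
      gcongr
    calc 4 * (A d k : ℝ) ≤ 4 * (9 * 4 ^ (d + 1) *
        (c1 * ((10 * (d + 1) + 2) * (Real.log (K + 2) / Real.log 2))) *
        (5 ^ d * (s d k : ℝ) ^ d)) := by linarith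
      _ = c0 * Real.log (K + 2) * ((s d k : ℝ) ^ d) := by
        rw [hc0]; ring
  have hsum : ∑ k ∈ I, (s d k) ^ d ≤ 2 * (2 ^ (10 * (d + 1)) * (K + 2)) ^ d := by
    rcases I.eq_empty_or_nonempty with he | hne
    · rw [he]; simp
    · have hmem := I.max'_mem hne
      set n := I.max' hne with hn
      have hn1 := (hI n hmem).1
      calc ∑ k ∈ I, (s d k) ^ d ≤ ∑ k ∈ Icc 1 n, (s d k) ^ d := by
            apply Finset.sum_le_sum_of_subset
            intro k hk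
            exact Finset.mem_Icc.2 ⟨(hI k hk).1, I.le_max' k hk⟩
        _ ≤ 2 * (s d n) ^ d := Win_geo d hd n hn1
        _ ≤ _ := Nat.mul_le_mul_left _ (Nat.pow_le_pow_left (hI n hmem).2 _)
  have hsum' : ∑ k ∈ I, (s d k : ℝ) ^ d ≤ 2 * (2 ^ (10 * (d + 1)) * (K + 2)) ^ d := by
    exact_mod_cast hsum
  calc ∑ k ∈ I, 4 * (A d k : ℝ) ≤ ∑ k ∈ I, c0 * Real.log (K + 2) * ((s d k : ℝ) ^ d) :=
        Finset.sum_le_sum hterm
    _ = c0 * Real.log (K + 2) * ∑ k ∈ I, ((s d k : ℝ) ^ d) := by rw [Finset.mul_sum]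
    _ ≤ c0 * Real.log (K + 2) * (2 * (2 ^ (10 * (d + 1)) * (K + 2)) ^ d) := by
        apply mul_le_mul_of_nonneg_left hsum' (by positivity)
    _ = _ := by rw [mul_pow]; ring

open Classical in
theorem sum_windows (d : ℕ) (hd : 1 ≤ d) : ∃ C : ℝ, 0 ≤ C ∧ ∀ K : ℕ,
    ∑ h ∈ (bx fun _ => 2 ^ (K + 2)).filter (fun h => h ≠ 0 ∧ xx (alpha d) h ≤ 4 ^ d), 1 / xx (alpha d) h
      ≤ C * (K + 2) ^ d * Real.log (K + 2) := by
  obtain ⟨C, hC, hsum⟩ := sum_A d hd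
  refine ⟨C, hC, fun K => ?_⟩
  set Q := 2 ^ (10 * (d + 1)) * (K + 2) with hQ
  set I := (range (Q + 1)).filter (fun k => 1 ≤ k ∧ s d k ≤ Q) with hI
  have hI' : ∀ k ∈ I, 1 ≤ k ∧ s d k ≤ 2 ^ (10 * (d + 1)) * (K + 2) := fun k hk =>
    (Finset.mem_filter.1 hk).2
  refine le_trans ?_ (hsum K I hI')
  set S := (bx fun _ : Fin d => 2 ^ (K + 2)).filter (fun h => h ≠ 0 ∧ xx (alpha d) h ≤ 4 ^ d) with hS
  have hpt : ∀ h ∈ S, 1 / xx (alpha d) h ≤
      ∑ k ∈ I, if h ∈ HH d k then (ff d k h (corner d k) : ℝ) else 0 := by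
    intro h hh
    obtain ⟨hb, h0, hx⟩ := Finset.mem_filter.1 hh
    obtain ⟨k, hk1, hk2, hk3⟩ := cover d K hd h h0 hb
    have hkI : k ∈ I := by
      refine Finset.mem_filter.2 ⟨?_, hk1, hk3⟩
      rw [Finset.mem_range]
      have := s_ge d k
      omega
    have h1 := inv_xx_le d k hd hk1 h hk2 hx
    refine h1.trans ?_
    have h2 : (ff d k h (corner d k) : ℝ) = if h ∈ HH d k then (ff d k h (corner d k) : ℝ) else 0 := by
      rw [if_pos hk2]
    rw [h2]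
    refine Finset.single_le_sum
      (f := fun k => if h ∈ HH d k then (ff d k h (corner d k) : ℝ) else 0) ?_ hkI
    intro j _
    split_ifs
    · exact Nat.cast_nonneg _
    · exact le_rfl
  calc ∑ h ∈ S, 1 / xx (alpha d) h
      ≤ ∑ h ∈ S, ∑ k ∈ I, (if h ∈ HH d k then (ff d k h (corner d k) : ℝ) else 0) :=
        Finset.sum_le_sum hpt
    _ = ∑ k ∈ I, ∑ h ∈ S, (if h ∈ HH d k then (ff d k h (corner d k) : ℝ) else 0) :=
        Finset.sum_comm
    _ ≤ ∑ k ∈ I, 4 * (A d k : ℝ) := by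
        apply Finset.sum_le_sum
        intro k hk
        have hk1 := (hI' k hk).1
        have hF := FF_corner d k hd hk1
        have hF' : (FF d k (corner d k) : ℝ) ≤ 4 * (A d k : ℝ) := by exact_mod_cast hF
        refine le_trans ?_ hF'
        rw [← Finset.sum_filter]
        unfold FF
        push_cast
        apply Finset.sum_le_sum_of_subset_of_nonneg
        · intro h hh
          exact (Finset.mem_filter.1 hh).2
        · intro h _ _
          exact Nat.cast_nonneg _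

theorem dz_pos (d : ℕ) (hd : 1 ≤ d) (h : Fin d → ℤ) (h0 : h ≠ 0) : dz (ip h (alpha d)) ≠ 0 := by
  have hb : h ∈ bx (fun _ : Fin d => 2 ^ (mx h + 2)) := by
    unfold bx
    rw [Fintype.mem_piFinset]
    intro i
    have e1 : (h i).natAbs ≤ mx h := by
      unfold mx
      exact Finset.le_sup (f := fun i => (h i).natAbs) (Finset.mem_univ i)
    have e2 : mx h ≤ 2 ^ (mx h + 2) := by
      calc mx h ≤ 2 ^ mx h := Nat.lt_two_pow_self.le
        _ ≤ _ := Nat.pow_le_pow_right (by norm_num) (by omega)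
    have e3 : ((h i).natAbs : ℤ) ≤ ((2 ^ (mx h + 2) : ℕ) : ℤ) := by exact_mod_cast e1.trans e2
    rw [Int.natCast_natAbs, abs_le] at e3
    exact Finset.mem_Icc.2 e3
  obtain ⟨k, hk1, hk2, _⟩ := cover d (mx h) hd h h0 hb
  have := xx_pos_HH d k hd hk1 h hk2
  intro hz
  unfold xx at this
  rw [hz, mul_zero] at this
  exact lt_irrefl _ this

end Pool.Agent.Kro
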