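import Pool.Agent.Kro.DetIneq
import Pool.Agent.Kro.Win

/-! Module Fin1: conclusion. `N ≥ 3`, `K = Nat.clog 2 N`: `N ≤ 2^K`, `2^(K-1) < N`, so `K + 2 ≤ C log N`, `log (K+2) ≤ C log log N`
(`log 3 > 1`, `log log N ≥ log log 3 > 0`; `log (C log N) = log C + log log N ≤ C' log log N`), `(K+1)^d ≤ C (log N)^d log log N`.
`alpha_mem`: `0 ≤ α_i ≤ 1` (`alpha_ge`, `alpha_le` with `k = 0`), `α_i ≠ 1` since `dz (ip e_i α) ≠ 0`. -/

namespace Pool.Agent.Kro

open Finset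

theorem alpha_mem (d : ℕ) (hd : 1 ≤ d) (i : Fin d) : 0 ≤ alpha d i ∧ alpha d i < 1 := by
  have h1 := alpha_ge d 0 i
  have h2 := alpha_le d 0 i
  have hc : corner d 0 i = 0 := rfl
  have hs : s d 0 = 0 := s_zero d
  rw [hc, hs] at h1 h2
  norm_num at h1 h2
  refine ⟨h1, lt_of_le_of_ne h2 ?_⟩
  intro h3
  have h4 := dz_pos d hd (Pi.single i 1) (by
    intro h
    have := congrFun h i
    simp at this)
  apply h4
  have h5 : ip (Pi.single i 1 : Fin d → ℤ) (alpha d) = 1 := by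
    unfold ip
    rw [Finset.sum_eq_single i]
    · simp [h3]
    · intro j _ hj
      simp [Pi.single_eq_of_ne hj]
    · intro h
      exact absurd (Finset.mem_univ i) h
  rw [h5]
  unfold dz
  simp

theorem Fin1_log3 : 1 < Real.log 3 := by
  rw [Real.lt_log_iff_exp_lt (by norm_num)]
  have := Real.exp_one_lt_d9
  linarith

theorem Fin1_K (N : ℕ) (hN : 3 ≤ N) : ((Nat.clog 2 N : ℕ) : ℝ) + 2 ≤ 5 * Real.log N := by
  have h1 : 2 ^ (Nat.clog 2 N - 1) < N := by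
    have := Nat.pow_pred_clog_lt_self (b := 2) (by norm_num) (x := N) (by omega)
    simpa [Nat.pred_eq_sub_one] using this
  have hNr : (3 : ℝ) ≤ N := by exact_mod_cast hN
  have h2 : ((Nat.clog 2 N - 1 : ℕ) : ℝ) * Real.log 2 ≤ Real.log N := by
    rw [← Real.log_pow]
    apply Real.log_le_log (by positivity)
    exact_mod_cast h1.le
  have h3 : ((Nat.clog 2 N : ℕ) : ℝ) - 1 ≤ ((Nat.clog 2 N - 1 : ℕ) : ℝ) := by
    have : (Nat.clog 2 N : ℕ) ≤ (Nat.clog 2 N - 1 : ℕ) + 1 := by omega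
    have h := (Nat.cast_le (α := ℝ)).2 this
    push_cast at h
    linarith
  have h4 := Real.log_two_gt_d9
  have h5 : Real.log 3 ≤ Real.log N := Real.log_le_log (by norm_num) hNr
  have h6 := Fin1_log3
  have h7 : (((Nat.clog 2 N - 1 : ℕ) : ℝ)) ≤ 2 * Real.log N := by
    have h8 : (0 : ℝ) ≤ ((Nat.clog 2 N - 1 : ℕ) : ℝ) := Nat.cast_nonneg _
    nlinarith
  linarith

theorem final (d : ℕ) (hd : 1 ≤ d) : ∃ C : ℝ, ∀ N : ℕ, 3 ≤ N →
    ∀ a b : Fin d → ℝ, (∀ i, 0 ≤ a i ∧ a i ≤ b i ∧ b i ≤ 1) →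
    |∑ n ∈ range N, ∏ i, ind (a i) (b i) (n * alpha d i) - N * ∏ i, (b i - a i)|
      ≤ C * Real.log N ^ d * Real.log (Real.log N) := by
  classical
  obtain ⟨C1, hC1, H1⟩ := det_ineq d
  obtain ⟨C2, hC2, H2⟩ := sum_windows d hd
  set c0 : ℝ := Real.log (Real.log 3) with hc0
  have hc0pos : 0 < c0 := Real.log_pos Fin1_log3
  refine ⟨C1 * (5 ^ d / c0 + C2 * 5 ^ d * (Real.log 5 / c0 + 1)), ?_⟩
  intro N hN a b hab
  have hNr : (3 : ℝ) ≤ N := by exact_mod_cast hN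
  set K := Nat.clog 2 N with hK
  have hNK : N ≤ 2 ^ K := Nat.le_pow_clog (by norm_num) N
  have h1 := H1 (alpha d) (dz_pos d hd) a b hab K N hNK
  have h2 := H2 K
  have hKr : (K : ℝ) + 2 ≤ 5 * Real.log N := Fin1_K N hN
  set x := Real.log N with hx
  have hx3 : Real.log 3 ≤ x := Real.log_le_log (by norm_num) hNr
  have hx1 : 1 < x := lt_of_lt_of_le Fin1_log3 hx3
  have hL : c0 ≤ Real.log x := Real.log_le_log (by linarith [Fin1_log3]) hx3
  have hLpos : 0 < Real.log x := lt_of_lt_of_le hc0pos hL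
  have hK0 : (0 : ℝ) ≤ K := Nat.cast_nonneg K
  have h3 : ((K : ℝ) + 1) ^ d ≤ 5 ^ d / c0 * (x ^ d * Real.log x) := by
    have h4 : ((K : ℝ) + 1) ^ d ≤ (5 * x) ^ d :=
      pow_le_pow_left₀ (by linarith) (by linarith) d
    have h5 : (1 : ℝ) ≤ Real.log x / c0 := by
      rw [le_div_iff₀ hc0pos]
      linarith
    calc ((K : ℝ) + 1) ^ d ≤ (5 * x) ^ d := h4
      _ = (5 * x) ^ d * 1 := by ring
      _ ≤ (5 * x) ^ d * (Real.log x / c0) :=
        mul_le_mul_of_nonneg_left h5 (by positivity)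
      _ = 5 ^ d / c0 * (x ^ d * Real.log x) := by
        rw [mul_pow]
        ring
  have h6 : ((K : ℝ) + 2) ^ d ≤ 5 ^ d * x ^ d := by
    rw [← mul_pow]
    exact pow_le_pow_left₀ (by linarith) hKr d
  have h7 : Real.log ((K : ℝ) + 2) ≤ (Real.log 5 / c0 + 1) * Real.log x := by
    have h8 : Real.log ((K : ℝ) + 2) ≤ Real.log (5 * x) :=
      Real.log_le_log (by linarith) hKr
    rw [Real.log_mul (by norm_num) (by linarith)] at h8
    have h9 : Real.log 5 ≤ Real.log 5 / c0 * Real.log x := by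
      have h10 : (0 : ℝ) ≤ Real.log 5 := Real.log_nonneg (by norm_num)
      calc Real.log 5 = Real.log 5 / c0 * c0 := by
            field_simp
        _ ≤ Real.log 5 / c0 * Real.log x := mul_le_mul_of_nonneg_left hL (by positivity)
    linarith
  have hlogK : 0 ≤ Real.log ((K : ℝ) + 2) := Real.log_nonneg (by linarith)
  have h11 : C2 * ((K : ℝ) + 2) ^ d * Real.log ((K : ℝ) + 2)
      ≤ C2 * 5 ^ d * (Real.log 5 / c0 + 1) * (x ^ d * Real.log x) := by
    have h12 : C2 * ((K : ℝ) + 2) ^ d ≤ C2 * (5 ^ d * x ^ d) :=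
      mul_le_mul_of_nonneg_left h6 hC2
    calc C2 * ((K : ℝ) + 2) ^ d * Real.log ((K : ℝ) + 2)
        ≤ C2 * (5 ^ d * x ^ d) * ((Real.log 5 / c0 + 1) * Real.log x) :=
          mul_le_mul h12 h7 hlogK (by positivity)
      _ = C2 * 5 ^ d * (Real.log 5 / c0 + 1) * (x ^ d * Real.log x) := by ring
  refine le_trans h1 ?_
  have h13 : ((K : ℝ) + 1) ^ d
          + ∑ h ∈ (bx fun _ => 2 ^ (K + 2)).filter (fun h => h ≠ 0 ∧ xx (alpha d) h ≤ 4 ^ d),
            1 / xx (alpha d) h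
      ≤ 5 ^ d / c0 * (x ^ d * Real.log x)
        + C2 * 5 ^ d * (Real.log 5 / c0 + 1) * (x ^ d * Real.log x) := by
    refine add_le_add h3 (le_trans ?_ h11)
    convert h2 using 2
  calc C1 * (((K : ℝ) + 1) ^ d
          + ∑ h ∈ (bx fun _ => 2 ^ (K + 2)).filter (fun h => h ≠ 0 ∧ xx (alpha d) h ≤ 4 ^ d),
            1 / xx (alpha d) h)
      ≤ C1 * (5 ^ d / c0 * (x ^ d * Real.log x)
        + C2 * 5 ^ d * (Real.log 5 / c0 + 1) * (x ^ d * Real.log x)) :=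
        mul_le_mul_of_nonneg_left h13 hC1
    _ = C1 * (5 ^ d / c0 + C2 * 5 ^ d * (Real.log 5 / c0 + 1)) * x ^ d * Real.log x := by ring

end Pool.Agent.Kro
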