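import Pool.Agent.Kro.PFun

/-! Module PCor: `corner d` by primitive recursion (`Primrec.nat_rec`, `prim_find`, `prim_child`), then `digit`. -/

namespace Pool.Agent.Kro

theorem PCor_step (d : ℕ) : Primrec₂ (fun (k : ℕ) (c : Fin d → ℕ) =>
    child (nn d (k + 1)) c
      (sInf {m | m < nn d (k + 1) ^ d ∧ Good d (k + 1) (child (nn d (k + 1)) c m)})) := by
  have hn : Primrec fun y : ℕ × (Fin d → ℕ) => nn d (y.1 + 1) :=
    (prim_nn d).comp (Primrec.succ.comp Primrec.fst)
  have hnd : Primrec fun y : ℕ × (Fin d → ℕ) => nn d (y.1 + 1) ^ d :=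
    prim_pow.comp hn (Primrec.const d)
  have hp : PrimrecRel fun (y : ℕ × (Fin d → ℕ)) (m : ℕ) =>
      Good d (y.1 + 1) (child (nn d (y.1 + 1)) y.2 m) := by
    refine (prim_Good d).comp (Primrec.succ.comp (Primrec.fst.comp Primrec.fst)) ?_
    exact (prim_child d).comp (Primrec.pair (Primrec.pair (hn.comp Primrec.fst)
      (Primrec.snd.comp Primrec.fst)) Primrec.snd)
  exact (prim_child d).comp (Primrec.pair (Primrec.pair hn Primrec.snd) (prim_find hp hnd))

theorem prim_corner (d : ℕ) : Primrec (corner d) := by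
  refine (Primrec.nat_rec₁ (fun _ : Fin d => 0) (PCor_step d)).of_eq ?_
  intro n
  induction n with
  | zero => rfl
  | succ n ih => rw [corner, ← ih]

theorem prim_digit (d : ℕ) (i : Fin d) : Primrec (digit d i) := by
  have h1 : Primrec fun n : ℕ => corner d (n + 1) i :=
    Primrec.fin_app.comp ((prim_corner d).comp Primrec.succ) (Primrec.const i)
  have h2 : Primrec fun n : ℕ => 2 ^ (s d (n + 1) - (n + 1)) :=
    prim_pow.comp (Primrec.const 2)
      (Primrec.nat_sub.comp ((prim_s d).comp Primrec.succ) Primrec.succ)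
  exact Primrec.nat_mod.comp (Primrec.nat_div.comp h1 h2) (Primrec.const 2)

end Pool.Agent.Kro
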