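import Pool.Agent.Kro.Defs

/-! Module Alg: product of approximations. Induction on `d` (split off one coordinate, antidiagonal sums):
`T_m^{(d)} = ∑_{n ≤ m} ∑_{|j| = n} ∏ D_i(j_i)`, `f f_d - ∑_{j ≤ m} D_d(j) T_{m-j} = f (f_d - ∑_{j ≤ m} D_d(j)) + ∑_{j ≤ m} D_d(j) (f - T_{m-j})`,
`|f| ≤ 1 ≤ ∏_{i<d} Ψ_i(0)`; the first term is `≤ Ψ_d(m) ∏ Ψ_i(0) ≤ ∑_{|j| = m} ∏ Ψ`, the second `≤ d ∑_{|j|=m} ∏ Ψ`.
(`Finset.piAntidiag univ n = Finset.Nat.antidiagonalTuple d n`: `piAntidiag_univ_fin_eq_antidiagonalTuple`; or use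
`PowerSeries.coeff_prod` to handle the convolutions.) -/

namespace Pool.Agent.Kro

open Finset

/-- splitting off the first coordinate -/
theorem Alg_split (d n : ℕ) (F : (Fin (d + 1) → ℕ) → ℝ) :
    ∑ j ∈ piAntidiag (univ : Finset (Fin (d + 1))) n, F j =
      ∑ a ∈ range (n + 1), ∑ j ∈ piAntidiag (univ : Finset (Fin d)) (n - a),
        F (Fin.cons (α := fun _ => ℕ) a j) := by
  rw [Finset.sum_sigma']
  symm
  apply Finset.sum_bij' (fun (x : (_ : ℕ) × (Fin d → ℕ)) _ => (Fin.cons (α := fun _ => ℕ) x.1 x.2 : Fin (d + 1) → ℕ))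
    (fun (j : Fin (d + 1) → ℕ) _ => (⟨j 0, Fin.tail j⟩ : (_ : ℕ) × (Fin d → ℕ)))
  · rintro ⟨a, j⟩ hx
    rw [Finset.mem_sigma, Finset.mem_range, Finset.mem_piAntidiag] at hx
    rw [Finset.mem_piAntidiag]
    refine ⟨?_, fun i _ => Finset.mem_univ i⟩
    rw [Fin.sum_univ_succ]
    simp only [Fin.cons_zero, Fin.cons_succ]
    have h1 := hx.2.1
    simp only at h1
    have h2 := hx.1
    simp only at h2
    omega
  · intro j hj
    rw [Finset.mem_piAntidiag, Fin.sum_univ_succ] at hj
    rw [Finset.mem_sigma, Finset.mem_range, Finset.mem_piAntidiag]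
    refine ⟨?_, ?_, fun i _ => Finset.mem_univ i⟩
    · show j 0 < n + 1
      have := hj.1
      omega
    · show ∑ i, Fin.tail j i = n - j 0
      have := hj.1
      unfold Fin.tail
      omega
  · rintro ⟨a, j⟩ hx
    simp only [Fin.cons_zero, Fin.tail_cons]
  · intro j hj
    exact Fin.cons_self_tail j
  · rintro ⟨a, j⟩ hx
    rfl

/-- swapping a triangular sum -/
theorem Alg_tri (m : ℕ) (u t : ℕ → ℝ) :
    ∑ n ∈ range (m + 1), ∑ a ∈ range (n + 1), u a * t (n - a) =
      ∑ a ∈ range (m + 1), u a * ∑ n ∈ range (m - a + 1), t n := by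
  have h1 : ∀ a ∈ range (m + 1), u a * ∑ n ∈ range (m - a + 1), t n =
      ∑ n ∈ range (m + 1), if a ≤ n then u a * t (n - a) else 0 := by
    intro a ha
    rw [Finset.mem_range] at ha
    rw [Finset.mul_sum, ← Finset.sum_filter]
    have h2 : (range (m + 1)).filter (fun n => a ≤ n) = (range (m - a + 1)).image (fun n => n + a) := by
      ext n
      simp only [Finset.mem_filter, Finset.mem_range, Finset.mem_image]
      constructor
      · intro h
        exact ⟨n - a, by omega, by omega⟩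
      · rintro ⟨k, hk, rfl⟩
        omega
    rw [h2, Finset.sum_image (by
      intro x _ y _ hxy
      simpa using hxy)]
    apply Finset.sum_congr rfl
    intro n _
    rw [Nat.add_sub_cancel]
  rw [Finset.sum_congr rfl h1, Finset.sum_comm]
  apply Finset.sum_congr rfl
  intro n hn
  rw [Finset.mem_range] at hn
  rw [← Finset.sum_filter]
  apply Finset.sum_congr _ (fun _ _ => rfl)
  ext a
  simp only [Finset.mem_filter, Finset.mem_range]
  omega

theorem prod_approx (d : ℕ) (f : Fin d → ℝ) (D Ψ : Fin d → ℕ → ℝ) (hf : ∀ i, |f i| ≤ 1)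
    (h1 : ∀ i j, |D i j| ≤ Ψ i j) (h2 : ∀ i m, |f i - ∑ j ∈ range (m + 1), D i j| ≤ Ψ i m)
    (h0 : ∀ i, 1 ≤ Ψ i 0) (m : ℕ) :
    |∏ i, f i - ∑ n ∈ range (m + 1), ∑ j ∈ piAntidiag (univ : Finset (Fin d)) n, ∏ i, D i (j i)|
      ≤ d * ∑ j ∈ piAntidiag (univ : Finset (Fin d)) m, ∏ i, Ψ i (j i) := by
  induction d generalizing m with
  | zero =>
    have e1 : ∑ n ∈ range (m + 1), ∑ j ∈ piAntidiag (univ : Finset (Fin 0)) n, ∏ i, D i (j i) = 1 := by
      rw [Finset.sum_range_succ']
      have e2 : ∀ n ∈ range m, ∑ j ∈ piAntidiag (univ : Finset (Fin 0)) (n + 1), ∏ i, D i (j i) = 0 := by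
        intro n _
        have : piAntidiag (univ : Finset (Fin 0)) (n + 1) = ∅ := by
          rw [Finset.univ_eq_empty, Finset.piAntidiag_empty_of_ne_zero (Nat.succ_ne_zero n)]
        rw [this, Finset.sum_empty]
      rw [Finset.sum_congr rfl e2, Finset.sum_const_zero, zero_add]
      have : piAntidiag (univ : Finset (Fin 0)) 0 = {0} := by
        rw [Finset.univ_eq_empty, Finset.piAntidiag_empty_zero]
      rw [this, Finset.sum_singleton]
      simp
    rw [e1]
    simp
  | succ d ih =>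
    have ihd := fun m => ih (fun i => f i.succ) (fun i => D i.succ) (fun i => Ψ i.succ)
      (fun i => hf i.succ) (fun i => h1 i.succ) (fun i => h2 i.succ) (fun i => h0 i.succ) m
    set t : ℕ → ℝ := fun n => ∑ j ∈ piAntidiag (univ : Finset (Fin d)) n, ∏ i : Fin d, D i.succ (j i) with ht
    set q : ℕ → ℝ := fun n => ∑ j ∈ piAntidiag (univ : Finset (Fin d)) n, ∏ i : Fin d, Ψ i.succ (j i) with hq
    have hΨ : ∀ i j, 0 ≤ Ψ i j := fun i j => (abs_nonneg _).trans (h1 i j)
    have hq0 : ∀ n, 0 ≤ q n := fun n =>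
      Finset.sum_nonneg (fun j _ => Finset.prod_nonneg (fun i _ => hΨ _ _))
    have e1 : ∑ n ∈ range (m + 1), ∑ j ∈ piAntidiag (univ : Finset (Fin (d + 1))) n, ∏ i, D i (j i) =
        ∑ a ∈ range (m + 1), D 0 a * ∑ n ∈ range (m - a + 1), t n := by
      rw [← Alg_tri]
      apply Finset.sum_congr rfl
      intro n _
      rw [Alg_split]
      apply Finset.sum_congr rfl
      intro a _
      simp only [ht]
      rw [Finset.mul_sum]
      apply Finset.sum_congr rfl
      intro j _
      rw [Fin.prod_univ_succ]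
      simp only [Fin.cons_zero, Fin.cons_succ]
    have e2 : ∑ j ∈ piAntidiag (univ : Finset (Fin (d + 1))) m, ∏ i, Ψ i (j i) =
        ∑ a ∈ range (m + 1), Ψ 0 a * q (m - a) := by
      rw [Alg_split]
      apply Finset.sum_congr rfl
      intro a _
      simp only [hq]
      rw [Finset.mul_sum]
      apply Finset.sum_congr rfl
      intro j _
      rw [Fin.prod_univ_succ]
      simp only [Fin.cons_zero, Fin.cons_succ]
    rw [e1, e2, Fin.prod_univ_succ]
    set P := ∏ i : Fin d, f i.succ with hP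
    have hP1 : |P| ≤ 1 := by
      rw [hP, Finset.abs_prod]
      apply Finset.prod_le_one
      · intro i _
        exact abs_nonneg _
      · intro i _
        exact hf _
    have e3 : f 0 * P - ∑ a ∈ range (m + 1), D 0 a * ∑ n ∈ range (m - a + 1), t n =
        P * (f 0 - ∑ a ∈ range (m + 1), D 0 a) +
        ∑ a ∈ range (m + 1), D 0 a * (P - ∑ n ∈ range (m - a + 1), t n) := by
      have e4 : ∑ a ∈ range (m + 1), D 0 a * (P - ∑ n ∈ range (m - a + 1), t n) =
          (∑ a ∈ range (m + 1), D 0 a) * P - ∑ a ∈ range (m + 1), D 0 a * ∑ n ∈ range (m - a + 1), t n := by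
        rw [Finset.sum_mul, ← Finset.sum_sub_distrib]
        apply Finset.sum_congr rfl
        intro a _
        ring
      rw [e4]
      ring
    rw [e3]
    have hfirst : |P * (f 0 - ∑ a ∈ range (m + 1), D 0 a)| ≤ ∑ a ∈ range (m + 1), Ψ 0 a * q (m - a) := by
      have hq1 : 1 ≤ q 0 := by
        simp only [hq]
        have h3 : (0 : Fin d → ℕ) ∈ piAntidiag (univ : Finset (Fin d)) 0 := by
          rw [Finset.mem_piAntidiag]
          refine ⟨by simp, fun i _ => Finset.mem_univ i⟩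
        calc (1 : ℝ) ≤ ∏ i : Fin d, Ψ i.succ ((0 : Fin d → ℕ) i) := by
              have : ∀ i ∈ (univ : Finset (Fin d)), (1 : ℝ) ≤ Ψ i.succ ((0 : Fin d → ℕ) i) :=
                fun i _ => h0 i.succ
              calc (1 : ℝ) = ∏ i : Fin d, (1 : ℝ) := by simp
                _ ≤ _ := Finset.prod_le_prod (fun i _ => by norm_num) this
          _ ≤ _ := Finset.single_le_sum (f := fun j => ∏ i : Fin d, Ψ i.succ (j i))
              (fun j _ => Finset.prod_nonneg (fun i _ => hΨ _ _)) h3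
      calc |P * (f 0 - ∑ a ∈ range (m + 1), D 0 a)| = |P| * |f 0 - ∑ a ∈ range (m + 1), D 0 a| := abs_mul _ _
        _ ≤ 1 * Ψ 0 m := mul_le_mul hP1 (h2 0 m) (abs_nonneg _) (by norm_num)
        _ ≤ Ψ 0 m * q (m - m) := by
            rw [Nat.sub_self, one_mul]
            exact le_mul_of_one_le_right (hΨ 0 m) hq1
        _ ≤ _ := Finset.single_le_sum (f := fun a => Ψ 0 a * q (m - a))
              (fun a _ => mul_nonneg (hΨ _ _) (hq0 _)) (by rw [Finset.mem_range]; omega)
    have hsecond : |∑ a ∈ range (m + 1), D 0 a * (P - ∑ n ∈ range (m - a + 1), t n)| ≤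
        d * ∑ a ∈ range (m + 1), Ψ 0 a * q (m - a) := by
      rw [Finset.mul_sum]
      refine (Finset.abs_sum_le_sum_abs _ _).trans (Finset.sum_le_sum ?_)
      intro a _
      rw [abs_mul]
      calc |D 0 a| * |P - ∑ n ∈ range (m - a + 1), t n| ≤ Ψ 0 a * (d * q (m - a)) :=
            mul_le_mul (h1 0 a) (ihd (m - a)) (abs_nonneg _) (hΨ _ _)
        _ = d * (Ψ 0 a * q (m - a)) := by ring
    calc _ ≤ |P * (f 0 - ∑ a ∈ range (m + 1), D 0 a)| +
          |∑ a ∈ range (m + 1), D 0 a * (P - ∑ n ∈ range (m - a + 1), t n)| := abs_add_le _ _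
      _ ≤ ∑ a ∈ range (m + 1), Ψ 0 a * q (m - a) + d * ∑ a ∈ range (m + 1), Ψ 0 a * q (m - a) :=
          add_le_add hfirst hsecond
      _ = _ := by push_cast; ring

/-- number of terms -/
theorem card_antidiag (d K : ℕ) :
    (∑ m ∈ range (K + 1), (piAntidiag (univ : Finset (Fin d)) m).card) ≤ (K + 1) ^ d := by
  have h1 : ∀ m ∈ range (K + 1), (piAntidiag (univ : Finset (Fin d)) m).card ≤
      ((Fintype.piFinset (fun _ : Fin d => range (K + 1))).filter (fun j => ∑ i, j i = m)).card := by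
    intro m hm
    rw [Finset.mem_range] at hm
    apply Finset.card_le_card
    intro j hj
    rw [Finset.mem_piAntidiag] at hj
    rw [Finset.mem_filter, Fintype.mem_piFinset]
    refine ⟨?_, hj.1⟩
    intro i
    rw [Finset.mem_range]
    have := Finset.single_le_sum (f := j) (fun _ _ => Nat.zero_le _) (Finset.mem_univ i)
    rw [hj.1] at this
    omega
  refine (Finset.sum_le_sum h1).trans ?_
  have h2 : ∑ m ∈ range (K + 1),
      ((Fintype.piFinset (fun _ : Fin d => range (K + 1))).filter (fun j => ∑ i, j i = m)).card ≤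
      (Fintype.piFinset (fun _ : Fin d => range (K + 1))).card := by
    simp only [Finset.card_filter]
    rw [Finset.sum_comm, Finset.card_eq_sum_ones]
    apply Finset.sum_le_sum
    intro j _
    rw [Finset.sum_ite_eq]
    split_ifs <;> simp
  refine h2.trans ?_
  rw [Fintype.card_piFinset]
  simp

end Pool.Agent.Kro
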