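import Pool.Agent.Kro.Defs

/-! Module Harm: `∑_{|h_i| ≤ 2^S} 1/r(h) = (∑_{|m| ≤ 2^S} 1/max(1,|m|))^d` (`Finset.prod_univ_sum`), and
`∑_{|m| ≤ 2^S} 1/max(1,|m|) = 1 + 2 H(2^S) ≤ 1 + 2(1 + S)`. -/

namespace Pool.Agent.Kro

open Finset

private theorem Harm_one (M : ℕ) :
    ∑ m ∈ Icc (-(M : ℤ)) (M : ℤ), (1 : ℝ) / ((max 1 m.natAbs : ℕ) : ℝ) = 1 + 2 * (harmonic M : ℝ) := by
  induction M with
  | zero => simp
  | succ M ih =>
    have e : Icc (-((M + 1 : ℕ) : ℤ)) ((M + 1 : ℕ) : ℤ) =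
        insert ((M + 1 : ℕ) : ℤ) (insert (-((M + 1 : ℕ) : ℤ)) (Icc (-(M : ℤ)) (M : ℤ))) := by
      ext a
      simp only [Finset.mem_insert, Finset.mem_Icc]
      push_cast
      omega
    rw [e, Finset.sum_insert, Finset.sum_insert, ih, harmonic_succ]
    · have h1 : ((max 1 (((M + 1 : ℕ) : ℤ)).natAbs : ℕ) : ℝ) = (M : ℝ) + 1 := by
        have : max 1 (((M + 1 : ℕ) : ℤ)).natAbs = M + 1 := by
          rw [Int.natAbs_natCast]; omega
        rw [this]; push_cast; ring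
      have h2 : ((max 1 (-((M + 1 : ℕ) : ℤ)).natAbs : ℕ) : ℝ) = (M : ℝ) + 1 := by
        have : max 1 (-((M + 1 : ℕ) : ℤ)).natAbs = M + 1 := by
          rw [Int.natAbs_neg, Int.natAbs_natCast]; omega
        rw [this]; push_cast; ring
      rw [h1, h2]
      push_cast
      rw [inv_eq_one_div]
      ring
    · simp only [Finset.mem_Icc]
      push_cast
      omega
    · simp only [Finset.mem_insert, Finset.mem_Icc]
      push_cast
      omega

theorem sum_inv_rr (d S : ℕ) :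
    ∑ h ∈ bx (fun _ : Fin d => 2 ^ S), (1 : ℝ) / rr h ≤ (2 * S + 3) ^ d := by
  have e : ∑ h ∈ bx (fun _ : Fin d => 2 ^ S), (1 : ℝ) / rr h =
      ∏ _i : Fin d, ∑ m ∈ Icc (-((2 ^ S : ℕ) : ℤ)) ((2 ^ S : ℕ) : ℤ), (1 : ℝ) / ((max 1 m.natAbs : ℕ) : ℝ) := by
    rw [Finset.prod_univ_sum]
    unfold bx
    apply Finset.sum_congr rfl
    intro h _
    unfold rr
    rw [Nat.cast_prod, Finset.prod_div_distrib, Finset.prod_const_one]
  rw [e, Finset.prod_const, Finset.card_univ, Fintype.card_fin, Harm_one]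
  have hh : (0 : ℝ) ≤ (harmonic (2 ^ S) : ℝ) := by
    rw [harmonic_eq_sum_Icc]
    push_cast
    positivity
  apply pow_le_pow_left₀ (by linarith)
  have h1 := harmonic_le_one_add_log (2 ^ S)
  push_cast at h1
  rw [Real.log_pow] at h1
  have h2 : Real.log 2 ≤ 1 := by
    have := Real.log_two_lt_d9
    linarith
  have h3 : (S : ℝ) * Real.log 2 ≤ S * 1 := mul_le_mul_of_nonneg_left h2 (Nat.cast_nonneg _)
  linarith

end Pool.Agent.Kro
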