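import Pool.Agent.Kro.Defs

/-! Module Par: inequalities for the parameters (`d ≥ 1`, `s_k = 2^(10(d+1)+(d+1)(k-1))`, `E_k = 10(d+1)²+(d+1)(d+2)k`).
`s_E`: `k = 1`: `E_1 + d ≤ 2^(10(d+1))`. `k ≥ 2`: `s_k = 2^(d+1) s_(k-1)`, `2^(d+1) - (d+1) ≥ 1` and `E_k + d ≤ s_(k-1)`.
`A_lt`: `2 s_k + 3 ≤ 5 s_k ≤ 2^(3 + 10(d+1) + (d+1)(k-1))`, so `4 A_k ≤ 36 · 2^(2(d+1)) (E_k + 1) 2^(d(3 + 10(d+1) + (d+1)(k-1)))`; compare exponents:
`E_k - d(3 + 10(d+1) + (d+1)(k-1)) = 10(d+1) - 3d + 2(d+1)k + d(d+1)`, and `36 · 4^(d+1) (E_k + 1)` is much smaller than 2 to this power. -/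

namespace Pool.Agent.Kro

theorem s_zero (d : ℕ) : s d 0 = 0 := by simp [s]

theorem Par_s (d k : ℕ) : s d (k + 1) = 2 ^ (10 * (d + 1) + (d + 1) * k) := by
  simp [s]

theorem s_one (d : ℕ) : s d 1 = 2 ^ (10 * (d + 1)) := by
  have := Par_s d 0
  simpa using this

theorem s_succ (d k : ℕ) (hk : 1 ≤ k) : s d (k + 1) = 2 ^ (d + 1) * s d k := by
  obtain ⟨j, rfl⟩ : ∃ j, k = j + 1 := ⟨k - 1, by omega⟩
  rw [Par_s, Par_s, ← pow_add]
  congr 1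
  ring

theorem s_pos (d k : ℕ) (hk : 1 ≤ k) : 1 ≤ s d k := by
  obtain ⟨j, rfl⟩ : ∃ j, k = j + 1 := ⟨k - 1, by omega⟩
  rw [Par_s]
  exact Nat.one_le_two_pow

theorem s_mono (d : ℕ) : Monotone (s d) := by
  apply monotone_nat_of_le_succ
  intro k
  rcases Nat.eq_zero_or_pos k with rfl | hk
  · rw [s_zero]
    exact Nat.zero_le _
  · rw [s_succ d k hk]
    exact Nat.le_mul_of_pos_left _ (by positivity)

/-- crude growth -/
theorem Par_lt (a : ℕ) : a + 1 ≤ 2 ^ a := Nat.lt_two_pow_self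

theorem s_ge (d k : ℕ) : k ≤ s d k := by
  rcases Nat.eq_zero_or_pos k with rfl | hk
  · exact Nat.zero_le _
  · obtain ⟨j, rfl⟩ : ∃ j, k = j + 1 := ⟨k - 1, by omega⟩
    rw [Par_s]
    have h1 := Par_lt (10 * (d + 1) + (d + 1) * j)
    have h2 : j ≤ 10 * (d + 1) + (d + 1) * j := by nlinarith
    omega

/-- `E_k + d` is much smaller than `s_k` -/
theorem Par_E (D k : ℕ) (hD : 1 ≤ D) :
    2 * (10 * D ^ 2 + D * (D + 1) * (k + 1) + D) ≤ 2 ^ (10 * D + D * k) := by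
  -- `2^(10 D + D k) = 2^(10 D) 2^(D k)`, `2^(Dk) ≥ k + 1`, `2^(10 D) ≥ 2 (10 D^2 + D (D+1) + D)`
  have h1 : ∀ D : ℕ, 1 ≤ D → 2 * (11 * D ^ 2 + 2 * D) ≤ 2 ^ (10 * D) := by
    intro D hD
    induction D, hD using Nat.le_induction with
    | base => norm_num
    | succ n hn ih =>
      have e : 2 ^ (10 * (n + 1)) = 1024 * 2 ^ (10 * n) := by
        rw [show 10 * (n + 1) = 10 + 10 * n by ring, pow_add]
        norm_num
      rw [e]
      nlinarith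
  have h2 : k + 1 ≤ 2 ^ (D * k) := by
    have h3 := Par_lt (D * k)
    have h4 : k ≤ D * k := Nat.le_mul_of_pos_left k hD
    omega
  rw [pow_add]
  calc 2 * (10 * D ^ 2 + D * (D + 1) * (k + 1) + D) ≤ 2 * (11 * D ^ 2 + 2 * D) * (k + 1) := by
        nlinarith [Nat.zero_le (D ^ 2 * k), Nat.zero_le (D * k)]
    _ ≤ 2 ^ (10 * D) * 2 ^ (D * k) := Nat.mul_le_mul (h1 D hD) h2

theorem s_two (d k : ℕ) (hd : 1 ≤ d) (hk : 1 ≤ k) : 2 * (E d k + d) ≤ s d k := by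
  obtain ⟨j, rfl⟩ : ∃ j, k = j + 1 := ⟨k - 1, by omega⟩
  have h := Par_E (d + 1) j (by omega)
  rw [Par_s]
  refine le_trans ?_ h
  unfold E
  have : (d + 1) * (d + 1 + 1) = (d + 1) * (d + 2) := by ring
  rw [this]
  omega

theorem s_E (d k : ℕ) (hd : 1 ≤ d) (hk : 1 ≤ k) : E d k + d + (d + 1) * s d (k - 1) ≤ s d k := by
  rcases Nat.lt_or_ge k 2 with h2 | h2
  · have hk1 : k = 1 := by omega
    subst hk1
    rw [Nat.sub_self, s_zero, mul_zero, add_zero]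
    have := s_two d 1 hd le_rfl
    omega
  · obtain ⟨j, rfl⟩ : ∃ j, k = j + 2 := ⟨k - 2, by omega⟩
    have e : j + 2 - 1 = j + 1 := by omega
    rw [e]
    have h3 := s_two d (j + 1) hd (by omega)
    have h4 : s d (j + 2) = 2 ^ (d + 1) * s d (j + 1) := s_succ d (j + 1) (by omega)
    rw [h4]
    have h5 : E d (j + 2) ≤ 2 * E d (j + 1) := by
      unfold E
      nlinarith [Nat.zero_le ((d + 1) * (d + 2) * j)]
    have h6 := Par_lt (d + 1)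
    have h7 : (d + 1 + 1) * s d (j + 1) ≤ 2 ^ (d + 1) * s d (j + 1) := Nat.mul_le_mul_right _ h6
    nlinarith

theorem Par_exp (D k : ℕ) (hD : 2 ≤ D) :
    36 * 4 ^ D * (10 * D ^ 2 + D * (D + 1) * (k + 1) + 1) < 2 ^ (7 * D + 2 * D * (k + 1) + (D - 1) * D) := by
  obtain ⟨m, rfl⟩ : ∃ m, D = m + 2 := ⟨D - 2, by omega⟩
  have e0 : m + 2 - 1 = m + 1 := by omega
  rw [e0]
  -- `2^(7D) = 4^D 2^(5D)`
  have e1 : 2 ^ (7 * (m + 2) + 2 * (m + 2) * (k + 1) + (m + 1) * (m + 2)) =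
      4 ^ (m + 2) * (2 ^ (5 * (m + 2)) * 2 ^ (2 * (m + 2) * (k + 1)) * 2 ^ ((m + 1) * (m + 2))) := by
    rw [show (4 : ℕ) = 2 ^ 2 by norm_num, ← pow_mul, ← pow_add, ← pow_add, ← pow_add]
    congr 1
    ring
  rw [e1]
  have h1 : 36 * (11 * (m + 2) ^ 2 + (m + 2) + 1) ≤ 2 ^ (5 * (m + 2)) * 2 ^ ((m + 1) * (m + 2)) := by
    have h2 : ∀ m : ℕ, 36 * (11 * (m + 2) ^ 2 + (m + 2) + 1) ≤ 2 ^ (5 * (m + 2)) * 4 := by
      intro m
      induction m with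
      | zero => norm_num
      | succ n ih =>
        have e : 2 ^ (5 * (n + 1 + 2)) = 32 * 2 ^ (5 * (n + 2)) := by
          rw [show 5 * (n + 1 + 2) = 5 + 5 * (n + 2) by ring, pow_add]
          norm_num
        rw [e]
        nlinarith
    refine (h2 m).trans ?_
    apply Nat.mul_le_mul_left
    calc 4 = 2 ^ 2 := by norm_num
      _ ≤ 2 ^ ((m + 1) * (m + 2)) := Nat.pow_le_pow_right (by norm_num) (by nlinarith)
  have h3 : k + 1 < 2 ^ (2 * (m + 2) * (k + 1)) := by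
    have h4 := Par_lt (2 * (m + 2) * (k + 1))
    have h5 : k + 1 ≤ 2 * (m + 2) * (k + 1) := by nlinarith
    omega
  have h6 : 10 * (m + 2) ^ 2 + (m + 2) * (m + 2 + 1) * (k + 1) + 1 ≤
      (11 * (m + 2) ^ 2 + (m + 2) + 1) * (k + 1) := by
    nlinarith [Nat.zero_le (m ^ 2 * k), Nat.zero_le (m * k)]
  have hpos : 0 < 4 ^ (m + 2) := by positivity
  calc 36 * 4 ^ (m + 2) * (10 * (m + 2) ^ 2 + (m + 2) * (m + 2 + 1) * (k + 1) + 1)
      ≤ 36 * 4 ^ (m + 2) * ((11 * (m + 2) ^ 2 + (m + 2) + 1) * (k + 1)) := Nat.mul_le_mul_left _ h6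
    _ = 4 ^ (m + 2) * (36 * (11 * (m + 2) ^ 2 + (m + 2) + 1) * (k + 1)) := by ring
    _ ≤ 4 ^ (m + 2) * (2 ^ (5 * (m + 2)) * 2 ^ ((m + 1) * (m + 2)) * (k + 1)) := by
        apply Nat.mul_le_mul_left
        exact Nat.mul_le_mul_right _ h1
    _ < 4 ^ (m + 2) * (2 ^ (5 * (m + 2)) * 2 ^ ((m + 1) * (m + 2)) * 2 ^ (2 * (m + 2) * (k + 1))) := by
        apply Nat.mul_lt_mul_of_pos_left _ hpos
        exact Nat.mul_lt_mul_of_pos_left h3 (by positivity)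
    _ = 4 ^ (m + 2) * (2 ^ (5 * (m + 2)) * 2 ^ (2 * (m + 2) * (k + 1)) * 2 ^ ((m + 1) * (m + 2))) := by
        ring

theorem A_lt (d k : ℕ) (hd : 1 ≤ d) (hk : 1 ≤ k) : 4 * A d k < 2 ^ (E d k) := by
  obtain ⟨j, rfl⟩ : ∃ j, k = j + 1 := ⟨k - 1, by omega⟩
  have h1 : 2 * s d (j + 1) + 3 ≤ 2 ^ (3 + 10 * (d + 1) + (d + 1) * j) := by
    have h2 := s_pos d (j + 1) (by omega)
    have e : 2 ^ (3 + 10 * (d + 1) + (d + 1) * j) = 8 * s d (j + 1) := by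
      rw [Par_s, show 3 + 10 * (d + 1) + (d + 1) * j = 3 + (10 * (d + 1) + (d + 1) * j) by ring, pow_add]
      norm_num
    rw [e]
    omega
  have h3 : (2 * s d (j + 1) + 3) ^ d ≤ 2 ^ (d * (3 + 10 * (d + 1) + (d + 1) * j)) := by
    rw [mul_comm d, pow_mul]
    exact Nat.pow_le_pow_left h1 d
  have h4 := Par_exp (d + 1) j (by omega)
  have e1 : E d (j + 1) = (7 * (d + 1) + 2 * (d + 1) * (j + 1) + (d + 1 - 1) * (d + 1)) + 3 +
      d * (3 + 10 * (d + 1) + (d + 1) * j) := by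
    unfold E
    rw [Nat.add_sub_cancel]
    ring
  have e2 : E d (j + 1) + 1 = 10 * (d + 1) ^ 2 + (d + 1) * (d + 1 + 1) * (j + 1) + 1 := by
    unfold E
    ring
  have h5 : 4 * A d (j + 1) ≤
      (36 * 4 ^ (d + 1) * (E d (j + 1) + 1)) * 2 ^ (d * (3 + 10 * (d + 1) + (d + 1) * j)) := by
    unfold A
    calc 4 * (9 * 4 ^ (d + 1) * (E d (j + 1) + 1) * (2 * s d (j + 1) + 3) ^ d)
        = (36 * 4 ^ (d + 1) * (E d (j + 1) + 1)) * (2 * s d (j + 1) + 3) ^ d := by ring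
      _ ≤ _ := Nat.mul_le_mul_left _ h3
  rw [e2] at h5
  refine lt_of_le_of_lt h5 ?_
  rw [e1, pow_add, pow_add]
  apply Nat.mul_lt_mul_of_pos_right _ (by positivity)
  refine lt_of_lt_of_le h4 ?_
  exact Nat.pow_le_pow_right (by norm_num) (by omega)

theorem A_pos (d k : ℕ) : 0 < A d k := by
  unfold A
  positivity

theorem nn_pos (d k : ℕ) : 1 ≤ nn d k := by
  unfold nn
  exact Nat.one_le_two_pow

end Pool.Agent.Kro
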