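import Pool.Agent.Kro.Cube
import Pool.Agent.Kro.Harm
import Pool.Agent.Kro.Par

/-! Module Avg: averages of the potential.
`rr_le`: `r(h) ≤ M(h)^d` for `h ≠ 0`. `mx_ge`: `h ∈ HH d k` gives `h ≠ 0`, so `M ≥ 1 = 2^(s 0)`: this is the case `k ≤ 2`. For `k ≥ 3`:
`M^(d+1) 2^(E(k-1)+d) ≥ r M 2^(E(k-1)+d) > 2^(s(k-1)) ≥ 2^(E(k-1)+d+(d+1)s(k-2))` (`s_E` for `k-1`), so `M > 2^(s(k-2))`.
`avg_ff`: `n = 2^(s k - s(k-2))`, `w_e = (4^(d+1) 2^(s k)) / (2^e r)` (floor). `2^e r di ≤ 4^(d+1) 2^(s k)` iff `di ≤ w_e`. As `M 2^e r ≤ M r 2^(E k) ≤ 2^(s k)`,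
`M ≤ w_e`; and `M n ≥ 2^(s k)`. `cnt_cube` (`i0` with `|h_{i0}| = M`): `2^(s k) #{di ≤ w_e} ≤ 9 w_e n^d`, so `2^e r #{..} ≤ 9 · 4^(d+1) n^d`. Sum over `e ≤ E k`.
`avg_FF`: divide by `r(h)` and sum over `h ∈ HH d k ⊆ bx (2^(s k))`: `sum_inv_rr`. -/

namespace Pool.Agent.Kro

open Finset

theorem ne_zero_of_HH (d k : ℕ) (h : Fin d → ℤ) (hh : h ∈ HH d k) : h ≠ 0 := by
  rintro rfl
  unfold HH at hh
  rw [mem_filter] at hh
  have h1 := hh.2.2
  have h2 : mx (0 : Fin d → ℤ) = 0 := by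
    unfold mx
    apply Nat.eq_zero_of_le_zero
    apply Finset.sup_le
    intro i _
    simp
  rw [h2, mul_zero, zero_mul] at h1
  exact absurd h1 (Nat.not_lt_zero _)

theorem mx_pos (d : ℕ) (h : Fin d → ℤ) (hh : h ≠ 0) : 1 ≤ mx h := by
  obtain ⟨i, hi⟩ := Function.ne_iff.mp hh
  have h1 : (h i).natAbs ≤ mx h := Finset.le_sup (f := fun i => (h i).natAbs) (mem_univ i)
  have h2 : 1 ≤ (h i).natAbs := by
    have : h i ≠ 0 := hi
    omega
  omega

theorem rr_pos (d : ℕ) (h : Fin d → ℤ) : 1 ≤ rr h := by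
  unfold rr
  apply Nat.one_le_iff_ne_zero.mpr
  rw [Finset.prod_ne_zero_iff]
  intro i _
  have : 1 ≤ max 1 (h i).natAbs := le_max_left _ _
  omega

theorem rr_le (d : ℕ) (h : Fin d → ℤ) (hh : h ≠ 0) : rr h ≤ mx h ^ d := by
  have h0 := mx_pos d h hh
  calc rr h = ∏ i, max 1 (h i).natAbs := rfl
    _ ≤ ∏ _i : Fin d, mx h := by
        apply Finset.prod_le_prod (fun i _ => Nat.zero_le _)
        intro i _
        exact max_le h0 (Finset.le_sup (f := fun i => (h i).natAbs) (mem_univ i))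
    _ = mx h ^ d := by simp

theorem mx_ge (d k : ℕ) (hd : 1 ≤ d) (hk : 1 ≤ k) (h : Fin d → ℤ) (hh : h ∈ HH d k) :
    2 ^ s d (k - 2) ≤ mx h := by
  have hne := ne_zero_of_HH d k h hh
  have h0 := mx_pos d h hne
  rcases le_or_gt k 2 with hk2 | hk2
  · have : k - 2 = 0 := by omega
    rw [this, s_zero, pow_zero]
    exact h0
  · unfold HH at hh
    rw [mem_filter] at hh
    have h1 := hh.2.2
    have h2 := s_E d (k - 1) hd (by omega)
    have e : k - 1 - 1 = k - 2 := by omega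
    rw [e] at h2
    have h3 : 2 ^ (E d (k - 1) + d) * (2 ^ s d (k - 2)) ^ (d + 1) < 2 ^ (E d (k - 1) + d) * mx h ^ (d + 1) := by
      calc 2 ^ (E d (k - 1) + d) * (2 ^ s d (k - 2)) ^ (d + 1)
          = 2 ^ (E d (k - 1) + d + (d + 1) * s d (k - 2)) := by
            rw [pow_add 2 (E d (k - 1) + d), ← pow_mul, mul_comm (d + 1)]
        _ ≤ 2 ^ s d (k - 1) := Nat.pow_le_pow_right (by norm_num) h2
        _ < rr h * mx h * 2 ^ (E d (k - 1) + d) := h1
        _ ≤ mx h ^ d * mx h * 2 ^ (E d (k - 1) + d) := by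
            apply Nat.mul_le_mul_right
            apply Nat.mul_le_mul_right
            exact rr_le d h hne
        _ = 2 ^ (E d (k - 1) + d) * mx h ^ (d + 1) := by ring
    have h4 := lt_of_mul_lt_mul_left h3 (Nat.zero_le _)
    exact (lt_of_pow_lt_pow_left₀ (d + 1) (Nat.zero_le _) h4).le

theorem Avg_exists_mx (d : ℕ) (h : Fin d → ℤ) (hh : h ≠ 0) : ∃ i, (h i).natAbs = mx h := by
  obtain ⟨j, hj⟩ := Function.ne_iff.mp hh
  have hne : (univ : Finset (Fin d)).Nonempty := ⟨j, mem_univ j⟩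
  obtain ⟨i, _, hi⟩ := Finset.exists_mem_eq_sup univ hne (fun i => (h i).natAbs)
  exact ⟨i, hi.symm⟩

theorem avg_ff (d k : ℕ) (hd : 1 ≤ d) (hk : 1 ≤ k) (h : Fin d → ℤ) (hh : h ∈ HH d k) (c : Fin d → ℕ) :
    rr h * ∑ c' ∈ desc (2 ^ (s d k - s d (k - 2))) c, ff d k h c'
      ≤ 9 * 4 ^ (d + 1) * (E d k + 1) * (2 ^ (s d k - s d (k - 2))) ^ d := by
  classical
  have hne := ne_zero_of_HH d k h hh
  have hmg := mx_ge d k hd hk h hh
  have hr := rr_pos d h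
  obtain ⟨i0, hi0⟩ := Avg_exists_mx d h hne
  set n := 2 ^ (s d k - s d (k - 2)) with hn
  have hsm : s d (k - 2) ≤ s d k := s_mono d (by omega)
  unfold HH at hh
  rw [mem_filter] at hh
  have hM := hh.2.1
  -- one layer
  have hlay : ∀ e ∈ range (E d k + 1),
      2 ^ e * rr h * ((desc n c).filter fun c' => 2 ^ e * rr h * di (s d k) (ipz h c') ≤
        4 ^ (d + 1) * 2 ^ (s d k)).card ≤ 9 * 4 ^ (d + 1) * n ^ d := by
    intro e he
    rw [mem_range] at he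
    have hpos : 0 < 2 ^ e * rr h := by positivity
    set w := (4 ^ (d + 1) * 2 ^ (s d k)) / (2 ^ e * rr h) with hw
    have hiff : ∀ c' : Fin d → ℕ, (2 ^ e * rr h * di (s d k) (ipz h c') ≤ 4 ^ (d + 1) * 2 ^ (s d k)) ↔
        di (s d k) (ipz h c') ≤ w := by
      intro c'
      rw [hw, Nat.le_div_iff_mul_le hpos, mul_comm]
    have hfe : ((desc n c).filter fun c' => 2 ^ e * rr h * di (s d k) (ipz h c') ≤
        4 ^ (d + 1) * 2 ^ (s d k)) = ((desc n c).filter fun c' => di (s d k) (ipz h c') ≤ w) := by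
      apply Finset.filter_congr
      intro c' _
      exact hiff c'
    rw [hfe]
    have h1 : (h i0).natAbs ≤ w := by
      rw [hi0, hw, Nat.le_div_iff_mul_le hpos]
      calc mx h * (2 ^ e * rr h) = rr h * mx h * 2 ^ e := by ring
        _ ≤ rr h * mx h * 2 ^ (E d k + d) := by
            apply Nat.mul_le_mul_left
            exact Nat.pow_le_pow_right (by norm_num) (by omega)
        _ ≤ 2 ^ s d k := hM
        _ ≤ 4 ^ (d + 1) * 2 ^ s d k := Nat.le_mul_of_pos_left _ (by positivity)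
    have h2 : 2 ^ (s d k) ≤ (h i0).natAbs * n := by
      rw [hi0, hn]
      calc 2 ^ s d k = 2 ^ s d (k - 2) * 2 ^ (s d k - s d (k - 2)) := by
            rw [← pow_add, Nat.add_sub_cancel' hsm]
        _ ≤ mx h * 2 ^ (s d k - s d (k - 2)) := Nat.mul_le_mul_right _ hmg
    have h3 := cnt_cube d (s d k) n w h c i0 h1 h2
    set N := ((desc n c).filter fun c' => di (s d k) (ipz h c') ≤ w).card with hN
    have h4 : w * (2 ^ e * rr h) ≤ 4 ^ (d + 1) * 2 ^ (s d k) := Nat.div_mul_le_self _ _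
    have h5 : 2 ^ (s d k) * (2 ^ e * rr h * N) ≤ 2 ^ (s d k) * (9 * 4 ^ (d + 1) * n ^ d) := by
      calc 2 ^ (s d k) * (2 ^ e * rr h * N) = (2 ^ e * rr h) * (2 ^ (s d k) * N) := by ring
        _ ≤ (2 ^ e * rr h) * (9 * w * n ^ d) := Nat.mul_le_mul_left _ h3
        _ = 9 * n ^ d * (w * (2 ^ e * rr h)) := by ring
        _ ≤ 9 * n ^ d * (4 ^ (d + 1) * 2 ^ (s d k)) := Nat.mul_le_mul_left _ h4
        _ = 2 ^ (s d k) * (9 * 4 ^ (d + 1) * n ^ d) := by ring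
    exact Nat.le_of_mul_le_mul_left h5 (by positivity)
  have hsum : rr h * ∑ c' ∈ desc n c, ff d k h c' = ∑ e ∈ range (E d k + 1),
      2 ^ e * rr h * ((desc n c).filter fun c' => 2 ^ e * rr h * di (s d k) (ipz h c') ≤
        4 ^ (d + 1) * 2 ^ (s d k)).card := by
    unfold ff
    rw [Finset.sum_comm, Finset.mul_sum]
    apply Finset.sum_congr rfl
    intro e _
    rw [← Finset.sum_filter, Finset.sum_const, smul_eq_mul]
    ring
  rw [hsum]
  calc _ ≤ ∑ e ∈ range (E d k + 1), 9 * 4 ^ (d + 1) * n ^ d := Finset.sum_le_sum hlay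
    _ = 9 * 4 ^ (d + 1) * (E d k + 1) * n ^ d := by
        rw [Finset.sum_const, card_range, smul_eq_mul]
        ring

theorem avg_FF (d k : ℕ) (hd : 1 ≤ d) (hk : 1 ≤ k) (c : Fin d → ℕ) :
    ∑ c' ∈ desc (2 ^ (s d k - s d (k - 2))) c, FF d k c'
      ≤ A d k * (2 ^ (s d k - s d (k - 2))) ^ d := by
  classical
  set n := 2 ^ (s d k - s d (k - 2)) with hn
  have h1 : ∑ c' ∈ desc n c, FF d k c' = ∑ h ∈ HH d k, ∑ c' ∈ desc n c, ff d k h c' := by
    unfold FF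
    rw [Finset.sum_comm]
  rw [h1]
  have h2 : ∀ h ∈ HH d k, ((∑ c' ∈ desc n c, ff d k h c' : ℕ) : ℝ) ≤
      (9 * 4 ^ (d + 1) * ((E d k : ℝ) + 1) * (n : ℝ) ^ d) * (1 / rr h) := by
    intro h hh
    have h3 := avg_ff d k hd hk h hh c
    rw [← hn] at h3
    have hr : (0 : ℝ) < rr h := by exact_mod_cast rr_pos d h
    have h4 : ((rr h * ∑ c' ∈ desc n c, ff d k h c' : ℕ) : ℝ) ≤
        ((9 * 4 ^ (d + 1) * (E d k + 1) * n ^ d : ℕ) : ℝ) := by exact_mod_cast h3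
    rw [Nat.cast_mul] at h4
    rw [mul_one_div, le_div_iff₀ hr, mul_comm]
    refine h4.trans (le_of_eq ?_)
    push_cast
    ring
  have h3 : ((∑ h ∈ HH d k, ∑ c' ∈ desc n c, ff d k h c' : ℕ) : ℝ) ≤ ((A d k * n ^ d : ℕ) : ℝ) := by
    rw [Nat.cast_sum]
    calc ∑ h ∈ HH d k, ((∑ c' ∈ desc n c, ff d k h c' : ℕ) : ℝ)
        ≤ ∑ h ∈ HH d k, (9 * 4 ^ (d + 1) * ((E d k : ℝ) + 1) * (n : ℝ) ^ d) * (1 / rr h) :=
          Finset.sum_le_sum h2
      _ = (9 * 4 ^ (d + 1) * ((E d k : ℝ) + 1) * (n : ℝ) ^ d) * ∑ h ∈ HH d k, (1 : ℝ) / rr h := by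
          rw [Finset.mul_sum]
      _ ≤ (9 * 4 ^ (d + 1) * ((E d k : ℝ) + 1) * (n : ℝ) ^ d) *
            ∑ h ∈ bx (fun _ : Fin d => 2 ^ (s d k)), (1 : ℝ) / rr h := by
          apply mul_le_mul_of_nonneg_left _ (by positivity)
          apply Finset.sum_le_sum_of_subset_of_nonneg
          · unfold HH
            exact Finset.filter_subset _ _
          · intro h _ _
            positivity
      _ ≤ (9 * 4 ^ (d + 1) * ((E d k : ℝ) + 1) * (n : ℝ) ^ d) * (2 * (s d k : ℝ) + 3) ^ d := by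
          apply mul_le_mul_of_nonneg_left (sum_inv_rr d (s d k)) (by positivity)
      _ = ((A d k * n ^ d : ℕ) : ℝ) := by
          unfold A
          push_cast
          ring
  exact_mod_cast h3

end Pool.Agent.Kro
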