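import Pool.Agent.Kro.Trig

/-! Module Blk: block averages.
For each `u`: `∑_{n<N} P(n+u) = ∑_{n<N} P(n) - ∑_{n<u} P(n) + ∑_{n<u} P(N+n)`; so `Bm m N P - ∑_{n<N} P(n)` is an average over
`u < 2^m` of `∑_{n<u} (P(N+n) - P(n))`, norm `≤ ∑_{n<2^m} (‖P n‖ + ‖P(N+n)‖)`. Hence `bm_diff`. `bm_last`: `n + u < 2^K + 2^K`.
`bm_ee`: `Bm m N (e(·θ)) = 2^{-m} (∑_{u<2^m} e(uθ)) (∑_{n<N} e(nθ))`, `≤ min(1/(2t), 2^{-m}/(4t²))`, `t = dz θ` (`geo_le`, `geo_mul_le`).
`blk_main`: with `R m = P - ∑_{m' ≤ m} U m'`: `∑_{n<N} P = Bm 0 N P = ∑_{m ≤ K} Bm m (U m) + Bm K (R K) + ∑_{m<K} (Bm m - Bm (m+1)) (R m)`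
(induction on `K`, linearity). -/

namespace Pool.Agent.Kro

open Finset

theorem Blk_shift (N : ℕ) (P : ℕ → ℂ) (u : ℕ) :
    ∑ n ∈ range N, P (n + u) = ∑ n ∈ range N, P n + ∑ n ∈ range u, (P (N + n) - P n) := by
  induction u with
  | zero => simp
  | succ u ih =>
    rw [Finset.sum_range_succ _ u, ← add_assoc, ← ih]
    have h1 : ∑ n ∈ range (N + 1), P (n + u) = ∑ n ∈ range N, P (n + u) + P (N + u) :=
      Finset.sum_range_succ _ _
    have h2 : ∑ n ∈ range (N + 1), P (n + u) = ∑ n ∈ range N, P (n + 1 + u) + P (0 + u) :=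
      Finset.sum_range_succ' _ _
    have h3 : ∑ n ∈ range N, P (n + (u + 1)) = ∑ n ∈ range N, P (n + 1 + u) := by
      apply Finset.sum_congr rfl
      intro n _
      congr 1
      ring
    rw [h3]
    rw [zero_add] at h2
    linear_combination h1 - h2

theorem Blk_avg (m : ℕ) (f : ℕ → ℂ) (T : ℝ) (h : ∀ u < 2 ^ m, ‖f u‖ ≤ T) :
    ‖(1 / 2 ^ m : ℂ) * ∑ u ∈ range (2 ^ m), f u‖ ≤ T := by
  rw [norm_mul]
  have h1 : ‖(1 / 2 ^ m : ℂ)‖ = 1 / 2 ^ m := by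
    rw [norm_div, norm_pow]
    simp
  rw [h1]
  have h2 : ‖∑ u ∈ range (2 ^ m), f u‖ ≤ 2 ^ m * T := by
    calc ‖∑ u ∈ range (2 ^ m), f u‖ ≤ ∑ u ∈ range (2 ^ m), ‖f u‖ := norm_sum_le _ _
      _ ≤ ∑ u ∈ range (2 ^ m), T := Finset.sum_le_sum fun u hu => h u (Finset.mem_range.1 hu)
      _ = 2 ^ m * T := by simp
  have h3 : (0:ℝ) < 2 ^ m := by positivity
  calc 1 / 2 ^ m * ‖∑ u ∈ range (2 ^ m), f u‖ ≤ 1 / 2 ^ m * (2 ^ m * T) := by
        apply mul_le_mul_of_nonneg_left h2 (by positivity)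
    _ = T := by field_simp

theorem Blk_sub (m N : ℕ) (P : ℕ → ℂ) (M : ℕ) (hM : m ≤ M) :
    ‖Bm m N P - ∑ n ∈ range N, P n‖ ≤ ∑ n ∈ range (2 ^ M), (‖P n‖ + ‖P (N + n)‖) := by
  have h1 : Bm m N P - ∑ n ∈ range N, P n
      = (1 / 2 ^ m : ℂ) * ∑ u ∈ range (2 ^ m), ∑ n ∈ range u, (P (N + n) - P n) := by
    have h2 : (2:ℂ) ^ m ≠ 0 := pow_ne_zero _ two_ne_zero
    have h3 : ∑ u ∈ range (2 ^ m), ∑ n ∈ range N, P (n + u)
        = 2 ^ m * ∑ n ∈ range N, P n + ∑ u ∈ range (2 ^ m), ∑ n ∈ range u, (P (N + n) - P n) := by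
      rw [Finset.sum_congr rfl (fun u _ => Blk_shift N P u), Finset.sum_add_distrib]
      simp
    unfold Bm
    rw [h3]
    field_simp
    ring
  rw [h1]
  apply Blk_avg
  intro u hu
  calc ‖∑ n ∈ range u, (P (N + n) - P n)‖ ≤ ∑ n ∈ range u, ‖P (N + n) - P n‖ := norm_sum_le _ _
    _ ≤ ∑ n ∈ range u, (‖P n‖ + ‖P (N + n)‖) := by
        apply Finset.sum_le_sum
        intro n _
        calc ‖P (N + n) - P n‖ ≤ ‖P (N + n)‖ + ‖P n‖ := norm_sub_le _ _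
          _ = ‖P n‖ + ‖P (N + n)‖ := add_comm _ _
    _ ≤ ∑ n ∈ range (2 ^ M), (‖P n‖ + ‖P (N + n)‖) := by
        apply Finset.sum_le_sum_of_subset_of_nonneg
        · apply Finset.range_subset_range.2
          exact hu.le.trans (Nat.pow_le_pow_right (by norm_num) hM)
        · intro n _ _
          positivity

theorem bm_diff (m N : ℕ) (P : ℕ → ℂ) :
    ‖Bm m N P - Bm (m + 1) N P‖ ≤ 2 * ∑ n ∈ range (2 ^ (m + 1)), (‖P n‖ + ‖P (N + n)‖) := by
  have h1 := Blk_sub m N P (m + 1) (by omega)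
  have h2 := Blk_sub (m + 1) N P (m + 1) le_rfl
  calc ‖Bm m N P - Bm (m + 1) N P‖
      = ‖(Bm m N P - ∑ n ∈ range N, P n) - (Bm (m + 1) N P - ∑ n ∈ range N, P n)‖ := by
        congr 1; ring
    _ ≤ ‖Bm m N P - ∑ n ∈ range N, P n‖ + ‖Bm (m + 1) N P - ∑ n ∈ range N, P n‖ := norm_sub_le _ _
    _ ≤ _ := by linarith

theorem bm_last (K N : ℕ) (hN : N ≤ 2 ^ K) (P : ℕ → ℂ) :
    ‖Bm K N P‖ ≤ ∑ n ∈ range (2 ^ (K + 1)), ‖P n‖ := by
  unfold Bm
  apply Blk_avg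
  intro u hu
  calc ‖∑ n ∈ range N, P (n + u)‖ ≤ ∑ n ∈ range N, ‖P (n + u)‖ := norm_sum_le _ _
    _ = ∑ n ∈ (range N).map (addRightEmbedding u), ‖P n‖ := by
        rw [Finset.sum_map]
        rfl
    _ ≤ ∑ n ∈ range (2 ^ (K + 1)), ‖P n‖ := by
        apply Finset.sum_le_sum_of_subset_of_nonneg
        · intro x hx
          rw [Finset.mem_map] at hx
          obtain ⟨n, hn, rfl⟩ := hx
          rw [Finset.mem_range] at hn ⊢
          simp only [addRightEmbedding_apply]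
          rw [pow_succ]
          omega
        · intro n _ _
          positivity

theorem bm_one (m N : ℕ) : Bm m N (fun _ => 1) = N := by
  unfold Bm
  simp

theorem bm_ee (m N : ℕ) (θ : ℝ) (h : dz θ ≠ 0) :
    ‖Bm m N (fun n => ee (n * θ))‖ ≤ gm m (dz θ) := by
  have ht : 0 < dz θ := lt_of_le_of_ne (dz_nonneg θ) (Ne.symm h)
  have h1 : Bm m N (fun n => ee (n * θ))
      = (1 / 2 ^ m : ℂ) * ((∑ u ∈ range (2 ^ m), ee (u * θ)) * ∑ n ∈ range N, ee (n * θ)) := by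
    unfold Bm
    congr 1
    rw [Finset.sum_mul]
    apply Finset.sum_congr rfl
    intro u _
    rw [Finset.mul_sum]
    apply Finset.sum_congr rfl
    intro n _
    rw [← ee_add]
    show ee (((n + u : ℕ) : ℝ) * θ) = ee ((u : ℝ) * θ + (n : ℝ) * θ)
    congr 1
    push_cast
    ring
  rw [h1, norm_mul, norm_mul]
  have h0 : ‖(1 / 2 ^ m : ℂ)‖ = 1 / 2 ^ m := by
    rw [norm_div, norm_pow]
    simp
  rw [h0]
  have hA := geo_le (2 ^ m) θ
  have hA2 := geo_mul_le (2 ^ m) θ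
  have hB2 := geo_mul_le N θ
  set a := ‖∑ u ∈ range (2 ^ m), ee (u * θ)‖ with ha
  set b := ‖∑ n ∈ range N, ee (n * θ)‖ with hb
  have ha0 : 0 ≤ a := norm_nonneg _
  have hb0 : 0 ≤ b := norm_nonneg _
  push_cast at hA
  have h3 : (0:ℝ) < 2 ^ m := by positivity
  have hb3 : b ≤ 1 / dz θ := by
    rw [le_div_iff₀ ht]
    nlinarith
  have ha3 : a ≤ 1 / dz θ := by
    rw [le_div_iff₀ ht]
    nlinarith
  unfold gm
  split_ifs with hc
  · calc 1 / 2 ^ m * (a * b) ≤ 1 / 2 ^ m * (2 ^ m * (1 / dz θ)) := by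
          apply mul_le_mul_of_nonneg_left _ (by positivity)
          exact mul_le_mul hA hb3 hb0 h3.le
      _ = 1 / dz θ := by field_simp
  · calc 1 / 2 ^ m * (a * b) ≤ 1 / 2 ^ m * ((1 / dz θ) * (1 / dz θ)) := by
          apply mul_le_mul_of_nonneg_left _ (by positivity)
          exact mul_le_mul ha3 hb3 hb0 (by positivity)
      _ = 1 / (2 ^ m * dz θ ^ 2) := by field_simp

theorem Blk_add (m N : ℕ) (P Q : ℕ → ℂ) : Bm m N (fun n => P n + Q n) = Bm m N P + Bm m N Q := by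
  unfold Bm
  simp only [Finset.sum_add_distrib, mul_add]

theorem Blk_zero (N : ℕ) (P : ℕ → ℂ) : Bm 0 N P = ∑ n ∈ range N, P n := by
  unfold Bm
  simp

theorem Blk_tele (N : ℕ) (P : ℕ → ℂ) (U : ℕ → ℕ → ℂ) (M : ℕ) :
    ∑ n ∈ range N, P n = ∑ m ∈ range (M + 1), Bm m N (U m)
      + Bm M N (fun n => P n - ∑ m' ∈ range (M + 1), U m' n)
      + ∑ m ∈ range M, (Bm m N (fun n => P n - ∑ m' ∈ range (m + 1), U m' n)
          - Bm (m + 1) N (fun n => P n - ∑ m' ∈ range (m + 1), U m' n)) := by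
  induction M with
  | zero =>
    rw [← Blk_zero]
    simp only [zero_add, Finset.sum_range_one, Finset.range_zero, Finset.sum_empty, add_zero]
    rw [← Blk_add]
    congr 1
    funext n
    ring
  | succ M ih =>
    rw [ih, Finset.sum_range_succ _ (M + 1), Finset.sum_range_succ _ M]
    have h1 : Bm (M + 1) N (fun n => P n - ∑ m' ∈ range (M + 1), U m' n)
        = Bm (M + 1) N (U (M + 1))
          + Bm (M + 1) N (fun n => P n - ∑ m' ∈ range (M + 1 + 1), U m' n) := by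
      rw [← Blk_add]
      congr 1
      funext n
      rw [Finset.sum_range_succ _ (M + 1)]
      ring
    rw [Finset.sum_range_succ _ M] at *
    linear_combination h1

theorem blk_main (K N : ℕ) (hN : N ≤ 2 ^ K) (P : ℕ → ℂ) (U : ℕ → ℕ → ℂ) (W : ℕ → ℕ → ℝ)
    (h : ∀ m n, ‖P n - ∑ m' ∈ range (m + 1), U m' n‖ ≤ W m n) :
    ‖∑ n ∈ range N, P n - ∑ m ∈ range (K + 1), Bm m N (U m)‖
      ≤ 2 * ∑ m ∈ range (K + 1), ∑ n ∈ range (2 ^ (m + 1)), (W m n + W m (N + n)) := by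
  have hW : ∀ m n, 0 ≤ W m n := fun m n => (norm_nonneg _).trans (h m n)
  have h1 := Blk_tele N P U K
  have h2 : ∑ n ∈ range N, P n - ∑ m ∈ range (K + 1), Bm m N (U m)
      = Bm K N (fun n => P n - ∑ m' ∈ range (K + 1), U m' n)
      + ∑ m ∈ range K, (Bm m N (fun n => P n - ∑ m' ∈ range (m + 1), U m' n)
          - Bm (m + 1) N (fun n => P n - ∑ m' ∈ range (m + 1), U m' n)) := by
    rw [h1]; ring
  rw [h2, Finset.sum_range_succ _ K, mul_add, add_comm (2 * _)]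
  refine (norm_add_le _ _).trans (add_le_add ?_ ?_)
  · refine (bm_last K N hN _).trans ?_
    have h3 : ∑ n ∈ range (2 ^ (K + 1)), ‖P n - ∑ m' ∈ range (K + 1), U m' n‖
        ≤ ∑ n ∈ range (2 ^ (K + 1)), (W K n + W K (N + n)) := by
      apply Finset.sum_le_sum
      intro n _
      linarith [h K n, hW K (N + n)]
    have h4 : 0 ≤ ∑ n ∈ range (2 ^ (K + 1)), (W K n + W K (N + n)) :=
      Finset.sum_nonneg fun n _ => add_nonneg (hW _ _) (hW _ _)
    linarith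
  · refine (norm_sum_le _ _).trans ?_
    rw [Finset.mul_sum]
    apply Finset.sum_le_sum
    intro m _
    refine (bm_diff m N _).trans ?_
    apply mul_le_mul_of_nonneg_left _ (by norm_num)
    apply Finset.sum_le_sum
    intro n _
    exact add_le_add (h m n) (h m (N + n))

end Pool.Agent.Kro
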