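import Pool.Agent.Kro.Defs

/-! Module Child: `m ↦ child n c m` is a bijection of `{0, ..., n^d - 1}` with `desc n c` (base `n` digits: `finFunctionFinEquiv`,
or induction on `d`, or `Nat.digits`/`Nat.ofDigits`), and `desc (n n') c` is the disjoint union of the `desc n' c'`, `c' ∈ desc n c`
(`c'' ∈ desc (n n') c` belongs to `desc n' (c''/n')`). -/

namespace Pool.Agent.Kro

open Finset

theorem Child_mem_desc {d : ℕ} (n : ℕ) (c c' : Fin d → ℕ) :
    c' ∈ desc n c ↔ ∀ i, c i * n ≤ c' i ∧ c' i < c i * n + n := by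
  simp only [desc, Fintype.mem_piFinset, Finset.mem_Ico]

theorem child_mem (d n : ℕ) (hn : 1 ≤ n) (c : Fin d → ℕ) (m : ℕ) : child n c m ∈ desc n c := by
  rw [Child_mem_desc]
  intro i
  have h : m / n ^ (i : ℕ) % n < n := Nat.mod_lt _ hn
  simp only [child]
  omega

theorem Child_eq {d n : ℕ} (c : Fin d → ℕ) (m : Fin (n ^ d)) (i : Fin d) :
    child n c (m : ℕ) i = c i * n + ((finFunctionFinEquiv.symm m i : Fin n) : ℕ) := rfl

theorem child_surj (d n : ℕ) (hn : 1 ≤ n) (c c' : Fin d → ℕ) (hc : c' ∈ desc n c) :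
    ∃ m < n ^ d, child n c m = c' := by
  rw [Child_mem_desc] at hc
  let e : Fin d → Fin n := fun i => ⟨c' i - c i * n, by have := hc i; omega⟩
  refine ⟨(finFunctionFinEquiv e : Fin (n ^ d)), (finFunctionFinEquiv e).isLt, ?_⟩
  funext i
  rw [Child_eq, Equiv.symm_apply_apply]
  have := hc i
  simp only [e]
  omega

theorem Child_inj {d n : ℕ} (c : Fin d → ℕ) {m m' : ℕ} (hm : m < n ^ d) (hm' : m' < n ^ d)
    (h : child n c m = child n c m') : m = m' := by
  have h1 : finFunctionFinEquiv.symm (⟨m, hm⟩ : Fin (n ^ d)) =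
      finFunctionFinEquiv.symm (⟨m', hm'⟩ : Fin (n ^ d)) := by
    funext i
    have h2 := congrFun h i
    have h3 := Child_eq c (⟨m, hm⟩ : Fin (n ^ d)) i
    have h4 := Child_eq c (⟨m', hm'⟩ : Fin (n ^ d)) i
    apply Fin.ext
    simp only at h3 h4
    omega
  have h5 := finFunctionFinEquiv.symm.injective h1
  exact congrArg Fin.val h5

theorem sum_child (d n : ℕ) (hn : 1 ≤ n) (c : Fin d → ℕ) (f : (Fin d → ℕ) → ℕ) :
    ∑ m ∈ range (n ^ d), f (child n c m) = ∑ c' ∈ desc n c, f c' := by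
  refine Finset.sum_nbij (child n c) ?_ ?_ ?_ ?_
  · intro m _
    exact child_mem d n hn c m
  · intro m hm m' hm' h
    exact Child_inj c (by simpa using hm) (by simpa using hm') h
  · intro c' hc'
    obtain ⟨m, hm, h⟩ := child_surj d n hn c c' hc'
    exact ⟨m, by simpa using hm, h⟩
  · intro m _
    rfl

theorem card_desc (d n : ℕ) (c : Fin d → ℕ) : (desc n c).card = n ^ d := by
  simp [desc, Fintype.card_piFinset]

theorem desc_desc (d n n' : ℕ) (hn : 1 ≤ n) (hn' : 1 ≤ n') (c : Fin d → ℕ) (f : (Fin d → ℕ) → ℕ) :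
    ∑ c' ∈ desc n c, ∑ c'' ∈ desc n' c', f c'' = ∑ c'' ∈ desc (n * n') c, f c'' := by
  have hmaps : ∀ x ∈ desc (n * n') c, (fun i => x i / n') ∈ desc n c := by
    intro x hx
    rw [Child_mem_desc] at hx ⊢
    intro i
    obtain ⟨h1, h2⟩ := hx i
    refine ⟨(Nat.le_div_iff_mul_le hn').2 (by rw [mul_assoc]; exact h1), ?_⟩
    rw [Nat.div_lt_iff_lt_mul hn']
    calc x i < c i * (n * n') + n * n' := h2
      _ = (c i * n + n) * n' := by ring
  rw [← Finset.sum_fiberwise_of_maps_to (g := fun x : Fin d → ℕ => fun i => x i / n') hmaps]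
  apply Finset.sum_congr rfl
  intro c' hc'
  apply Finset.sum_congr ?_ (fun _ _ => rfl)
  ext x
  rw [Finset.mem_filter, Child_mem_desc, Child_mem_desc]
  rw [Child_mem_desc] at hc'
  constructor
  · intro h
    refine ⟨?_, ?_⟩
    · intro i
      obtain ⟨h1, h2⟩ := h i
      obtain ⟨h3, h4⟩ := hc' i
      constructor
      · calc c i * (n * n') = (c i * n) * n' := by ring
          _ ≤ c' i * n' := Nat.mul_le_mul_right _ h3
          _ ≤ x i := h1
      · calc x i < c' i * n' + n' := h2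
          _ = (c' i + 1) * n' := by ring
          _ ≤ (c i * n + n) * n' := Nat.mul_le_mul_right _ h4
          _ = c i * (n * n') + n * n' := by ring
    · funext i
      obtain ⟨h1, h2⟩ := h i
      apply le_antisymm
      · apply Nat.le_of_lt_succ
        rw [Nat.div_lt_iff_lt_mul hn']
        calc x i < c' i * n' + n' := h2
          _ = (c' i).succ * n' := by rw [Nat.succ_mul]
      · exact (Nat.le_div_iff_mul_le hn').2 h1
  · rintro ⟨_, h⟩ i
    have h1 : x i / n' = c' i := congrFun h i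
    constructor
    · rw [← h1]; exact Nat.div_mul_le_self _ _
    · rw [← h1]
      have := Nat.lt_div_mul_add (a := x i) hn'
      exact this

end Pool.Agent.Kro
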