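import Pool.Agent.Kro.Child

/-! Module Code: `FF` in terms of natural numbers. `h ↦ (h_i + X)_i` is a bijection of `bx X` with `{0..2X}^d = desc (2X+1) 0`, so with `sum_child`
(`c = 0`, `n = 2X+1`) the sum over `h ∈ bx X` is the sum over `m < (2X+1)^d` of the term at `h_i = j_i - X`, `j = child (2X+1) 0 m`.
`|h_i| = nd X (j_i)`; `ipz h c = ∑ j_i c_i - X ∑ c_i ≡ ∑ j_i c_i + (2^S - 1) X ∑ c_i (mod 2^S)`. -/

namespace Pool.Agent.Kro

open Finset

def nd (X j : ℕ) : ℕ := (j - X) + (X - j)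

def rc {d : ℕ} (X : ℕ) (j : Fin d → ℕ) : ℕ := ∏ i, max 1 (nd X (j i))

def mc {d : ℕ} (X : ℕ) (j : Fin d → ℕ) : ℕ := univ.sup fun i => nd X (j i)

def tc {d : ℕ} (S X : ℕ) (j c : Fin d → ℕ) : ℕ :=
  (∑ i, j i * c i + (2 ^ S - 1) * X * ∑ i, c i) % 2 ^ S

def fc2 (d k : ℕ) (c j : Fin d → ℕ) : ℕ :=
  if rc (2 ^ s d k) j * mc (2 ^ s d k) j * 2 ^ (E d k + d) ≤ 2 ^ (s d k) ∧
      2 ^ (s d (k - 1)) < rc (2 ^ s d k) j * mc (2 ^ s d k) j * 2 ^ (E d (k - 1) + d) then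
    ∑ e ∈ range (E d k + 1),
      if 2 ^ e * rc (2 ^ s d k) j *
          min (tc (s d k) (2 ^ s d k) j c) (2 ^ s d k - tc (s d k) (2 ^ s d k) j c)
            ≤ 4 ^ (d + 1) * 2 ^ (s d k) then 2 ^ e else 0
  else 0

theorem Code_nd (X j : ℕ) : ((j : ℤ) - X).natAbs = nd X j := by
  unfold nd; omega

theorem Code_rr {d : ℕ} (X : ℕ) (j : Fin d → ℕ) :
    rr (fun i => ((j i : ℤ) - X)) = rc X j := by
  unfold rr rc
  exact prod_congr rfl fun i _ => by rw [Code_nd]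

theorem Code_mx {d : ℕ} (X : ℕ) (j : Fin d → ℕ) :
    mx (fun i => ((j i : ℤ) - X)) = mc X j := by
  unfold mx mc
  exact sup_congr rfl fun i _ => by rw [Code_nd]

theorem Code_ipz {d : ℕ} (S X : ℕ) (j c : Fin d → ℕ) :
    (ipz (fun i => ((j i : ℤ) - X)) c % 2 ^ S).toNat = tc S X j c := by
  have h1 : ipz (fun i => ((j i : ℤ) - X)) c
      = ((∑ i, j i * c i + (2 ^ S - 1) * X * ∑ i, c i : ℕ) : ℤ) - 2 ^ S * (X * ∑ i, c i : ℕ) := by
    have h2 : ((2 ^ S - 1 : ℕ) : ℤ) = 2 ^ S - 1 := by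
      rw [Nat.cast_sub Nat.one_le_two_pow]; push_cast; ring
    unfold ipz
    simp only [sub_mul, sum_sub_distrib, ← mul_sum]
    push_cast [h2]
    ring
  rw [h1, Int.sub_mul_emod_self_left]
  unfold tc
  have h3 : ((2 : ℤ) ^ S) = ((2 ^ S : ℕ) : ℤ) := by push_cast; rfl
  rw [h3, ← Int.natCast_mod, Int.toNat_natCast]

theorem Code_term (d k : ℕ) (c j : Fin d → ℕ) :
    (if rr (fun i => ((j i : ℤ) - (2 ^ s d k : ℕ))) * mx (fun i => ((j i : ℤ) - (2 ^ s d k : ℕ))) * 2 ^ (E d k + d)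
          ≤ 2 ^ (s d k) ∧
        2 ^ (s d (k - 1)) < rr (fun i => ((j i : ℤ) - (2 ^ s d k : ℕ))) *
          mx (fun i => ((j i : ℤ) - (2 ^ s d k : ℕ))) * 2 ^ (E d (k - 1) + d) then
      ff d k (fun i => ((j i : ℤ) - (2 ^ s d k : ℕ))) c else 0) = fc2 d k c j := by
  unfold fc2 ff di
  rw [Code_rr, Code_mx, Code_ipz]

theorem Code_bij {d : ℕ} (X : ℕ) (g : (Fin d → ℤ) → ℕ) (g' : (Fin d → ℕ) → ℕ)
    (hg : ∀ j, g' j = g (fun i => ((j i : ℤ) - X))) :
    ∑ j ∈ desc (2 * X + 1) (fun _ : Fin d => 0), g' j = ∑ h ∈ bx (fun _ : Fin d => X), g h := by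
  refine sum_bij' (fun (j : Fin d → ℕ) _ => fun i => ((j i : ℤ) - X))
    (fun (h : Fin d → ℤ) _ => fun i => (h i + X).toNat) ?_ ?_ ?_ ?_ ?_
  · intro j hj
    unfold desc at hj
    rw [Fintype.mem_piFinset] at hj
    unfold bx
    rw [Fintype.mem_piFinset]
    intro i
    have h2 := mem_Ico.mp (hj i)
    simp only [zero_mul, zero_add] at h2
    rw [mem_Icc]
    constructor <;> dsimp only <;> omega
  · intro h hh
    unfold bx at hh
    rw [Fintype.mem_piFinset] at hh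
    unfold desc
    rw [Fintype.mem_piFinset]
    intro i
    have h2 := mem_Icc.mp (hh i)
    dsimp only at h2
    rw [mem_Ico]
    simp only [zero_mul, zero_add]
    constructor <;> omega
  · intro j hj
    funext i
    simp
  · intro h hh
    unfold bx at hh
    rw [Fintype.mem_piFinset] at hh
    funext i
    have h2 := mem_Icc.mp (hh i)
    dsimp only at h2 ⊢
    omega
  · intro j hj
    exact hg j

theorem FF_code (d k : ℕ) (c : Fin d → ℕ) :
    FF d k c = ∑ m ∈ range ((2 * 2 ^ s d k + 1) ^ d),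
      fc2 d k c (child (2 * 2 ^ s d k + 1) (fun _ => 0) m) := by
  rw [sum_child d (2 * 2 ^ s d k + 1) (by omega) (fun _ => 0) (fc2 d k c)]
  unfold FF HH
  rw [sum_filter]
  symm
  apply Code_bij
  intro j
  exact (Code_term d k c j).symm

end Pool.Agent.Kro
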