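import Pool.Agent.Kro.Step

/-! Module Corner: the cubes of the algorithm are good. Induction with `exists_good`, `good_next`; the hypothesis for `k = 1` is `avg_FF`
(`s 1 - s (1-2) = s 1 - s 0`, `nn d 1 = 2^(s 1 - s 0)`). `sInf` of a nonempty set of naturals belongs to it (`Nat.sInf_mem`). -/

namespace Pool.Agent.Kro

open Finset

theorem corner_mem (d k : ℕ) : corner d (k + 1) ∈ desc (nn d (k + 1)) (corner d k) :=
  child_mem d (nn d (k + 1)) (nn_pos d (k + 1)) (corner d k) _

theorem Corner_of_ex (d k : ℕ)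
    (h : ∃ m < nn d (k + 1) ^ d, Good d (k + 1) (child (nn d (k + 1)) (corner d k) m)) :
    Good d (k + 1) (corner d (k + 1)) := by
  obtain ⟨m, hm, hg⟩ := h
  have h1 := Nat.sInf_mem
    (s := {m | m < nn d (k + 1) ^ d ∧ Good d (k + 1) (child (nn d (k + 1)) (corner d k) m)})
    ⟨m, hm, hg⟩
  exact h1.2

/-- the set in the definition of `corner` is nonempty -/
theorem corner_ex (d k : ℕ) (hd : 1 ≤ d) :
    ∃ m < nn d (k + 1) ^ d, Good d (k + 1) (child (nn d (k + 1)) (corner d k) m) := by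
  induction k with
  | zero =>
    apply exists_good d 1 hd le_rfl
    have h1 : ∑ c' ∈ desc (nn d 1) (corner d 0), FF d 1 c' ≤ A d 1 * nn d 1 ^ d :=
      avg_FF d 1 hd le_rfl (corner d 0)
    have h2 : A d 1 * nn d 1 ^ d ≤ 2 * A d 1 * nn d 1 ^ d := by
      apply Nat.mul_le_mul_right
      omega
    exact h1.trans h2
  | succ k ih =>
    have h1 := Corner_of_ex d k ih
    exact exists_good d (k + 2) hd (by omega) (corner d (k + 1)) (good_next d (k + 1) _ h1)

theorem corner_good (d k : ℕ) (hd : 1 ≤ d) : Good d (k + 1) (corner d (k + 1)) :=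
  Corner_of_ex d k (corner_ex d k hd)

theorem FF_corner (d k : ℕ) (hd : 1 ≤ d) (hk : 1 ≤ k) : FF d k (corner d k) ≤ 4 * A d k := by
  obtain ⟨j, rfl⟩ : ∃ j, k = j + 1 := ⟨k - 1, by omega⟩
  exact good_FF d (j + 1) _ (corner_good d j hd)

end Pool.Agent.Kro
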