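import Pool.Agent.Kro.Di

/-! Module Cube: count of corners in a cube. Fix the coordinates `≠ i0` of `c'`; then `c'_{i0} = c_{i0} n + j`, `0 ≤ j < n`,
and `ipz h c' = a + h_{i0} j`: apply `cnt1` (`L = n`), there are `n^(d-1)` choices of the other coordinates. -/

namespace Pool.Agent.Kro

open Finset

theorem Cube_ipz (d : ℕ) (h : Fin d → ℤ) (c' : Fin d → ℕ) (i0 : Fin d) (m : ℕ) :
    ipz h c' = ipz h (Function.update c' i0 m) + h i0 * ((c' i0 : ℤ) - m) := by
  unfold ipz
  rw [← add_sum_erase univ _ (mem_univ i0),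
    ← add_sum_erase univ (fun i => h i * ((Function.update c' i0 m i : ℕ) : ℤ)) (mem_univ i0)]
  have h1 : ∑ x ∈ univ.erase i0, h x * ((Function.update c' i0 m x : ℕ) : ℤ)
      = ∑ x ∈ univ.erase i0, h x * (c' x : ℤ) := by
    apply sum_congr rfl
    intro x hx
    rw [Function.update_of_ne (ne_of_mem_erase hx)]
  rw [h1, Function.update_self]
  ring

theorem cnt_cube (d S n w : ℕ) (h : Fin d → ℤ) (c : Fin d → ℕ) (i0 : Fin d)
    (h1 : (h i0).natAbs ≤ w) (h2 : 2 ^ S ≤ (h i0).natAbs * n) :
    2 ^ S * ((desc n c).filter fun c' => di S (ipz h c') ≤ w).card ≤ 9 * w * n ^ d := by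
  classical
  set F := (desc n c).filter fun c' => di S (ipz h c') ≤ w with hF
  let f : (Fin d → ℕ) → (Fin d → ℕ) := fun c' => Function.update c' i0 (c i0 * n)
  let t : Finset (Fin d → ℕ) := Fintype.piFinset fun i => if i = i0 then {c i0 * n} else Ico (c i * n) (c i * n + n)
  have hd : d ≠ 0 := by
    rintro rfl
    exact i0.elim0
  have hmaps : ∀ c' ∈ F, f c' ∈ t := by
    intro c' hc'
    have h3 := (mem_filter.mp hc').1
    unfold desc at h3
    rw [Fintype.mem_piFinset] at h3
    rw [Fintype.mem_piFinset]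
    intro i
    by_cases hi : i = i0
    · subst hi
      simp [f]
    · simp only [hi, if_false, f]
      rw [Function.update_of_ne hi]
      exact h3 i
  have hcard : t.card * n = n ^ d := by
    have h4 : t.card = n ^ (d - 1) := by
      rw [Fintype.card_piFinset, ← mul_prod_erase univ _ (mem_univ i0)]
      have h5 : ∏ x ∈ univ.erase i0, (if x = i0 then ({c i0 * n} : Finset ℕ) else Ico (c x * n) (c x * n + n)).card
          = ∏ _x ∈ univ.erase i0, n := by
        apply prod_congr rfl
        intro x hx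
        rw [if_neg (ne_of_mem_erase hx), Nat.card_Ico]
        omega
      rw [h5, prod_const, card_erase_of_mem (mem_univ i0), card_univ, Fintype.card_fin]
      simp
    rw [h4]
    exact pow_sub_one_mul hd n
  have hfib : ∀ b ∈ t, 2 ^ S * (F.filter fun c' => f c' = b).card ≤ 9 * n * w := by
    intro b _
    refine le_trans ?_ (cnt1 S n w (ipz h b) (h i0) h1 h2)
    apply Nat.mul_le_mul le_rfl
    apply card_le_card_of_injOn (fun c' => c' i0 - c i0 * n)
    · intro c' hc'
      rw [mem_coe, mem_filter] at hc'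
      obtain ⟨hc1, hc2⟩ := hc'
      obtain ⟨hc3, hc4⟩ := mem_filter.mp hc1
      unfold desc at hc3
      rw [Fintype.mem_piFinset] at hc3
      have h6 := mem_Ico.mp (hc3 i0)
      rw [mem_coe, mem_filter, mem_range]
      beta_reduce
      refine ⟨by omega, ?_⟩
      rw [Cube_ipz d h c' i0 (c i0 * n)] at hc4
      have h7 : (((c' i0 - c i0 * n : ℕ)) : ℤ) = (c' i0 : ℤ) - ((c i0 * n : ℕ) : ℤ) := Nat.cast_sub h6.1
      have h8 : Function.update c' i0 (c i0 * n) = b := hc2
      rw [h8] at hc4
      rw [h7]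
      exact hc4
    · intro c1 hc1 c2 hc2 h12
      rw [mem_coe, mem_filter] at hc1 hc2
      have e1 := (mem_filter.mp hc1.1).1
      have e2 := (mem_filter.mp hc2.1).1
      unfold desc at e1 e2
      rw [Fintype.mem_piFinset] at e1 e2
      have e3 := mem_Ico.mp (e1 i0)
      have e4 := mem_Ico.mp (e2 i0)
      beta_reduce at h12
      have e5 : c1 i0 = c2 i0 := by omega
      have e6 : f c1 = f c2 := by rw [hc1.2, hc2.2]
      funext i
      by_cases hi : i = i0
      · subst hi; exact e5
      · have := congrFun e6 i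
        simp only [f] at this
        rwa [Function.update_of_ne hi, Function.update_of_ne hi] at this
  rw [card_eq_sum_card_fiberwise (f := f) (t := t) hmaps, mul_sum]
  calc ∑ b ∈ t, 2 ^ S * (F.filter fun c' => f c' = b).card ≤ ∑ _b ∈ t, 9 * n * w := sum_le_sum hfib
    _ = 9 * w * (t.card * n) := by rw [sum_const, smul_eq_mul]; ring
    _ = 9 * w * n ^ d := by rw [hcard]

end Pool.Agent.Kro
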