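import Pool.Agent.Kro.Saw

/-! Module Dec1: the one-dimensional decomposition.
For every `m` choose `V_m` (`H = 2^m`) from `exists_saw` and `Φ_m` from `exists_maj`; `V_0 = 0` (`v a = 0` for `|a| ≥ 1`).
`ρ(x) = fract x - 1/2`. (1) `|ρ - V_m| ≤ min(1/2, 1/(32 (H u)³))`, `u = dz x`, and `Φ_m ≥ (H u + 1/2)⁻²`:
if `H u ≤ 1/2` then `Φ ≥ 1 ≥ 1/2`; otherwise `1/(32 (Hu)³) ≤ 1/(16 (Hu)²) ≤ Φ` as `(H u + 1/2)⁻² ≥ (2Hu)⁻²`.
So `|ρ - V_m| ≤ Φ_m`. (2) `|ρ - V_{m-1}| ≤ min(1/2, 8/(32 (Hu)³)) ≤ 2 Φ_m` in the same way. So `|V_m - V_{m-1}| ≤ 3 Φ_m`.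
(3) for `0 ≤ a ≤ b ≤ 1` and all `x`: `ind a b x = (b - a) + ρ(x - b) - ρ(x - a)`.
`D_0 = b - a` (constant: `cD 0 0 = b - a`, the others 0), `D_j(x) = (V_j - V_{j-1})(x - b) - (V_j - V_{j-1})(x - a)` (`j ≥ 1`),
`cD j h = (v_j(h) - v_{j-1}(h)) (e(-hb) - e(-ha))`, `‖cD j h‖ ≤ 2 (1/(4·2^j) + 2/(4·2^j))`; `Ψ_j(x) = 4 (Φ_j(x - a) + Φ_j(x - b))`,
coefficients `≤ 4 · 2 · 20/2^j`. `f - ∑_{j ≤ m} D_j = (ρ - V_m)(x - b) - (ρ - V_m)(x - a)`. `Ψ_0 ≥ 4 · (dz + 1/2)⁻² ≥ 4`. -/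

namespace Pool.Agent.Kro

open Finset

theorem Dec1_ind (a b x : ℝ) (ha : 0 ≤ a) (hab : a ≤ b) (hb : b ≤ 1) :
    ind a b x = (b - a) + (Int.fract (x - b) - 1 / 2) - (Int.fract (x - a) - 1 / 2) := by
  have hf0 := Int.fract_nonneg x
  have hf1 := Int.fract_lt_one x
  have key : ∀ t : ℝ, 0 ≤ t → t ≤ 1 →
      Int.fract (x - t) = Int.fract x - t + (if Int.fract x < t then 1 else 0) := by
    intro t ht0 ht1
    rw [Int.fract_eq_iff]
    split_ifs with h
    · refine ⟨by linarith, by linarith, ⌊x⌋ - 1, ?_⟩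
      have := Int.floor_add_fract x
      push_cast
      linarith
    · refine ⟨by linarith, by linarith, ⌊x⌋, ?_⟩
      have := Int.floor_add_fract x
      linarith
  rw [key a ha (hab.trans hb), key b (ha.trans hab) hb]
  unfold ind
  split_ifs <;> first | linarith | (exfalso; simp_all; try linarith)

theorem Dec1_w1 (w t P : ℝ) (ht : 0 ≤ t) (hw : w ≤ 1 / 2) (hw3 : w * (32 * t ^ 3) ≤ 1)
    (hP : 1 / (t + 1 / 2) ^ 2 ≤ P) : w ≤ P := by
  refine le_trans ?_ hP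
  rw [le_div_iff₀ (by positivity)]
  rcases le_or_gt t (1 / 2) with h | h
  · nlinarith [sq_nonneg t, mul_nonneg ht ht]
  · by_cases hw0 : w ≤ 0
    · nlinarith [sq_nonneg (t + 1 / 2)]
    · push Not at hw0
      have h1 : (t + 1 / 2) ^ 2 ≤ 4 * t ^ 2 := by nlinarith
      have h2 : w * (4 * t ^ 2) ≤ 1 := by
        have : w * t ^ 2 * (32 * t) ≤ 1 := by nlinarith
        have h4 : 0 ≤ w * t ^ 2 := by positivity
        nlinarith
      nlinarith

theorem Dec1_w2 (w t P : ℝ) (ht : 0 ≤ t) (hw : w ≤ 1 / 2) (hw3 : w * (4 * t ^ 3) ≤ 1)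
    (hP : 1 / (t + 1 / 2) ^ 2 ≤ P) : w ≤ 2 * P := by
  have hP2 : 2 * (1 / (t + 1 / 2) ^ 2) ≤ 2 * P := by linarith
  refine le_trans ?_ hP2
  rw [mul_one_div, le_div_iff₀ (by positivity)]
  rcases le_or_gt t (1 / 2) with h | h
  · nlinarith [sq_nonneg t, mul_nonneg ht ht]
  · by_cases hw0 : w ≤ 0
    · nlinarith [sq_nonneg (t + 1 / 2)]
    · push Not at hw0
      have h1 : (t + 1 / 2) ^ 2 ≤ 4 * t ^ 2 := by nlinarith
      have h2 : w * (4 * t ^ 2) ≤ 2 := by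
        have : w * t ^ 2 * (4 * t) ≤ 1 := by nlinarith
        have h4 : 0 ≤ w * t ^ 2 := by positivity
        nlinarith
      nlinarith

theorem Dec1_ee_sub (h : ℤ) (x t : ℝ) : ee (h * (x - t)) = ee (-(h * t)) * ee (h * x) := by
  rw [← ee_add]; congr 1; ring

theorem Dec1_shift (s : Finset ℤ) (c : ℤ → ℂ) (F : ℝ → ℝ)
    (hF : ∀ x, ((F x : ℝ) : ℂ) = ∑ a ∈ s, c a * ee (a * x)) (t x : ℝ) :
    ((F (x - t) : ℝ) : ℂ) = ∑ a ∈ s, c a * ee (-(a * t)) * ee (a * x) := by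
  rw [hF]
  refine sum_congr rfl fun a _ => ?_
  rw [Dec1_ee_sub]; ring

theorem Dec1_ext (s s' : Finset ℤ) (hs : s ⊆ s') (c : ℤ → ℂ) (hc : ∀ a, a ∉ s → c a = 0) (x : ℝ) :
    ∑ a ∈ s, c a * ee (a * x) = ∑ a ∈ s', c a * ee (a * x) := by
  refine sum_subset hs fun a _ ha => ?_
  rw [hc a ha, zero_mul]

theorem exists_dec (a b : ℝ) (ha : 0 ≤ a) (hab : a ≤ b) (hb : b ≤ 1) :
    ∃ D Ψ cD cΨ, Dec (ind a b) (b - a) 160 D Ψ cD cΨ := by
  have hone : ∀ m : ℕ, 1 ≤ 2 ^ m := fun m => Nat.one_le_two_pow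
  choose v V hV hv0 hvz hvn hVh hV3 using fun m : ℕ => exists_saw (2 ^ m) (hone m)
  choose c Φ hΦ hcn hΦl using fun m : ℕ => exists_maj (2 ^ m) (hone m)
  have e1 : ∀ m : ℕ, (2 * ((2 ^ m : ℕ) : ℤ)) = 2 ^ (m + 1) := by
    intro m; push_cast; ring
  have hΦ0 : ∀ m x, 0 ≤ Φ m x := fun m x => le_trans (by positivity) (hΦl m x)
  have hpow : ∀ m : ℕ, (1 : ℝ) ≤ 2 ^ m := fun m => one_le_pow₀ (by norm_num)
  -- bounds
  have b1 : ∀ m y, |Int.fract y - 1 / 2 - V m y| ≤ Φ m y := by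
    intro m y
    refine Dec1_w1 _ (((2 ^ m : ℕ) : ℝ) * dz y) _ (mul_nonneg (by positivity) (dz_nonneg y)) (hVh m y) ?_ (hΦl m y)
    have := hV3 m y
    calc _ = |Int.fract y - 1 / 2 - V m y| * (32 * ((2 ^ m : ℕ) : ℝ) ^ 3 * dz y ^ 3) := by ring
      _ ≤ 1 := this
  have b2 : ∀ m y, |Int.fract y - 1 / 2 - V m y| ≤ 2 * Φ (m + 1) y := by
    intro m y
    refine Dec1_w2 _ (((2 ^ (m + 1) : ℕ) : ℝ) * dz y) _ (mul_nonneg (by positivity) (dz_nonneg y)) (hVh m y) ?_ (hΦl (m + 1) y)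
    have := hV3 m y
    calc _ = |Int.fract y - 1 / 2 - V m y| * (32 * ((2 ^ m : ℕ) : ℝ) ^ 3 * dz y ^ 3) := by
          push_cast; ring
      _ ≤ 1 := this
  have b3 : ∀ m y, |V (m + 1) y - V m y| ≤ 3 * Φ (m + 1) y := by
    intro m y
    have h1 := b1 (m + 1) y
    have h2 := b2 m y
    rw [abs_le] at h1 h2 ⊢
    constructor <;> linarith [h1.1, h1.2, h2.1, h2.2]
  have hvz0 : ∀ x, V 0 x = 0 := by
    intro x
    have h := hV 0 x
    have h2 : (∑ a ∈ Icc (-(2 * ((2 ^ 0 : ℕ) : ℤ))) (2 * ((2 ^ 0 : ℕ) : ℤ)), v 0 a * ee (a * x)) = 0 := by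
      refine sum_eq_zero fun a _ => ?_
      by_cases h0 : a = 0
      · rw [h0, hv0 0, zero_mul]
      · rw [hvz 0 a ?_, zero_mul]
        have := Int.one_le_abs h0
        simpa using this
    rw [h2] at h
    exact_mod_cast h
  -- extended Fourier expansions
  have hVe : ∀ m n : ℕ, m ≤ n → ∀ x, ((V m x : ℝ) : ℂ)
      = ∑ h ∈ Icc (-(2 ^ (n + 1) : ℤ)) (2 ^ (n + 1)), v m h * ee (h * x) := by
    intro m n hmn x
    rw [hV m x, e1 m]
    have hle : (2 : ℤ) ^ (m + 1) ≤ 2 ^ (n + 1) := pow_le_pow_right₀ (by norm_num) (by omega)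
    refine Dec1_ext _ _ (Icc_subset_Icc (by linarith) hle) _ (fun a ha => hvz m a ?_) x
    rw [mem_Icc, not_and_or] at ha
    rw [e1 m]
    rcases ha with ha | ha
    · have := neg_le_abs a; omega
    · have := le_abs_self a; omega
  have hvd : ∀ m h, ‖v (m + 1) h - v m h‖ ≤ 3 / (4 * 2 ^ (m + 1)) := by
    intro m h
    by_cases h0 : h = 0
    · rw [h0, hv0, hv0, sub_zero, norm_zero]; positivity
    · have h1 := hvn (m + 1) h h0
      have h2 := hvn m h h0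
      have h3 : v (m + 1) h - v m h = (v (m + 1) h + 1 / (2 * Real.pi * Complex.I * h))
          - (v m h + 1 / (2 * Real.pi * Complex.I * h)) := by ring
      rw [h3]
      refine (norm_sub_le _ _).trans ?_
      have h4 : (3 : ℝ) / (4 * 2 ^ (m + 1)) = 1 / (4 * ((2 ^ (m + 1) : ℕ) : ℝ)) + 1 / (4 * ((2 ^ m : ℕ) : ℝ)) := by
        push_cast
        have : (2 : ℝ) ^ m ≠ 0 := by positivity
        field_simp
        ring
      rw [h4]
      exact add_le_add h1 h2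
  have hee2 : ∀ (h : ℤ) (s t : ℝ), ‖ee (-(h * s)) - ee (-(h * t))‖ ≤ 2 := by
    intro h s t
    refine (norm_sub_le _ _).trans ?_
    rw [norm_ee, norm_ee]; norm_num
  have hee3 : ∀ (h : ℤ) (s t : ℝ), ‖ee (-(h * s)) + ee (-(h * t))‖ ≤ 2 := by
    intro h s t
    refine (norm_add_le _ _).trans ?_
    rw [norm_ee, norm_ee]; norm_num
  have hle0 : ∀ x, 1 ≤ 4 * (Φ 0 (x - a) + Φ 0 (x - b)) := by
    intro x
    have h1 : 1 ≤ Φ 0 (x - a) := by
      refine le_trans ?_ (hΦl 0 (x - a))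
      rw [le_div_iff₀ (by have := dz_nonneg (x - a); positivity)]
      have h1 := dz_nonneg (x - a)
      have h2 := dz_le_half (x - a)
      have h3 : (((2 ^ 0 : ℕ) : ℝ) * dz (x - a) + 1 / 2) = dz (x - a) + 1 / 2 := by norm_num
      rw [h3]
      nlinarith
    have h2 := hΦ0 0 (x - b)
    linarith
  refine ⟨fun j x => if j = 0 then b - a else
      (V j (x - b) - V (j - 1) (x - b)) - (V j (x - a) - V (j - 1) (x - a)),
    fun j x => 4 * (Φ j (x - a) + Φ j (x - b)),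
    fun j h => if j = 0 then (if h = 0 then ((b - a : ℝ) : ℂ) else 0) else
      (v j h - v (j - 1) h) * (ee (-(h * b)) - ee (-(h * a))),
    fun j h => if h ∈ Icc (-(2 ^ j : ℤ)) (2 ^ j) then 4 * c j h * (ee (-(h * a)) + ee (-(h * b))) else 0,
    ?_⟩
  constructor
  · -- fD
    intro j x
    rcases Nat.eq_zero_or_pos j with rfl | hj
    · simp only [if_true]
      rw [sum_eq_single 0]
      · simp [ee_zero]
      · intro h _ h0
        simp [h0]
      · intro h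
        exfalso; apply h; simp
    · obtain ⟨j, rfl⟩ : ∃ i, j = i + 1 := ⟨j - 1, by omega⟩
      simp only [Nat.add_eq_zero_iff, one_ne_zero, and_false, if_false, Nat.add_sub_cancel]
      push_cast
      rw [Dec1_shift _ _ _ (hVe (j + 1) (j + 1) le_rfl) b x, Dec1_shift _ _ _ (hVe j (j + 1) (by omega)) b x,
        Dec1_shift _ _ _ (hVe (j + 1) (j + 1) le_rfl) a x, Dec1_shift _ _ _ (hVe j (j + 1) (by omega)) a x,
        ← sum_sub_distrib, ← sum_sub_distrib, ← sum_sub_distrib]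
      refine sum_congr rfl fun h _ => ?_
      ring
  · -- fΨ
    intro j x
    have hsub : Icc (-(2 ^ j : ℤ)) (2 ^ j) ⊆ Icc (-(2 ^ (j + 1) : ℤ)) (2 ^ (j + 1)) := by
      have hle : (2 : ℤ) ^ j ≤ 2 ^ (j + 1) := pow_le_pow_right₀ (by norm_num) (by omega)
      exact Icc_subset_Icc (by linarith) hle
    rw [← Dec1_ext _ _ hsub _ (fun h hh => if_neg hh) x]
    have hcast : ((2 ^ j : ℕ) : ℤ) = 2 ^ j := by push_cast; rfl
    have hΦ' : ∀ x, ((Φ j x : ℝ) : ℂ) = ∑ a ∈ Icc (-(2 ^ j : ℤ)) (2 ^ j), c j a * ee (a * x) := by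
      intro x
      rw [hΦ j x, hcast]
    push_cast
    rw [Dec1_shift _ _ _ hΦ' a x, Dec1_shift _ _ _ hΦ' b x, ← sum_add_distrib, mul_sum]
    refine sum_congr rfl fun h hh => ?_
    rw [if_pos hh]
    ring
  · -- bD
    intro j h
    rcases Nat.eq_zero_or_pos j with rfl | hj
    · simp only [if_true]
      split_ifs
      · rw [Complex.norm_real, Real.norm_eq_abs, abs_of_nonneg (by linarith)]
        norm_num; linarith
      · simp
    · obtain ⟨j, rfl⟩ : ∃ i, j = i + 1 := ⟨j - 1, by omega⟩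
      simp only [Nat.add_eq_zero_iff, one_ne_zero, and_false, if_false, Nat.add_sub_cancel]
      rw [norm_mul]
      have h1 := hvd j h
      have h2 := hee2 h b a
      calc _ ≤ 3 / (4 * 2 ^ (j + 1)) * 2 := mul_le_mul h1 h2 (norm_nonneg _) (by positivity)
        _ = (3 / 2) / 2 ^ (j + 1) := by
          have : (2 : ℝ) ^ (j + 1) ≠ 0 := by positivity
          field_simp
          norm_num
        _ ≤ 160 / 2 ^ (j + 1) := by gcongr; norm_num
  · -- bΨ
    intro j h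
    split_ifs
    · rw [norm_mul, norm_mul]
      have h1 := hcn j h
      have h2 := hee3 h a b
      have h3 : ‖(4 : ℂ)‖ = 4 := by simp
      rw [h3]
      calc 4 * ‖c j h‖ * ‖ee (-(h * a)) + ee (-(h * b))‖ ≤ 4 * (20 / ((2 ^ j : ℕ) : ℝ)) * 2 := by
            gcongr
        _ = 160 / 2 ^ j := by push_cast; ring
    · rw [norm_zero]; positivity
  · simp
  · intro h hh
    simp [hh]
  · intro j hj
    simp only [hj, if_false]
    obtain ⟨i, rfl⟩ : ∃ i, j = i + 1 := ⟨j - 1, by omega⟩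
    rw [hv0, hv0]; simp
  · -- le1
    intro j x
    rcases Nat.eq_zero_or_pos j with rfl | hj
    · simp only [if_true]
      rw [abs_of_nonneg (by linarith)]
      linarith [hle0 x]
    · obtain ⟨j, rfl⟩ : ∃ i, j = i + 1 := ⟨j - 1, by omega⟩
      simp only [Nat.add_eq_zero_iff, one_ne_zero, and_false, if_false, Nat.add_sub_cancel]
      have h1 := b3 j (x - b)
      have h2 := b3 j (x - a)
      have h3 := hΦ0 (j + 1) (x - a)
      have h4 := hΦ0 (j + 1) (x - b)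
      rw [abs_le] at h1 h2 ⊢
      constructor <;> linarith [h1.1, h1.2, h2.1, h2.2]
  · -- le2
    intro m x
    have hs : ∀ m : ℕ, ∑ j ∈ range (m + 1), (if j = 0 then b - a else
        (V j (x - b) - V (j - 1) (x - b)) - (V j (x - a) - V (j - 1) (x - a)))
        = (b - a) + V m (x - b) - V m (x - a) := by
      intro m
      induction m with
      | zero => simp [hvz0]
      | succ m ih =>
        rw [sum_range_succ, ih]
        simp only [Nat.add_eq_zero_iff, one_ne_zero, and_false, if_false, Nat.add_sub_cancel]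
        ring
    rw [hs m, Dec1_ind a b x ha hab hb]
    have h1 := b1 m (x - b)
    have h2 := b1 m (x - a)
    have h3 := hΦ0 m (x - a)
    have h4 := hΦ0 m (x - b)
    rw [abs_le] at h1 h2 ⊢
    constructor <;> linarith [h1.1, h1.2, h2.1, h2.2]
  · intro x
    exact hle0 x
  · intro x
    unfold ind
    split_ifs <;> simp

end Pool.Agent.Kro
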