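import Mathlib

/-!
# KRO: explicit Kronecker sequences of small discrepancy (MP_3fdbfc_nt)

Basic definitions.
-/

namespace Pool.Agent.Kro

open Finset

/-- distance to the nearest integer -/
noncomputable def dz (x : ℝ) : ℝ := |x - round x|

/-- `e(x) = exp(2 π i x)` -/
noncomputable def ee (x : ℝ) : ℂ := Complex.exp (2 * Real.pi * x * Complex.I)

/-- `h · α` -/
noncomputable def ip {d : ℕ} (h : Fin d → ℤ) (α : Fin d → ℝ) : ℝ := ∑ i, (h i : ℝ) * α i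

/-- `r(h) = ∏ max(1, |h_i|)` -/
def rr {d : ℕ} (h : Fin d → ℤ) : ℕ := ∏ i, max 1 (h i).natAbs

/-- `M(h) = max |h_i|` -/
def mx {d : ℕ} (h : Fin d → ℤ) : ℕ := univ.sup fun i => (h i).natAbs

/-- `x_h = r(h) ‖h · α‖` -/
noncomputable def xx {d : ℕ} (α : Fin d → ℝ) (h : Fin d → ℤ) : ℝ := rr h * dz (ip h α)

/-- the integer vectors with `|h_i| ≤ X_i` -/
noncomputable def bx {d : ℕ} (X : Fin d → ℕ) : Finset (Fin d → ℤ) :=
  Fintype.piFinset fun i => Icc (-(X i : ℤ)) (X i)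

/-- the indicator function of `[a, b)` modulo 1 -/
noncomputable def ind (a b x : ℝ) : ℝ := if a ≤ Int.fract x ∧ Int.fract x < b then 1 else 0

/-- `min(1/t, 1/(2^m t^2))` -/
noncomputable def gm (m : ℕ) (t : ℝ) : ℝ := if 2 ^ m * t ≤ 1 then 1 / t else 1 / (2 ^ m * t ^ 2)

/-- block average: the average over the shifts `u < 2^m` of the sum of `P` over `[u, u + N)` -/
noncomputable def Bm (m N : ℕ) (P : ℕ → ℂ) : ℂ :=
  (1 / 2 ^ m : ℂ) * ∑ u ∈ range (2 ^ m), ∑ n ∈ range N, P (n + u)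

/-- a decomposition of `f : ℝ → ℝ` (mean value `μ`) into trigonometric polynomials:
`f = ∑_j D_j`, `D_j` of degree `≤ 2^(j+1)`, with majorants `Ψ_j`. -/
structure Dec (f : ℝ → ℝ) (μ C : ℝ) (D Ψ : ℕ → ℝ → ℝ) (cD cΨ : ℕ → ℤ → ℂ) : Prop where
  fD : ∀ j x, ((D j x : ℝ) : ℂ) = ∑ h ∈ Icc (-(2 ^ (j + 1) : ℤ)) (2 ^ (j + 1)), cD j h * ee (h * x)
  fΨ : ∀ j x, ((Ψ j x : ℝ) : ℂ) = ∑ h ∈ Icc (-(2 ^ (j + 1) : ℤ)) (2 ^ (j + 1)), cΨ j h * ee (h * x)
  bD : ∀ j h, ‖cD j h‖ ≤ C / 2 ^ j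
  bΨ : ∀ j h, ‖cΨ j h‖ ≤ C / 2 ^ j
  zμ : cD 0 0 = μ
  z0 : ∀ h, h ≠ 0 → cD 0 h = 0
  zj : ∀ j, j ≠ 0 → cD j 0 = 0
  le1 : ∀ j x, |D j x| ≤ Ψ j x
  le2 : ∀ m x, |f x - ∑ j ∈ range (m + 1), D j x| ≤ Ψ m x
  le0 : ∀ x, 1 ≤ Ψ 0 x
  f1 : ∀ x, |f x| ≤ 1

/-! ## Parameters of the construction -/

/-- levels: `s_0 = 0`, `s_k = 2^(10(d+1) + (d+1)(k-1))` for `k ≥ 1` -/
def s (d k : ℕ) : ℕ := if k = 0 then 0 else 2 ^ (10 * (d + 1) + (d + 1) * (k - 1))

/-- number of layers -/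
def E (d k : ℕ) : ℕ := 10 * (d + 1) ^ 2 + (d + 1) * (d + 2) * k

/-- bound for the average of `F_k` -/
def A (d k : ℕ) : ℕ := 9 * 4 ^ (d + 1) * (E d k + 1) * (2 * s d k + 3) ^ d

/-- the corners at level `S` of the subcubes of the cube of corner `c`, `n = 2^(S-u)`, `c` of level `u` -/
def desc {d : ℕ} (n : ℕ) (c : Fin d → ℕ) : Finset (Fin d → ℕ) :=
  Fintype.piFinset fun i => Ico (c i * n) (c i * n + n)

/-- distance of `z` to the multiples of `2^S` -/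
def di (S : ℕ) (z : ℤ) : ℕ := min (z % 2 ^ S).toNat (2 ^ S - (z % 2 ^ S).toNat)

/-- `h · c` for integer vectors -/
def ipz {d : ℕ} (h : Fin d → ℤ) (c : Fin d → ℕ) : ℤ := ∑ i, h i * c i

/-- truncated version of `1/x_h` at the corner `c / 2^(s k)` -/
def ff (d k : ℕ) (h : Fin d → ℤ) (c : Fin d → ℕ) : ℕ :=
  ∑ e ∈ range (E d k + 1),
    if 2 ^ e * rr h * di (s d k) (ipz h c) ≤ 4 ^ (d + 1) * 2 ^ (s d k) then 2 ^ e else 0

/-- the `k`-th window of frequencies -/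
noncomputable def HH (d k : ℕ) : Finset (Fin d → ℤ) :=
  (bx fun _ => 2 ^ (s d k)).filter fun h =>
    rr h * mx h * 2 ^ (E d k + d) ≤ 2 ^ (s d k) ∧
    2 ^ (s d (k - 1)) < rr h * mx h * 2 ^ (E d (k - 1) + d)

/-- the potential of the corner `c` of level `s k` -/
noncomputable def FF (d k : ℕ) (c : Fin d → ℕ) : ℕ := ∑ h ∈ HH d k, ff d k h c

/-- number of subintervals at step `k` -/
def nn (d k : ℕ) : ℕ := 2 ^ (s d k - s d (k - 1))

/-- sum of the potentials of level `k + 1` over the subcubes of the cube `c` of level `s k` -/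
noncomputable def GG (d k : ℕ) (c : Fin d → ℕ) : ℕ := ∑ c' ∈ desc (nn d (k + 1)) c, FF d (k + 1) c'

/-- the cube `c` of level `s k` is good at step `k` -/
def Good (d k : ℕ) (c : Fin d → ℕ) : Prop :=
  FF d k c * (A d (k + 1) * nn d (k + 1) ^ d) + 2 * A d k * GG d k c
    ≤ 4 * A d k * A d (k + 1) * nn d (k + 1) ^ d

/-- the `m`-th subcube in the subdivision of the cube `c` into `n ^ d` cubes (digits of `m` in base `n`) -/
def child {d : ℕ} (n : ℕ) (c : Fin d → ℕ) (m : ℕ) : Fin d → ℕ :=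
  fun i => c i * n + m / n ^ (i : ℕ) % n

/-- THE ALGORITHM: `corner k` is the corner (level `s k`) of the `k`-th cube. At step `k + 1` take
the first subcube which is good. -/
noncomputable def corner (d : ℕ) : ℕ → Fin d → ℕ
  | 0 => fun _ => 0
  | k + 1 => child (nn d (k + 1)) (corner d k)
      (sInf {m | m < nn d (k + 1) ^ d ∧ Good d (k + 1) (child (nn d (k + 1)) (corner d k) m)})

/-- the `n`-th binary digit (weight `2^(-n-1)`) of the `i`-th coordinate -/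
noncomputable def digit (d : ℕ) (i : Fin d) (n : ℕ) : ℕ :=
  corner d (n + 1) i / 2 ^ (s d (n + 1) - (n + 1)) % 2

/-- the vector -/
noncomputable def alpha (d : ℕ) (i : Fin d) : ℝ := ∑' n : ℕ, (digit d i n : ℝ) / 2 ^ (n + 1)

end Pool.Agent.Kro
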