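import Pool.Agent.Kro.Trig

/-! Module Pig: pigeonhole.
`pig`: put `y_h = ip h α - round (ip h α) ∈ [-tδ, tδ]`, cell of `h` = `⌊(y_h + tδ)/δ⌋ ∈ {0, ..., 2t}`. In each nonempty cell fix `h⁰`;
`h ↦ h - h⁰` is injective into `{h ∈ bx (2X), dz ≤ δ}` (`dz (ip (h - h⁰) α) ≤ |y_h - y_{h⁰}| ≤ δ`).
`far_sum`: the terms with `2^m dz ≤ 1` (`gm = 1/dz`) are in the sum on the right (`X ≤ 2X`). For the others choose `i` with
`2^i < 2^m dz ≤ 2^(i+1)` (`i < m`): the term is `1/(2^m dz)² ≤ 4^{-i}`, and there are at most `#{dz ≤ 2^(i+1) δ} ≤ (2^(i+2) + 1) N₁` of them,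
`δ = 2^{-m}`, `N₁ = #{h ∈ bx (2X) : dz ≤ 2^{-m}} ≤ 1 + ∑_{h ≠ 0} 1/(2^m dz)`; `∑_i 4^{-i} (2^(i+2) + 1) ≤ 10`. -/

namespace Pool.Agent.Kro

open Finset

private theorem Pig_ip_sub {d : ℕ} (h k : Fin d → ℤ) (α : Fin d → ℝ) :
    ip (h - k) α = ip h α - ip k α := by
  unfold ip
  rw [← Finset.sum_sub_distrib]
  refine Finset.sum_congr rfl fun i _ => ?_
  simp only [Pi.sub_apply]
  push_cast
  ring

open Classical in
theorem pig (d : ℕ) (α : Fin d → ℝ) (X : Fin d → ℕ) (δ : ℝ) (hδ : 0 < δ) (t : ℕ) :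
    ((bx X).filter fun h => dz (ip h α) ≤ t * δ).card
      ≤ (2 * t + 1) * ((bx fun i => 2 * X i).filter fun h => dz (ip h α) ≤ δ).card := by
  set T := (bx fun i => 2 * X i).filter fun h => dz (ip h α) ≤ δ with hT
  set S := (bx X).filter fun h => dz (ip h α) ≤ t * δ with hS
  let f : (Fin d → ℤ) → ℤ := fun h => ⌊(ip h α - round (ip h α) + t * δ) / δ⌋
  have h1 : ∀ a ∈ S.image f, (S.filter fun x => f x = a).card ≤ T.card := by
    intro a ha
    obtain ⟨h0, hh0, rfl⟩ := Finset.mem_image.1 ha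
    apply Finset.card_le_card_of_injOn (fun h => h - h0)
    · intro h hh
      have hh' := Finset.mem_filter.1 (Finset.mem_coe.1 hh)
      obtain ⟨hS1, hf⟩ := hh'
      have hb : h ∈ bx X := (Finset.mem_filter.1 hS1).1
      have hb0 : h0 ∈ bx X := (Finset.mem_filter.1 hh0).1
      refine Finset.mem_coe.2 (Finset.mem_filter.2 ⟨?_, ?_⟩)
      · unfold bx at hb hb0 ⊢
        rw [Fintype.mem_piFinset] at hb hb0 ⊢
        intro i
        have e1 := Finset.mem_Icc.1 (hb i)
        have e2 := Finset.mem_Icc.1 (hb0 i)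
        simp only [Pi.sub_apply]
        rw [Finset.mem_Icc]
        push_cast
        constructor <;> linarith [e1.1, e1.2, e2.1, e2.2]
      · show dz (ip (h - h0) α) ≤ δ
        rw [Pig_ip_sub]
        have hk : ip h α - ip h0 α - ((round (ip h α) - round (ip h0 α) : ℤ) : ℝ)
            = (ip h α - round (ip h α) + t * δ) - (ip h0 α - round (ip h0 α) + t * δ) := by
          push_cast; ring
        refine (dz_le_int _ (round (ip h α) - round (ip h0 α))).trans ?_
        rw [hk]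
        have hab : |(ip h α - round (ip h α) + t * δ) / δ
            - (ip h0 α - round (ip h0 α) + t * δ) / δ| < 1 := by
          exact Int.abs_sub_lt_one_of_floor_eq_floor hf
        rw [← sub_div, abs_div, abs_of_pos hδ, div_lt_one hδ] at hab
        exact hab.le
    · intro x _ y _ hxy
      simpa using hxy
  have h2 : S.card ≤ T.card * (S.image f).card := Finset.card_le_mul_card_image S T.card h1
  have h3 : (S.image f) ⊆ Finset.Icc 0 (2 * t : ℤ) := by
    intro a ha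
    obtain ⟨h, hh, rfl⟩ := Finset.mem_image.1 ha
    have hd := (Finset.mem_filter.1 hh).2
    unfold dz at hd
    rw [abs_le] at hd
    rw [Finset.mem_Icc]
    constructor
    · show (0 : ℤ) ≤ ⌊(ip h α - round (ip h α) + t * δ) / δ⌋
      apply Int.floor_nonneg.2
      apply div_nonneg _ hδ.le
      linarith [hd.1]
    · show ⌊(ip h α - round (ip h α) + t * δ) / δ⌋ ≤ (2 * t : ℤ)
      have h5 : (ip h α - round (ip h α) + t * δ) / δ ≤ ((2 * t : ℤ) : ℝ) := by
        rw [div_le_iff₀ hδ]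
        push_cast
        linarith [hd.2]
      exact_mod_cast (Int.floor_le _).trans h5
  have h4 : (S.image f).card ≤ 2 * t + 1 := by
    refine (Finset.card_le_card h3).trans ?_
    rw [Int.card_Icc]
    omega
  calc S.card ≤ T.card * (S.image f).card := h2
    _ ≤ T.card * (2 * t + 1) := Nat.mul_le_mul_left _ h4
    _ = (2 * t + 1) * T.card := Nat.mul_comm _ _

private theorem Pig_geo (m : ℕ) :
    ∑ i ∈ range m, (1 / 4 ^ i : ℝ) * (2 * 2 ^ (i + 1) + 1) ≤ 10 := by
  have h : ∑ i ∈ range m, (1 / 4 ^ i : ℝ) * (2 * 2 ^ (i + 1) + 1)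
      ≤ 8 * (1 - 1 / 2 ^ m) + (4 / 3) * (1 - 1 / 4 ^ m) := by
    induction m with
    | zero => simp
    | succ m ih =>
      rw [Finset.sum_range_succ]
      refine (add_le_add_left ih _).trans (le_of_eq ?_)
      have h4 : (4 : ℝ) ^ m = 2 ^ m * 2 ^ m := by
        rw [← mul_pow]; norm_num
      have h2 : (2 : ℝ) ^ m ≠ 0 := by positivity
      rw [pow_succ (4 : ℝ), pow_succ (2 : ℝ), h4]
      field_simp
      ring
  have a1 : (0 : ℝ) ≤ 1 / 2 ^ m := by positivity
  have a2 : (0 : ℝ) ≤ 1 / 4 ^ m := by positivity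
  linarith

private theorem Pig_pt (m : ℕ) (u : ℝ) (hu : 1 < u) (hm : u ≤ 2 ^ m) :
    1 / u ^ 2 ≤ ∑ i ∈ range m, if u ≤ 2 ^ (i + 1) then (1 / 4 ^ i : ℝ) else 0 := by
  classical
  have hex : ∃ n : ℕ, u ≤ 2 ^ n := ⟨m, hm⟩
  set n := Nat.find hex with hn
  have hn1 : u ≤ 2 ^ n := Nat.find_spec hex
  have hn0 : n ≠ 0 := by
    intro h0
    rw [h0] at hn1
    simp at hn1
    linarith
  obtain ⟨i, hi⟩ := Nat.exists_eq_succ_of_ne_zero hn0
  have hnm : n ≤ m := Nat.find_min' hex hm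
  have hlt : ¬ u ≤ 2 ^ i := Nat.find_min hex (by omega)
  push Not at hlt
  have him : i ∈ range m := by rw [Finset.mem_range]; omega
  have hterm : 1 / u ^ 2 ≤ (if u ≤ 2 ^ (i + 1) then (1 / 4 ^ i : ℝ) else 0) := by
    have : u ≤ 2 ^ (i + 1) := by rw [hi] at hn1; exact hn1
    rw [if_pos this]
    have h4 : (4 : ℝ) ^ i = (2 ^ i) ^ 2 := by
      rw [← pow_mul, mul_comm, pow_mul]; norm_num
    rw [h4]
    apply one_div_le_one_div_of_le (by positivity)
    exact pow_le_pow_left₀ (by positivity) hlt.le 2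
  refine hterm.trans ?_
  refine Finset.single_le_sum (f := fun i => if u ≤ 2 ^ (i + 1) then (1 / 4 ^ i : ℝ) else 0) ?_ him
  intro j _
  split_ifs
  · positivity
  · exact le_rfl

open Classical in
theorem far_sum (d : ℕ) (α : Fin d → ℝ) (hα : ∀ h : Fin d → ℤ, h ≠ 0 → dz (ip h α) ≠ 0)
    (X : Fin d → ℕ) (m : ℕ) :
    ∑ h ∈ (bx X).filter (· ≠ 0), (1 / 2 ^ m) * gm m (dz (ip h α))
      ≤ 11 * (1 + ∑ h ∈ (bx fun i => 2 * X i).filter (fun h => h ≠ 0 ∧ 2 ^ m * dz (ip h α) ≤ 1),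
          1 / (2 ^ m * dz (ip h α))) := by
  set R := ∑ h ∈ (bx fun i => 2 * X i).filter (fun h => h ≠ 0 ∧ 2 ^ m * dz (ip h α) ≤ 1),
          1 / (2 ^ m * dz (ip h α)) with hR
  have hsub : bx X ⊆ bx (fun i => 2 * X i) := by
    intro h hh
    unfold bx at hh ⊢
    rw [Fintype.mem_piFinset] at hh ⊢
    intro i
    have e1 := Finset.mem_Icc.1 (hh i)
    rw [Finset.mem_Icc]
    push_cast
    constructor <;> linarith [e1.1, e1.2, Int.natCast_nonneg (X i)]
  have hpos : ∀ h : Fin d → ℤ, h ≠ 0 → 0 < dz (ip h α) := fun h hh =>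
    lt_of_le_of_ne (dz_nonneg _) (Ne.symm (hα h hh))
  -- split
  rw [← Finset.sum_filter_add_sum_filter_not ((bx X).filter (· ≠ 0)) (fun h => 2 ^ m * dz (ip h α) ≤ 1)]
  have hnear : ∑ h ∈ ((bx X).filter (· ≠ 0)).filter (fun h => 2 ^ m * dz (ip h α) ≤ 1),
      (1 / 2 ^ m) * gm m (dz (ip h α)) ≤ R := by
    have : ∀ h ∈ ((bx X).filter (· ≠ 0)).filter (fun h => 2 ^ m * dz (ip h α) ≤ 1),
        (1 / 2 ^ m) * gm m (dz (ip h α)) = 1 / (2 ^ m * dz (ip h α)) := by
      intro h hh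
      have hh2 := (Finset.mem_filter.1 hh).2
      unfold gm
      rw [if_pos hh2, one_div_mul_one_div]
    rw [Finset.sum_congr rfl this]
    apply Finset.sum_le_sum_of_subset_of_nonneg
    · intro h hh
      obtain ⟨h1, h2⟩ := Finset.mem_filter.1 hh
      obtain ⟨h3, h4⟩ := Finset.mem_filter.1 h1
      exact Finset.mem_filter.2 ⟨hsub h3, h4, h2⟩
    · intro h _ _
      have := dz_nonneg (ip h α)
      positivity
  have hN1 : (((bx fun i => 2 * X i).filter fun h => dz (ip h α) ≤ 1 / 2 ^ m).card : ℝ) ≤ 1 + R := by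
    have hsplit : ((bx fun i => 2 * X i).filter fun h => dz (ip h α) ≤ 1 / 2 ^ m) ⊆
        insert (0 : Fin d → ℤ)
          ((bx fun i => 2 * X i).filter (fun h => h ≠ 0 ∧ 2 ^ m * dz (ip h α) ≤ 1)) := by
      intro h hh
      obtain ⟨h1, h2⟩ := Finset.mem_filter.1 hh
      rw [Finset.mem_insert]
      by_cases h0 : h = 0
      · left; exact h0
      · right
        refine Finset.mem_filter.2 ⟨h1, h0, ?_⟩
        have h2m : (0 : ℝ) < 2 ^ m := by positivity
        calc 2 ^ m * dz (ip h α) ≤ 2 ^ m * (1 / 2 ^ m) := by gcongr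
          _ = 1 := by field_simp
    have hc := (Finset.card_le_card hsplit).trans (Finset.card_insert_le _ _)
    have hc' : (((bx fun i => 2 * X i).filter fun h => dz (ip h α) ≤ 1 / 2 ^ m).card : ℝ) ≤
        (((bx fun i => 2 * X i).filter (fun h => h ≠ 0 ∧ 2 ^ m * dz (ip h α) ≤ 1)).card : ℝ) + 1 := by
      exact_mod_cast hc
    have hcR : (((bx fun i => 2 * X i).filter (fun h => h ≠ 0 ∧ 2 ^ m * dz (ip h α) ≤ 1)).card : ℝ)
        ≤ R := by
      rw [Finset.card_eq_sum_ones, Nat.cast_sum, hR]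
      apply Finset.sum_le_sum
      intro h hh
      obtain ⟨_, h0, h2⟩ := Finset.mem_filter.1 hh
      have := hpos h h0
      have h2m : (0 : ℝ) < 2 ^ m := by positivity
      rw [Nat.cast_one, le_div_iff₀ (by positivity), one_mul]
      exact h2
    linarith
  have hfar : ∑ h ∈ ((bx X).filter (· ≠ 0)).filter (fun h => ¬ 2 ^ m * dz (ip h α) ≤ 1),
      (1 / 2 ^ m) * gm m (dz (ip h α)) ≤ 10 * (1 + R) := by
    set F := ((bx X).filter (· ≠ 0)).filter (fun h => ¬ 2 ^ m * dz (ip h α) ≤ 1) with hF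
    have h2m : (0 : ℝ) < 2 ^ m := by positivity
    have hpt : ∀ h ∈ F, (1 / 2 ^ m) * gm m (dz (ip h α)) ≤
        ∑ i ∈ range m, if 2 ^ m * dz (ip h α) ≤ 2 ^ (i + 1) then (1 / 4 ^ i : ℝ) else 0 := by
      intro h hh
      have hh2 := (Finset.mem_filter.1 hh).2
      have heq : (1 / 2 ^ m) * gm m (dz (ip h α)) = 1 / (2 ^ m * dz (ip h α)) ^ 2 := by
        unfold gm
        rw [if_neg hh2, one_div_mul_one_div]
        ring_nf
      rw [heq]
      push Not at hh2
      apply Pig_pt m _ hh2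
      have := dz_le_half (ip h α)
      nlinarith
    calc ∑ h ∈ F, (1 / 2 ^ m) * gm m (dz (ip h α))
        ≤ ∑ h ∈ F, ∑ i ∈ range m, (if 2 ^ m * dz (ip h α) ≤ 2 ^ (i + 1) then (1 / 4 ^ i : ℝ) else 0) :=
          Finset.sum_le_sum hpt
      _ = ∑ i ∈ range m, ∑ h ∈ F, (if 2 ^ m * dz (ip h α) ≤ 2 ^ (i + 1) then (1 / 4 ^ i : ℝ) else 0) :=
          Finset.sum_comm
      _ ≤ ∑ i ∈ range m, (1 / 4 ^ i : ℝ) * (2 * 2 ^ (i + 1) + 1) * (1 + R) := by
          apply Finset.sum_le_sum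
          intro i _
          rw [← Finset.sum_filter, Finset.sum_const, nsmul_eq_mul, mul_comm, mul_assoc]
          apply mul_le_mul_of_nonneg_left _ (by positivity)
          have hp := pig d α X (1 / 2 ^ m) (by positivity) (2 ^ (i + 1))
          have hsubF : (F.filter fun h => 2 ^ m * dz (ip h α) ≤ 2 ^ (i + 1)) ⊆
              ((bx X).filter fun h => dz (ip h α) ≤ ((2 ^ (i + 1) : ℕ) : ℝ) * (1 / 2 ^ m)) := by
            intro h hh
            obtain ⟨h1, h2⟩ := Finset.mem_filter.1 hh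
            have h3 := (Finset.mem_filter.1 (Finset.mem_filter.1 h1).1).1
            refine Finset.mem_filter.2 ⟨h3, ?_⟩
            push_cast
            rw [mul_one_div, le_div_iff₀ h2m, mul_comm]
            exact h2
          have hc := (Finset.card_le_card hsubF).trans hp
          have hc' : ((F.filter fun h => 2 ^ m * dz (ip h α) ≤ 2 ^ (i + 1)).card : ℝ) ≤
              (2 * 2 ^ (i + 1) + 1) *
              (((bx fun i => 2 * X i).filter fun h => dz (ip h α) ≤ 1 / 2 ^ m).card : ℝ) := by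
            exact_mod_cast hc
          refine hc'.trans ?_
          apply mul_le_mul_of_nonneg_left hN1 (by positivity)
      _ = (∑ i ∈ range m, (1 / 4 ^ i : ℝ) * (2 * 2 ^ (i + 1) + 1)) * (1 + R) := by
          rw [Finset.sum_mul]
      _ ≤ 10 * (1 + R) := by
          apply mul_le_mul_of_nonneg_right (Pig_geo m)
          have : (0 : ℝ) ≤ (((bx fun i => 2 * X i).filter fun h => dz (ip h α) ≤ 1 / 2 ^ m).card : ℝ) :=
            Nat.cast_nonneg _
          linarith
  linarith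

end Pool.Agent.Kro
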