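import Pool.Agent.Kro.Trig

/-! Module Swap. Fix `h ≠ 0`. The pairs `(m, j)`, `|j| = m ≤ K`, for which `h` appears satisfy `|h_i| ≤ 2^(j_i + 2)`, `2^m dz ≤ 1`.
Hence `h ∈ bx (2^(K+2))`, `r(h) ≤ ∏ 2^(j_i + 2) = 4^d 2^m`, so `xx α h = r(h) dz ≤ 4^d`. Their total weight is
`≤ (1/dz) ∑_{j ∈ [0,K]^d, |h_i| ≤ 2^(j_i+2)} ∏ 2^{-j_i} = (1/dz) ∏_i ∑_{j ≤ K, |h_i| ≤ 2^(j+2)} 2^{-j} ≤ (1/dz) ∏ 8/max(1,|h_i|)` (`geo1`).
`geo1`: if `H ≤ 4` the sum is `≤ 2 ≤ 8/max(1,H)`; otherwise let `j₀` be the least `j` with `H ≤ 2^(j+2)`: the sum is `≤ 2 · 2^{-j₀}` and `2^{-j₀} ≤ 4/H`. -/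

namespace Pool.Agent.Kro

open Finset

theorem Swap_geo (j0 : ℕ) (S : Finset ℕ) (hS : ∀ j ∈ S, j0 ≤ j) :
    ∑ j ∈ S, (1 : ℝ) / 2 ^ j ≤ 2 / 2 ^ j0 := by
  have h1 : S ⊆ (range (S.sup id + 1)).image (fun i => j0 + i) := by
    intro j hj
    rw [Finset.mem_image]
    refine ⟨j - j0, ?_, ?_⟩
    · rw [Finset.mem_range]
      have := Finset.le_sup (f := id) hj
      simp only [id] at this
      omega
    · have := hS j hj
      omega
  calc ∑ j ∈ S, (1 : ℝ) / 2 ^ j ≤ ∑ j ∈ (range (S.sup id + 1)).image (fun i => j0 + i), (1 : ℝ) / 2 ^ j := by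
        apply Finset.sum_le_sum_of_subset_of_nonneg h1
        intro j _ _
        positivity
    _ = ∑ i ∈ range (S.sup id + 1), (1 : ℝ) / 2 ^ (j0 + i) := by
        rw [Finset.sum_image]
        intro x _ y _ hxy
        simpa using hxy
    _ = (1 / 2 ^ j0) * ∑ i ∈ range (S.sup id + 1), ((1 : ℝ) / 2) ^ i := by
        rw [Finset.mul_sum]
        apply Finset.sum_congr rfl
        intro i _
        rw [pow_add, div_pow, one_pow]
        field_simp
    _ ≤ (1 / 2 ^ j0) * 2 := by
        apply mul_le_mul_of_nonneg_left _ (by positivity)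
        have h2 := sum_geometric_two_le (S.sup id + 1)
        exact h2
    _ = 2 / 2 ^ j0 := by ring

theorem geo1 (K H : ℕ) :
    ∑ j ∈ (range (K + 1)).filter (fun j => H ≤ 2 ^ (j + 2)), (1 : ℝ) / 2 ^ j ≤ 8 / (max 1 H : ℕ) := by
  by_cases hH : H ≤ 4
  · have h1 := Swap_geo 0 ((range (K + 1)).filter (fun j => H ≤ 2 ^ (j + 2))) (fun j _ => Nat.zero_le j)
    refine h1.trans ?_
    have h2 : (0 : ℝ) < (max 1 H : ℕ) := by
      have : 0 < max 1 H := by omega
      exact_mod_cast this
    have h3 : ((max 1 H : ℕ) : ℝ) ≤ 4 := by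
      have : max 1 H ≤ 4 := by omega
      exact_mod_cast this
    rw [pow_zero, div_one, le_div_iff₀ h2]
    linarith
  · push Not at hH
    have hmax : max 1 H = H := by omega
    rw [hmax]
    set c := Nat.clog 2 H with hc
    have hc1 : ∀ j, H ≤ 2 ^ j ↔ c ≤ j := fun j => by
      rw [hc]
      exact (Nat.clog_le_iff_le_pow (by norm_num)).symm
    have hc3 : 3 ≤ c := by
      by_contra h
      push Not at h
      have h1 := (hc1 c).2 le_rfl
      have h2 : 2 ^ c ≤ 2 ^ 2 := Nat.pow_le_pow_right (by norm_num) (by omega)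
      omega
    have h1 := Swap_geo (c - 2) ((range (K + 1)).filter (fun j => H ≤ 2 ^ (j + 2))) (by
      intro j hj
      rw [Finset.mem_filter, hc1] at hj
      omega)
    refine h1.trans ?_
    have h2 : H ≤ 2 ^ c := (hc1 c).2 le_rfl
    have h3 : (H : ℝ) ≤ 4 * 2 ^ (c - 2) := by
      have h4 : (4 : ℕ) * 2 ^ (c - 2) = 2 ^ c := by
        have : (4 : ℕ) = 2 ^ 2 := by norm_num
        rw [this, ← pow_add]
        congr 1
        omega
      have h5 : H ≤ 4 * 2 ^ (c - 2) := by rw [h4]; exact h2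
      exact_mod_cast h5
    have hH0 : (0 : ℝ) < H := by
      have : 0 < H := by omega
      exact_mod_cast this
    rw [div_le_div_iff₀ (by positivity) hH0]
    linarith

theorem Swap_rr {d : ℕ} (h : Fin d → ℤ) : 1 ≤ rr h := by
  unfold rr
  apply Finset.one_le_prod'
  intro i _
  exact le_max_left _ _

open Classical in
theorem swap (d : ℕ) (α : Fin d → ℝ) (hα : ∀ h : Fin d → ℤ, h ≠ 0 → dz (ip h α) ≠ 0) (K : ℕ) :
    ∑ m ∈ range (K + 1), ∑ j ∈ piAntidiag (univ : Finset (Fin d)) m,
        ∑ h ∈ (bx fun i => 2 * 2 ^ (j i + 1)).filter (fun h => h ≠ 0 ∧ 2 ^ m * dz (ip h α) ≤ 1),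
          1 / (2 ^ m * dz (ip h α))
      ≤ 8 ^ d * ∑ h ∈ (bx fun _ => 2 ^ (K + 2)).filter (fun h => h ≠ 0 ∧ xx α h ≤ 4 ^ d),
          1 / xx α h := by
  set B := (bx fun _ : Fin d => 2 ^ (K + 2)).filter (fun h => h ≠ 0 ∧ xx α h ≤ 4 ^ d) with hB
  set J := Fintype.piFinset (fun _ : Fin d => range (K + 1)) with hJ
  have hpos : ∀ h : Fin d → ℤ, h ≠ 0 → 0 < dz (ip h α) := fun h h0 =>
    lt_of_le_of_ne (dz_nonneg _) (Ne.symm (hα h h0))
  -- the weight
  set g : (Fin d → ℕ) → (Fin d → ℤ) → ℝ := fun j h =>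
    if ∀ i, (h i).natAbs ≤ 2 ^ (j i + 2) then (∏ i, (1 : ℝ) / 2 ^ (j i)) * (1 / dz (ip h α)) else 0 with hg
  have hg0 : ∀ j h, 0 ≤ g j h := by
    intro j h
    simp only [hg]
    split_ifs
    · have := dz_nonneg (ip h α)
      positivity
    · exact le_rfl
  have step1 : ∀ m ∈ range (K + 1), ∀ j ∈ piAntidiag (univ : Finset (Fin d)) m,
      ∑ h ∈ (bx fun i => 2 * 2 ^ (j i + 1)).filter (fun h => h ≠ 0 ∧ 2 ^ m * dz (ip h α) ≤ 1),
          1 / (2 ^ m * dz (ip h α)) ≤ ∑ h ∈ B, g j h := by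
    intro m hm j hj
    rw [Finset.mem_range] at hm
    rw [Finset.mem_piAntidiag] at hj
    have hjm : ∀ i, j i ≤ m := by
      intro i
      rw [← hj.1]
      exact Finset.single_le_sum (fun _ _ => Nat.zero_le _) (Finset.mem_univ i)
    have hmem : ∀ h ∈ (bx fun i => 2 * 2 ^ (j i + 1)).filter
        (fun h => h ≠ 0 ∧ 2 ^ m * dz (ip h α) ≤ 1), (∀ i, (h i).natAbs ≤ 2 ^ (j i + 2)) ∧ h ≠ 0 ∧
        2 ^ m * dz (ip h α) ≤ 1 := by
      intro h hh
      rw [Finset.mem_filter] at hh
      refine ⟨?_, hh.2⟩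
      intro i
      have h1 := hh.1
      unfold bx at h1
      rw [Fintype.mem_piFinset] at h1
      have h2 := h1 i
      rw [Finset.mem_Icc] at h2
      have h3 : ((2 * 2 ^ (j i + 1) : ℕ) : ℤ) = ((2 ^ (j i + 2) : ℕ) : ℤ) := by
        push_cast
        ring
      rw [h3] at h2
      omega
    have hprod : ∏ i, (1 : ℝ) / 2 ^ (j i) = 1 / 2 ^ m := by
      rw [Finset.prod_div_distrib, Finset.prod_const_one, Finset.prod_pow_eq_pow_sum, hj.1]
    calc ∑ h ∈ (bx fun i => 2 * 2 ^ (j i + 1)).filter (fun h => h ≠ 0 ∧ 2 ^ m * dz (ip h α) ≤ 1),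
          1 / (2 ^ m * dz (ip h α))
        = ∑ h ∈ (bx fun i => 2 * 2 ^ (j i + 1)).filter (fun h => h ≠ 0 ∧ 2 ^ m * dz (ip h α) ≤ 1),
          g j h := by
          apply Finset.sum_congr rfl
          intro h hh
          have := (hmem h hh).1
          simp only [hg]
          rw [if_pos this, hprod]
          rw [one_div_mul_one_div]
      _ ≤ ∑ h ∈ B, g j h := by
          apply Finset.sum_le_sum_of_subset_of_nonneg
          · intro h hh
            obtain ⟨h1, h2, h3⟩ := hmem h hh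
            rw [hB, Finset.mem_filter]
            refine ⟨?_, h2, ?_⟩
            · unfold bx
              rw [Fintype.mem_piFinset]
              intro i
              rw [Finset.mem_Icc]
              have h4 := h1 i
              have h5 : 2 ^ (j i + 2) ≤ 2 ^ (K + 2) := Nat.pow_le_pow_right (by norm_num) (by
                have := hjm i
                omega)
              show -((2 ^ (K + 2) : ℕ) : ℤ) ≤ h i ∧ h i ≤ ((2 ^ (K + 2) : ℕ) : ℤ)
              omega
            · unfold xx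
              have h4 : (rr h : ℝ) ≤ 4 ^ d * 2 ^ m := by
                have h5 : rr h ≤ 4 ^ d * 2 ^ m := by
                  unfold rr
                  calc ∏ i, max 1 (h i).natAbs ≤ ∏ i : Fin d, (4 * 2 ^ (j i)) := by
                        apply Finset.prod_le_prod'
                        intro i _
                        have h6 := h1 i
                        have h7 : 2 ^ (j i + 2) = 4 * 2 ^ (j i) := by rw [pow_add]; ring
                        have h8 : 1 ≤ 2 ^ (j i) := Nat.one_le_two_pow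
                        rw [h7] at h6
                        exact max_le (by omega) h6
                    _ = 4 ^ d * 2 ^ m := by
                        rw [Finset.prod_mul_distrib, Finset.prod_const, Finset.card_univ, Fintype.card_fin,
                          Finset.prod_pow_eq_pow_sum, hj.1]
                exact_mod_cast h5
              have h6 := hpos h h2
              calc (rr h : ℝ) * dz (ip h α) ≤ (4 ^ d * 2 ^ m) * dz (ip h α) := by gcongr
                _ = 4 ^ d * (2 ^ m * dz (ip h α)) := by ring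
                _ ≤ 4 ^ d * 1 := by gcongr
                _ = 4 ^ d := by ring
          · intro h _ _
            exact hg0 j h
  have step2 : ∑ m ∈ range (K + 1), ∑ j ∈ piAntidiag (univ : Finset (Fin d)) m, ∑ h ∈ B, g j h ≤
      ∑ j ∈ J, ∑ h ∈ B, g j h := by
    have h1 : ∀ m ∈ range (K + 1), ∑ j ∈ piAntidiag (univ : Finset (Fin d)) m, ∑ h ∈ B, g j h ≤
        ∑ j ∈ J.filter (fun j => ∑ i, j i = m), ∑ h ∈ B, g j h := by
      intro m hm
      apply Finset.sum_le_sum_of_subset_of_nonneg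
      · intro j hj
        rw [Finset.mem_range] at hm
        rw [Finset.mem_piAntidiag] at hj
        rw [Finset.mem_filter, hJ, Fintype.mem_piFinset]
        refine ⟨?_, hj.1⟩
        intro i
        rw [Finset.mem_range]
        have := Finset.single_le_sum (f := j) (fun _ _ => Nat.zero_le _) (Finset.mem_univ i)
        rw [hj.1] at this
        omega
      · intro j _ _
        exact Finset.sum_nonneg (fun h _ => hg0 j h)
    refine (Finset.sum_le_sum h1).trans ?_
    have h2 : ∑ m ∈ range (K + 1), ∑ j ∈ J.filter (fun j => ∑ i, j i = m), ∑ h ∈ B, g j h =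
        ∑ j ∈ J, ∑ m ∈ range (K + 1), if ∑ i, j i = m then ∑ h ∈ B, g j h else 0 := by
      rw [Finset.sum_comm]
      apply Finset.sum_congr rfl
      intro m _
      rw [Finset.sum_filter]
    rw [h2]
    apply Finset.sum_le_sum
    intro j _
    rw [Finset.sum_ite_eq]
    split_ifs
    · exact le_rfl
    · exact Finset.sum_nonneg (fun h _ => hg0 j h)
  have step3 : ∑ j ∈ J, ∑ h ∈ B, g j h ≤ 8 ^ d * ∑ h ∈ B, 1 / xx α h := by
    rw [Finset.sum_comm, Finset.mul_sum]
    apply Finset.sum_le_sum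
    intro h hh
    rw [hB, Finset.mem_filter] at hh
    have hd := hpos h hh.2.1
    have h1 : ∑ j ∈ J, g j h = (∏ i : Fin d, ∑ j ∈ (range (K + 1)).filter
        (fun j => (h i).natAbs ≤ 2 ^ (j + 2)), (1 : ℝ) / 2 ^ j) * (1 / dz (ip h α)) := by
      have h2 : ∀ j ∈ J, g j h = (∏ i, (if (h i).natAbs ≤ 2 ^ (j i + 2) then (1 : ℝ) / 2 ^ (j i) else 0)) *
          (1 / dz (ip h α)) := by
        intro j _
        simp only [hg]
        by_cases h3 : ∀ i, (h i).natAbs ≤ 2 ^ (j i + 2)
        · rw [if_pos h3]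
          congr 1
          apply Finset.prod_congr rfl
          intro i _
          rw [if_pos (h3 i)]
        · rw [if_neg h3]
          push Not at h3
          obtain ⟨i, hi⟩ := h3
          have : ∏ i, (if (h i).natAbs ≤ 2 ^ (j i + 2) then (1 : ℝ) / 2 ^ (j i) else 0) = 0 := by
            apply Finset.prod_eq_zero (Finset.mem_univ i)
            rw [if_neg (by omega)]
          rw [this, zero_mul]
      rw [Finset.sum_congr rfl h2, ← Finset.sum_mul]
      congr 1
      rw [hJ]
      have h4 := Finset.prod_univ_sum (fun _ : Fin d => range (K + 1))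
        (fun (i : Fin d) (j : ℕ) => if (h i).natAbs ≤ 2 ^ (j + 2) then (1 : ℝ) / 2 ^ j else 0)
      rw [← h4]
      apply Finset.prod_congr rfl
      intro i _
      rw [Finset.sum_filter]
    rw [h1]
    have h5 : (∏ i : Fin d, ∑ j ∈ (range (K + 1)).filter
        (fun j => (h i).natAbs ≤ 2 ^ (j + 2)), (1 : ℝ) / 2 ^ j) ≤
        ∏ i : Fin d, (8 / (max 1 (h i).natAbs : ℕ) : ℝ) := by
      apply Finset.prod_le_prod
      · intro i _
        exact Finset.sum_nonneg (fun j _ => by positivity)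
      · intro i _
        exact geo1 K (h i).natAbs
    have h6 : ∏ i : Fin d, (8 / (max 1 (h i).natAbs : ℕ) : ℝ) = 8 ^ d / rr h := by
      rw [Finset.prod_div_distrib, Finset.prod_const, Finset.card_univ, Fintype.card_fin]
      congr 1
      unfold rr
      push_cast
      rfl
    rw [h6] at h5
    have hr : (0 : ℝ) < rr h := by
      have := Swap_rr h
      have h7 : 0 < rr h := by omega
      exact_mod_cast h7
    calc _ ≤ (8 ^ d / rr h) * (1 / dz (ip h α)) := by
          apply mul_le_mul_of_nonneg_right h5 (by positivity)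
      _ = 8 ^ d * (1 / xx α h) := by
          unfold xx
          field_simp
  calc _ ≤ ∑ m ∈ range (K + 1), ∑ j ∈ piAntidiag (univ : Finset (Fin d)) m, ∑ h ∈ B, g j h := by
        apply Finset.sum_le_sum
        intro m hm
        apply Finset.sum_le_sum
        intro j hj
        exact step1 m hm j hj
    _ ≤ _ := step2
    _ ≤ _ := step3

end Pool.Agent.Kro
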