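import Pool.Agent.Kro.MainF
import Pool.Agent.Kro.Pig
import Pool.Agent.Kro.Swap

/-! Module DetIneq: assembly (`main_ineq`, `far_sum`, `swap`, `card_antidiag`). -/

namespace Pool.Agent.Kro

open Finset

open Classical in
theorem det_ineq (d : ℕ) : ∃ C : ℝ, 0 ≤ C ∧ ∀ α : Fin d → ℝ,
    (∀ h : Fin d → ℤ, h ≠ 0 → dz (ip h α) ≠ 0) →
    ∀ a b : Fin d → ℝ, (∀ i, 0 ≤ a i ∧ a i ≤ b i ∧ b i ≤ 1) → ∀ K N : ℕ, N ≤ 2 ^ K →
    |∑ n ∈ range N, ∏ i, ind (a i) (b i) (n * α i) - N * ∏ i, (b i - a i)|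
      ≤ C * ((K + 1) ^ d
          + ∑ h ∈ (bx fun _ => 2 ^ (K + 2)).filter (fun h => h ≠ 0 ∧ xx α h ≤ 4 ^ d), 1 / xx α h) := by
  obtain ⟨C0, hC0, H⟩ := main_ineq d
  refine ⟨C0 * (12 + 11 * 8 ^ d), by positivity, ?_⟩
  intro α hα a b hab K N hN
  have h1 := H α hα a b hab K N hN
  set T : ℝ := ∑ h ∈ (bx fun _ => 2 ^ (K + 2)).filter (fun h => h ≠ 0 ∧ xx α h ≤ 4 ^ d), 1 / xx α h with hT
  have hxx : ∀ h : Fin d → ℤ, 0 ≤ xx α h := by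
    intro h
    unfold xx dz
    positivity
  have hT0 : 0 ≤ T := by
    rw [hT]
    exact sum_nonneg fun h _ => div_nonneg zero_le_one (hxx h)
  have h2 : ∑ m ∈ range (K + 1), ∑ j ∈ piAntidiag (univ : Finset (Fin d)) m,
      (1 + ∑ h ∈ (bx fun i => 2 ^ (j i + 1)).filter (· ≠ 0), (1 / 2 ^ m) * gm m (dz (ip h α)))
      ≤ ∑ m ∈ range (K + 1), ∑ j ∈ piAntidiag (univ : Finset (Fin d)) m,
        (12 + 11 * ∑ h ∈ (bx fun i => 2 * 2 ^ (j i + 1)).filter (fun h => h ≠ 0 ∧ 2 ^ m * dz (ip h α) ≤ 1),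
          1 / (2 ^ m * dz (ip h α))) := by
    refine sum_le_sum fun m _ => sum_le_sum fun j _ => ?_
    have h3 := far_sum d α hα (fun i => 2 ^ (j i + 1)) m
    linarith
  have h4 : ∑ m ∈ range (K + 1), ∑ j ∈ piAntidiag (univ : Finset (Fin d)) m,
        ((12 : ℝ) + 11 * ∑ h ∈ (bx fun i => 2 * 2 ^ (j i + 1)).filter (fun h => h ≠ 0 ∧ 2 ^ m * dz (ip h α) ≤ 1),
          1 / (2 ^ m * dz (ip h α)))
      = 12 * ((∑ m ∈ range (K + 1), (piAntidiag (univ : Finset (Fin d)) m).card : ℕ) : ℝ)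
        + 11 * ∑ m ∈ range (K + 1), ∑ j ∈ piAntidiag (univ : Finset (Fin d)) m,
        ∑ h ∈ (bx fun i => 2 * 2 ^ (j i + 1)).filter (fun h => h ≠ 0 ∧ 2 ^ m * dz (ip h α) ≤ 1),
          1 / (2 ^ m * dz (ip h α)) := by
    simp only [sum_add_distrib, sum_const, nsmul_eq_mul, mul_sum]
    push_cast
    rw [mul_sum]
    congr 1
    exact sum_congr rfl fun m _ => by ring
  have h5 : (((∑ m ∈ range (K + 1), (piAntidiag (univ : Finset (Fin d)) m).card : ℕ) : ℝ))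
      ≤ ((K : ℝ) + 1) ^ d := by
    have := card_antidiag d K
    exact_mod_cast this
  have h6 := swap d α hα K
  rw [← hT] at h6
  refine le_trans h1 ?_
  rw [mul_assoc]
  refine mul_le_mul_of_nonneg_left ?_ hC0
  refine le_trans h2 ?_
  rw [h4]
  have h7 : (0 : ℝ) ≤ ((K : ℝ) + 1) ^ d := by positivity
  have h8 : (0 : ℝ) ≤ 8 ^ d := by positivity
  nlinarith [mul_nonneg h7 h8]

end Pool.Agent.Kro
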