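import Pool.Agent.Kro.Trig

/-! Module Di: `di` and `dz` (`r = z % 2^S`: `dz (z/2^S) = dz (r/2^S) = min(r/2^S, 1 - r/2^S)`), and the one-dimensional count.
`cnt1`: if `2w ≥ 2^S` trivial (`# ≤ L`). Otherwise, up to `j ↦ L - 1 - j`, `h > 0`. `di S z ≤ w` iff `|z - n 2^S| ≤ w` for some `n : ℤ`.
At most `(h(L-1) + 2w)/2^S + 1` values of `n` occur, and for each of them at most `2w/h + 1 ≤ 3w/h` values of `j`. Hence
`2^S # ≤ (h(L-1) + 2w + 2^S) 3w/h ≤ 3hL · 3w/h = 9Lw` (`2w < 2^S ≤ hL`). -/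

namespace Pool.Agent.Kro

open Finset

theorem dz_div (S : ℕ) (z : ℤ) : dz ((z : ℝ) / 2 ^ S) = di S z / 2 ^ S := by
  have hP : (0 : ℤ) < 2 ^ S := by positivity
  have hPr : (0 : ℝ) < 2 ^ S := by positivity
  unfold dz
  rw [abs_sub_round_eq_min]
  have hf : Int.fract ((z : ℝ) / 2 ^ S) = ((z % 2 ^ S : ℤ) : ℝ) / 2 ^ S := by
    have h := Int.fract_div_intCast_eq_div_intCast_mod (k := ℝ) (m := z) (n := 2 ^ S)
    push_cast at h
    exact h
  rw [hf]
  have hr0 := Int.emod_nonneg z hP.ne'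
  have hr1 := Int.emod_lt_of_pos z hP
  unfold di
  set r := z % 2 ^ S with hr
  obtain ⟨n, hn⟩ := Int.eq_ofNat_of_zero_le hr0
  have hnr : r.toNat = n := by rw [hn]; simp
  have hn2 : n ≤ 2 ^ S := by
    have : (n : ℤ) < 2 ^ S := by rw [← hn]; exact hr1
    have h2 : n < 2 ^ S := by exact_mod_cast this
    exact h2.le
  rw [hnr, hn]
  have h3 : (1 : ℝ) - ((n : ℤ) : ℝ) / 2 ^ S = (2 ^ S - (n : ℝ)) / 2 ^ S := by
    rw [sub_div, div_self hPr.ne']
    push_cast
    rfl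
  rw [h3, Nat.cast_min, Nat.cast_sub hn2]
  push_cast
  exact (min_div_div_right hPr.le _ _)

theorem di_neg (S : ℕ) (z : ℤ) : di S (-z) = di S z := by
  have hPr : (0 : ℝ) < 2 ^ S := by positivity
  have h1 := dz_div S (-z)
  have h2 := dz_div S z
  have h3 : ((-z : ℤ) : ℝ) / 2 ^ S = -((z : ℝ) / 2 ^ S) := by
    push_cast
    ring
  rw [h3, dz_neg, h2] at h1
  have h4 : (di S z : ℝ) = (di S (-z) : ℝ) := by
    field_simp at h1
    exact h1
  exact_mod_cast h4.symm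

theorem Di_emod (S w : ℕ) (z : ℤ) (hw : 2 * w < 2 ^ S) (h : di S z ≤ w) :
    (z + w) % 2 ^ S ≤ 2 * w := by
  have hP : (0 : ℤ) < 2 ^ S := by positivity
  have hr0 := Int.emod_nonneg z hP.ne'
  have hr1 := Int.emod_lt_of_pos z hP
  have hw' : (2 : ℤ) * w < 2 ^ S := by exact_mod_cast hw
  rw [← Int.emod_add_emod]
  unfold di at h
  set r := z % 2 ^ S with hr
  obtain ⟨n, hn⟩ := Int.eq_ofNat_of_zero_le hr0
  have hnr : r.toNat = n := by rw [hn]; simp
  have hn2 : n ≤ 2 ^ S := by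
    have : (n : ℤ) < 2 ^ S := by rw [← hn]; exact hr1
    have h2 : n < 2 ^ S := by exact_mod_cast this
    exact h2.le
  rw [hnr] at h
  rcases min_le_iff.mp h with h | h
  · rw [Int.emod_eq_of_lt]
    · have : (n : ℤ) ≤ w := by exact_mod_cast h
      omega
    · omega
    · have : (n : ℤ) ≤ w := by exact_mod_cast h
      omega
  · have h4 : (2 : ℤ) ^ S ≤ n + w := by
      have : 2 ^ S ≤ n + w := by omega
      exact_mod_cast this
    have h5 : (n : ℤ) ≤ 2 ^ S := by exact_mod_cast hn2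
    have h6 : r + w = (r + w - 2 ^ S) + 2 ^ S := by ring
    rw [h6, Int.add_emod_right, Int.emod_eq_of_lt]
    · omega
    · omega
    · omega

theorem Di_fib (D : ℕ) (t : Finset ℕ) (ht : ∀ i ∈ t, ∀ j ∈ t, i ≤ j → j - i ≤ D) : t.card ≤ D + 1 := by
  classical
  rcases t.eq_empty_or_nonempty with h | h
  · subst h; simp
  · have hm := t.min'_mem h
    set m := t.min' h
    have hs : t ⊆ Icc m (m + D) := by
      intro j hj
      have h1 : m ≤ j := t.min'_le j hj
      have h2 := ht m hm j hj h1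
      rw [mem_Icc]
      omega
    refine (card_le_card hs).trans ?_
    rw [Nat.card_Icc]
    omega

theorem Di_pos (S L w : ℕ) (a : ℤ) (h : ℕ) (h1 : h ≤ w) (h2 : 2 ^ S ≤ h * L) (hw : 2 * w < 2 ^ S) :
    2 ^ S * ((range L).filter fun j : ℕ => di S (a + (h : ℤ) * (j : ℤ)) ≤ w).card ≤ 9 * L * w := by
  classical
  have hP : (0 : ℤ) < 2 ^ S := by positivity
  have hPn : 0 < 2 ^ S := by positivity
  have hh : 0 < h := by
    rcases Nat.eq_zero_or_pos h with h0 | h0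
    · subst h0; omega
    · exact h0
  have hL : 0 < L := by
    rcases Nat.eq_zero_or_pos L with h0 | h0
    · subst h0; omega
    · exact h0
  set J := (range L).filter fun j : ℕ => di S (a + (h : ℤ) * (j : ℤ)) ≤ w with hJ
  let f : ℕ → ℤ := fun j => (a + (h : ℤ) * (j : ℤ) + w) / 2 ^ S
  have hk : ∀ j ∈ J, 0 ≤ (a + (h : ℤ) * (j : ℤ) + w) - 2 ^ S * f j ∧
      (a + (h : ℤ) * (j : ℤ) + w) - 2 ^ S * f j ≤ 2 * w := by
    intro j hj
    have hj2 := (mem_filter.mp hj).2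
    have h3 := Di_emod S w _ hw hj2
    have h4 := Int.emod_nonneg (a + (h : ℤ) * (j : ℤ) + w) hP.ne'
    have h5 : (a + (h : ℤ) * (j : ℤ) + w) - 2 ^ S * f j = (a + (h : ℤ) * (j : ℤ) + w) % 2 ^ S := by
      rw [Int.emod_def]
    rw [h5]
    exact ⟨h4, h3⟩
  -- fibres
  have hfib : ∀ b ∈ J.image f, (J.filter fun x => f x = b).card ≤ 2 * w / h + 1 := by
    intro b _
    apply Di_fib
    intro i hi j hj hij
    rw [mem_filter] at hi hj
    have h3 := hk i hi.1
    have h4 := hk j hj.1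
    rw [hi.2] at h3
    rw [hj.2] at h4
    rw [Nat.le_div_iff_mul_le hh]
    have h5 : ((j - i : ℕ) : ℤ) = j - i := by push_cast [Nat.cast_sub hij]; ring
    have h6 : (((j - i) * h : ℕ) : ℤ) ≤ ((2 * w : ℕ) : ℤ) := by
      rw [Nat.cast_mul, h5]
      push_cast
      nlinarith [h3.1, h3.2, h4.1, h4.2]
    exact_mod_cast h6
  have hc := card_le_mul_card_image (f := f) J (2 * w / h + 1) hfib
  -- the image
  have himg : J.image f ⊆ Icc ((a + w) / 2 ^ S) ((a + (h : ℤ) * ((L - 1 : ℕ) : ℤ) + w) / 2 ^ S) := by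
    intro b hb
    rw [mem_image] at hb
    obtain ⟨j, hj, rfl⟩ := hb
    have hjL := mem_range.mp (mem_filter.mp hj).1
    rw [mem_Icc]
    constructor
    · apply Int.ediv_le_ediv hP
      have : 0 ≤ (h : ℤ) * (j : ℤ) := by positivity
      linarith
    · apply Int.ediv_le_ediv hP
      have h7 : (j : ℤ) ≤ ((L - 1 : ℕ) : ℤ) := by
        have : j ≤ L - 1 := by omega
        exact_mod_cast this
      have h8 : (h : ℤ) * (j : ℤ) ≤ (h : ℤ) * ((L - 1 : ℕ) : ℤ) :=
        mul_le_mul_of_nonneg_left h7 (by positivity)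
      linarith
  have hci := card_le_card himg
  rw [Int.card_Icc] at hci
  set n0 := (a + w) / 2 ^ S with hn0
  set n1 := (a + (h : ℤ) * ((L - 1 : ℕ) : ℤ) + w) / 2 ^ S with hn1
  have e0 := Int.emod_add_mul_ediv (a + w) (2 ^ S)
  have e1 := Int.emod_add_mul_ediv (a + (h : ℤ) * ((L - 1 : ℕ) : ℤ) + w) (2 ^ S)
  have e2 := Int.emod_lt_of_pos (a + w) hP
  have e3 := Int.emod_nonneg (a + (h : ℤ) * ((L - 1 : ℕ) : ℤ) + w) hP.ne'
  rw [← hn0] at e0
  rw [← hn1] at e1
  have hnn : n0 ≤ n1 + 1 := by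
    have : n0 ≤ n1 := by
      apply Int.ediv_le_ediv hP
      have : 0 ≤ (h : ℤ) * ((L - 1 : ℕ) : ℤ) := by positivity
      linarith
    linarith
  have hL1 : ((L - 1 : ℕ) : ℤ) = L - 1 := by
    push_cast [Nat.cast_sub hL]; ring
  have hcz : ((n1 + 1 - n0).toNat : ℤ) = n1 + 1 - n0 := Int.toNat_of_nonneg (by linarith)
  have hPh : (2 : ℤ) ^ S ≤ h * L := by exact_mod_cast h2
  have hA : (2 : ℤ) ^ S * ((J.image f).card : ℤ) ≤ 3 * h * L := by
    have h9 : ((J.image f).card : ℤ) ≤ n1 + 1 - n0 := by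
      rw [← hcz]
      exact_mod_cast hci
    have h10 : (2 : ℤ) ^ S * ((J.image f).card : ℤ) ≤ 2 ^ S * (n1 + 1 - n0) :=
      mul_le_mul_of_nonneg_left h9 hP.le
    have h11 : (2 : ℤ) ^ S * (n1 + 1 - n0) ≤ 3 * h * L := by
      rw [hL1] at e1 e3
      have h12 : (0 : ℤ) < h := by exact_mod_cast hh
      nlinarith
    exact h10.trans h11
  have hB : (h : ℤ) * ((2 * w / h + 1 : ℕ) : ℤ) ≤ 3 * w := by
    have h13 : h * (2 * w / h) ≤ 2 * w := Nat.mul_div_le _ _
    have h14 : h * (2 * w / h + 1) ≤ 3 * w := by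
      rw [mul_add, mul_one]
      omega
    exact_mod_cast h14
  have hcZ : (J.card : ℤ) ≤ ((2 * w / h + 1 : ℕ) : ℤ) * ((J.image f).card : ℤ) := by exact_mod_cast hc
  have hfin : (h : ℤ) * (2 ^ S * (J.card : ℤ)) ≤ (h : ℤ) * (9 * L * w) := by
    have h15 : (0 : ℤ) < h := by exact_mod_cast hh
    calc (h : ℤ) * (2 ^ S * (J.card : ℤ))
        ≤ (h : ℤ) * (2 ^ S * (((2 * w / h + 1 : ℕ) : ℤ) * ((J.image f).card : ℤ))) := by gcongr
      _ = ((h : ℤ) * ((2 * w / h + 1 : ℕ) : ℤ)) * (2 ^ S * ((J.image f).card : ℤ)) := by ring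
      _ ≤ (3 * w) * (3 * h * L) := by
          apply mul_le_mul hB hA
          · positivity
          · positivity
      _ = (h : ℤ) * (9 * L * w) := by ring
  have h16 := le_of_mul_le_mul_left hfin (by exact_mod_cast hh)
  exact_mod_cast h16

theorem cnt1 (S L w : ℕ) (a h : ℤ) (h1 : h.natAbs ≤ w) (h2 : 2 ^ S ≤ h.natAbs * L) :
    2 ^ S * ((range L).filter fun j : ℕ => di S (a + h * (j : ℤ)) ≤ w).card ≤ 9 * L * w := by
  classical
  by_cases hw : 2 * w < 2 ^ S
  · rcases le_total 0 h with h0 | h0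
    · obtain ⟨n, rfl⟩ := Int.eq_ofNat_of_zero_le h0
      exact Di_pos S L w a n (by simpa using h1) (by simpa using h2) hw
    · obtain ⟨n, hn⟩ := Int.eq_ofNat_of_zero_le (neg_nonneg.mpr h0)
      have hn' : h = -(n : ℤ) := by omega
      subst hn'
      have h3 := Di_pos S L w (-a) n (by simpa using h1) (by simpa using h2) hw
      have h4 : ∀ j : ℕ, di S (a + -(n : ℤ) * (j : ℤ)) = di S (-a + (n : ℤ) * (j : ℤ)) := by
        intro j
        rw [← di_neg]
        congr 1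
        ring
      simp_rw [h4]
      exact h3
  · have h3 : ((range L).filter fun j : ℕ => di S (a + h * (j : ℤ)) ≤ w).card ≤ L := by
      refine (card_filter_le _ _).trans ?_
      simp
    push Not at hw
    calc 2 ^ S * ((range L).filter fun j : ℕ => di S (a + h * (j : ℤ)) ≤ w).card
        ≤ (2 * w) * L := Nat.mul_le_mul hw h3
      _ ≤ 9 * L * w := by nlinarith [Nat.zero_le (w * L)]

end Pool.Agent.Kro
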