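import Pool.Agent.Kro.Trig

/-! Module Expd: expansion of a product (`Finset.prod_univ_sum`, `ee_sum`). -/

namespace Pool.Agent.Kro

open Finset

theorem expd (d : ℕ) (X : Fin d → ℕ) (c : Fin d → ℤ → ℂ) (x : Fin d → ℝ) :
    ∏ i, ∑ h ∈ Icc (-(X i : ℤ)) (X i), c i h * ee (h * x i)
      = ∑ h ∈ bx X, (∏ i, c i (h i)) * ee (ip h x) := by
  rw [Finset.prod_univ_sum]
  unfold bx
  apply Finset.sum_congr rfl
  intro h _
  rw [Finset.prod_mul_distrib]
  congr 1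
  unfold ip
  rw [ee_sum]

theorem coef_le (d : ℕ) (C : ℝ) (j : Fin d → ℕ) (c : Fin d → ℤ → ℂ) (hC : 0 ≤ C)
    (hc : ∀ i h, ‖c i h‖ ≤ C / 2 ^ (j i)) (h : Fin d → ℤ) :
    ‖∏ i, c i (h i)‖ ≤ C ^ d / 2 ^ (∑ i, j i) := by
  rw [norm_prod]
  calc ∏ i, ‖c i (h i)‖ ≤ ∏ i : Fin d, (C / 2 ^ (j i)) := by
        apply Finset.prod_le_prod
        · intro i _
          exact norm_nonneg _
        · intro i _
          exact hc i (h i)
    _ = C ^ d / 2 ^ (∑ i, j i) := by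
        rw [Finset.prod_div_distrib, Finset.prod_const, Finset.card_univ, Fintype.card_fin,
          Finset.prod_pow_eq_pow_sum]

theorem ip_smul (d : ℕ) (h : Fin d → ℤ) (x : ℝ) (α : Fin d → ℝ) :
    ip h (fun i => x * α i) = x * ip h α := by
  unfold ip
  rw [Finset.mul_sum]
  apply Finset.sum_congr rfl
  intro i _
  ring

end Pool.Agent.Kro
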