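import Pool.Agent.Kro.Trig

/-! Module Fej: the Fejer kernel and a thick majorant.
`A_H(x) = ‖∑_{k<H} e(kx)‖²`. `fej_expand`: expand the square, `#{(k,l) ∈ [0,H)², k - l = a} = H - |a|`.
`exists_maj`: `Φ_H(x) = π² H⁻² (A_H(x) + A_H(x + 1/(2H)))`. Put `y = dz x + 1/(2H)`, so that `dz x ≤ y`,
`dz (x + 1/(2H)) ≤ y`. By `geo_sin` and `sin_sq_le`: `A_H(x) π² y² ≥ sin²(πHx)` and
`A_H(x + 1/(2H)) π² y² ≥ sin²(πHx + π/2) = cos²(πHx)`; the sum is `≥ 1`. So `Φ_H(x) ≥ 1/(H y)²`, `H y = H dz x + 1/2`.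
Coefficients: `c(a) = π² H⁻² max(0, H - |a|) (1 + e(a/(2H)))`, norm `≤ 2 π²/H ≤ 20/H` (`π < 3.15`). -/

namespace Pool.Agent.Kro

open Finset

/-- Fejer coefficients -/
noncomputable def fc (H : ℕ) (a : ℤ) : ℝ := max 0 ((H : ℝ) - |(a : ℝ)|)

/-- Fejer kernel (not normalised) -/
noncomputable def fk (H : ℕ) (x : ℝ) : ℝ := ‖∑ k ∈ range H, ee (k * x)‖ ^ 2

theorem Fej_split (f : ℤ → ℂ) (N : ℕ) : ∑ a ∈ Icc (-(N : ℤ)) N, f a =
    f 0 + ∑ h ∈ range N, (f ((h : ℤ) + 1) + f (-((h : ℤ) + 1))) := by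
  induction N with
  | zero => simp
  | succ N ih =>
    have h1 : Icc (-((N + 1 : ℕ) : ℤ)) ((N + 1 : ℕ) : ℤ) =
        insert ((N : ℤ) + 1) (insert (-((N : ℤ) + 1)) (Icc (-(N : ℤ)) N)) := by
      ext x
      simp only [mem_Icc, mem_insert]
      push_cast
      omega
    rw [h1, sum_insert, sum_insert, ih, sum_range_succ]
    · ring
    · simp only [mem_Icc]; omega
    · simp only [mem_Icc, mem_insert]; omega

theorem Fej_double (F : ℤ → ℂ) (H : ℕ) : ∑ k ∈ range H, ∑ l ∈ range H, F ((k : ℤ) - l) =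
    H * F 0 + ∑ h ∈ range H, ((H : ℂ) - (h + 1)) * (F ((h : ℤ) + 1) + F (-((h : ℤ) + 1))) := by
  induction H with
  | zero => simp
  | succ H ih =>
    have h1 : ∑ k ∈ range (H + 1), ∑ l ∈ range (H + 1), F ((k : ℤ) - l) =
        ∑ k ∈ range H, ∑ l ∈ range H, F ((k : ℤ) - l) +
        (∑ k ∈ range H, (F ((k : ℤ) - H) + F ((H : ℤ) - k))) + F 0 := by
      rw [sum_range_succ]
      simp only [sum_range_succ, sum_add_distrib, sub_self]
      ring
    have h2 : ∑ k ∈ range H, (F ((k : ℤ) - H) + F ((H : ℤ) - k)) =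
        ∑ h ∈ range H, (F ((h : ℤ) + 1) + F (-((h : ℤ) + 1))) := by
      rw [← sum_range_reflect]
      refine sum_congr rfl (fun k hk => ?_)
      rw [mem_range] at hk
      have e1 : ((H - 1 - k : ℕ) : ℤ) = (H : ℤ) - 1 - k := by omega
      rw [e1, add_comm]
      congr 2 <;> ring
    rw [h1, ih, h2, sum_range_succ]
    have h3 : ∑ h ∈ range H, (((H + 1 : ℕ) : ℂ) - (h + 1)) * (F ((h : ℤ) + 1) + F (-((h : ℤ) + 1))) =
        ∑ h ∈ range H, ((H : ℂ) - (h + 1)) * (F ((h : ℤ) + 1) + F (-((h : ℤ) + 1))) +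
        ∑ h ∈ range H, (F ((h : ℤ) + 1) + F (-((h : ℤ) + 1))) := by
      rw [← sum_add_distrib]
      refine sum_congr rfl (fun h _ => ?_)
      push_cast; ring
    rw [h3]
    push_cast
    ring

theorem fej_expand (H : ℕ) (x : ℝ) :
    ((fk H x : ℝ) : ℂ) = ∑ a ∈ Icc (-(H : ℤ)) H, (fc H a : ℂ) * ee (a * x) := by
  rw [Fej_split]
  have h1 := Fej_double (fun a : ℤ => ee (a * x)) H
  have h2 : ((fk H x : ℝ) : ℂ) = ∑ k ∈ range H, ∑ l ∈ range H, ee ((((k : ℤ) - l : ℤ) : ℝ) * x) := by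
    unfold fk
    push_cast
    rw [← Complex.mul_conj', map_sum, sum_mul_sum]
    refine sum_congr rfl (fun k _ => sum_congr rfl (fun l _ => ?_))
    have h3 : (starRingEnd ℂ) (ee (l * x)) = ee (-(l * x)) := (ee_neg _).symm
    rw [h3, ← ee_add]
    congr 1
    ring
  rw [h2, h1]
  congr 1
  · unfold fc
    simp
  · refine sum_congr rfl (fun h hh => ?_)
    rw [mem_range] at hh
    have h3 : (h : ℝ) + 1 ≤ H := by exact_mod_cast hh
    have e1 : fc H ((h : ℤ) + 1) = (H : ℝ) - (h + 1) := by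
      unfold fc
      push_cast
      rw [abs_of_nonneg (by positivity), max_eq_right (by linarith)]
    have e2 : fc H (-((h : ℤ) + 1)) = (H : ℝ) - (h + 1) := by
      unfold fc
      push_cast
      rw [abs_neg, abs_of_nonneg (by positivity),
        max_eq_right (by linarith)]
    rw [e1, e2]
    push_cast
    ring

theorem exists_maj (H : ℕ) (hH : 1 ≤ H) : ∃ (c : ℤ → ℂ) (Φ : ℝ → ℝ),
    (∀ x, ((Φ x : ℝ) : ℂ) = ∑ a ∈ Icc (-(H : ℤ)) H, c a * ee (a * x)) ∧
    (∀ a, ‖c a‖ ≤ 20 / H) ∧ ∀ x, 1 / (H * dz x + 1 / 2) ^ 2 ≤ Φ x := by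
  have hHr : (0 : ℝ) < H := by exact_mod_cast hH
  refine ⟨fun a => ((Real.pi ^ 2 / H ^ 2 * fc H a : ℝ) : ℂ) * (1 + ee (a * (1 / (2 * H)))),
    fun x => Real.pi ^ 2 / H ^ 2 * (fk H x + fk H (x + 1 / (2 * H))), ?_, ?_, ?_⟩
  · intro x
    show ((Real.pi ^ 2 / H ^ 2 * (fk H x + fk H (x + 1 / (2 * H))) : ℝ) : ℂ) = _
    rw [Complex.ofReal_mul, Complex.ofReal_add, fej_expand, fej_expand, ← sum_add_distrib, mul_sum]
    refine sum_congr rfl (fun a _ => ?_)
    rw [mul_add (a : ℝ) x, ee_add]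
    push_cast
    ring
  · intro a
    show ‖((Real.pi ^ 2 / H ^ 2 * fc H a : ℝ) : ℂ) * (1 + ee (a * (1 / (2 * H))))‖ ≤ 20 / H
    have h1 : 0 ≤ fc H a := le_max_left _ _
    have h2 : fc H a ≤ H := by
      unfold fc
      apply max_le hHr.le
      have := abs_nonneg (a : ℝ)
      linarith
    rw [norm_mul, Complex.norm_real, Real.norm_of_nonneg (by positivity)]
    have h3 : ‖1 + ee (a * (1 / (2 * H)))‖ ≤ 2 := by
      refine le_trans (norm_add_le _ _) ?_
      rw [norm_ee, norm_one]; norm_num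
    have h4 : Real.pi ^ 2 ≤ 10 := by
      have := Real.pi_lt_d2
      have := Real.pi_pos
      nlinarith
    calc Real.pi ^ 2 / H ^ 2 * fc H a * ‖1 + ee (a * (1 / (2 * H)))‖
        ≤ (10 : ℝ) / H ^ 2 * H * 2 := by
          apply mul_le_mul _ h3 (norm_nonneg _) (by positivity)
          apply mul_le_mul _ h2 h1 (by positivity)
          exact div_le_div_of_nonneg_right h4 (by positivity)
      _ = (20 : ℝ) / H := by field_simp; norm_num
  · intro x
    show _ ≤ Real.pi ^ 2 / H ^ 2 * (fk H x + fk H (x + 1 / (2 * H)))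
    have hd0 := dz_nonneg x
    set y : ℝ := dz x + 1 / (2 * H) with hy
    have hy0 : 0 < y := by positivity
    have e1 : (H : ℝ) * dz x + 1 / 2 = H * y := by rw [hy]; field_simp
    rw [e1, div_le_iff₀ (by positivity)]
    have h1 : Real.sin (Real.pi * (H * x)) ^ 2 ≤ fk H x * (Real.pi ^ 2 * y ^ 2) := by
      rw [← geo_sin]
      unfold fk
      apply mul_le_mul_of_nonneg_left _ (by positivity)
      refine le_trans (sin_sq_le x) ?_
      apply mul_le_mul_of_nonneg_left _ (by positivity)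
      apply pow_le_pow_left₀ hd0
      rw [hy]
      have : (0 : ℝ) < 1 / (2 * H) := by positivity
      linarith
    have h2 : Real.sin (Real.pi * (H * (x + 1 / (2 * H)))) ^ 2 ≤
        fk H (x + 1 / (2 * H)) * (Real.pi ^ 2 * y ^ 2) := by
      rw [← geo_sin]
      unfold fk
      apply mul_le_mul_of_nonneg_left _ (by positivity)
      refine le_trans (sin_sq_le _) ?_
      apply mul_le_mul_of_nonneg_left _ (by positivity)
      apply pow_le_pow_left₀ (dz_nonneg _)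
      refine le_trans (dz_add_le _ _) ?_
      have h3 := dz_le_int (1 / (2 * (H : ℝ))) 0
      rw [Int.cast_zero, sub_zero, abs_of_pos (by positivity)] at h3
      rw [hy]
      linarith
    have e2 : Real.pi * (H * (x + 1 / (2 * H))) = Real.pi * (H * x) + Real.pi / 2 := by
      field_simp
    rw [e2, Real.sin_add_pi_div_two] at h2
    have h3 := Real.sin_sq_add_cos_sq (Real.pi * (H * x))
    calc (1 : ℝ) = Real.sin (Real.pi * (H * x)) ^ 2 + Real.cos (Real.pi * (H * x)) ^ 2 := h3.symm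
      _ ≤ fk H x * (Real.pi ^ 2 * y ^ 2) + fk H (x + 1 / (2 * H)) * (Real.pi ^ 2 * y ^ 2) :=
          add_le_add h1 h2
      _ = Real.pi ^ 2 / H ^ 2 * (fk H x + fk H (x + 1 / (2 * H))) * (H * y) ^ 2 := by
          field_simp

end Pool.Agent.Kro
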