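import Pool.Agent.Kro.Fej

/-! Module Jack: the Jackson kernel `J_H = A_H² / Z`, `Z = ∑_a fc(a)² = H (2H² + 1)/3 ≥ (2/3) H³`.
`A_H² = ∑_{a,b} fc(a) fc(b) e((a+b)x)`, so `j(h) = Z⁻¹ ∑_a fc(a) fc(h - a)`; `j(-h) = j(h)`, `j(0) = 1`,
`j(h) = 0` for `|h| ≥ 2H - 1` (`fc(a) ≠ 0` iff `|a| ≤ H - 1`).
`|1 - j(h)| = Z⁻¹ |∑_a fc(a) (fc(a) - fc(h - a))| ≤ Z⁻¹ ∑_a fc(a) |h| = |h| H²/Z ≤ (3/2)|h|/H`
(`fc(h - a) = fc(a - h)`, `fc` is 1-Lipschitz, `∑_a fc(a) = H²`: this is `fej_expand` at `x = 0`).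
`A_H ≤ 1/(4 dz²)` (`geo_mul_le`), so `J_H(x) ≤ (3/(2H³)) /(16 dz⁴)`. -/

namespace Pool.Agent.Kro

open Finset

private theorem Jack_fc_nonneg (H : ℕ) (a : ℤ) : 0 ≤ fc H a := le_max_left _ _

private theorem Jack_fc_neg (H : ℕ) (a : ℤ) : fc H (-a) = fc H a := by
  unfold fc; push_cast; rw [abs_neg]

private theorem Jack_fc_zero (H : ℕ) (a : ℤ) (h : (H : ℤ) ≤ |a|) : fc H a = 0 := by
  unfold fc
  apply max_eq_left
  have : ((H : ℤ) : ℝ) ≤ ((|a| : ℤ) : ℝ) := by exact_mod_cast h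
  push_cast at this
  linarith

private theorem Jack_fc_eq (H : ℕ) (a : ℤ) (h : |a| ≤ (H : ℤ)) : fc H a = (H : ℝ) - |(a : ℝ)| := by
  unfold fc
  apply max_eq_right
  have : ((|a| : ℤ) : ℝ) ≤ ((H : ℤ) : ℝ) := by exact_mod_cast h
  push_cast at this
  linarith

private theorem Jack_fc_lip (H : ℕ) (a b : ℤ) : |fc H a - fc H b| ≤ |((a - b : ℤ) : ℝ)| := by
  unfold fc
  rw [max_comm 0, max_comm 0]
  refine le_trans (abs_max_sub_max_le_abs ((H : ℝ) - |(a : ℝ)|) ((H : ℝ) - |(b : ℝ)|) 0) ?_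
  have : ((H : ℝ) - |(a : ℝ)|) - ((H : ℝ) - |(b : ℝ)|) = |(b : ℝ)| - |(a : ℝ)| := by ring
  rw [this]
  refine le_trans (abs_abs_sub_abs_le_abs_sub _ _) ?_
  rw [abs_sub_comm]
  push_cast
  exact le_refl _

private theorem Jack_sum_fc (H : ℕ) : ∑ a ∈ Icc (-(H : ℤ)) H, fc H a = (H : ℝ) ^ 2 := by
  have h := fej_expand H 0
  unfold fk at h
  simp only [mul_zero, ee_zero, mul_one, sum_const, card_range, nsmul_eq_mul] at h
  have h2 : ((∑ a ∈ Icc (-(H : ℤ)) H, fc H a : ℝ) : ℂ) = (((H : ℝ) ^ 2 : ℝ) : ℂ) := by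
    rw [Complex.ofReal_sum, ← h]
    simp
  exact_mod_cast h2

private theorem Jack_Z (H : ℕ) : 2 / 3 * (H : ℝ) ^ 3 ≤ ∑ a ∈ Icc (-(H : ℤ)) H, fc H a ^ 2 := by
  induction H with
  | zero => simp [fc]
  | succ H ih =>
    have hsub : Icc (-(H : ℤ)) (H : ℤ) ⊆ Icc (-((H + 1 : ℕ) : ℤ)) ((H + 1 : ℕ) : ℤ) :=
      Finset.Icc_subset_Icc (by push_cast; omega) (by push_cast; omega)
    have h1 : ∑ a ∈ Icc (-(H : ℤ)) (H : ℤ), fc (H + 1) a ^ 2 ≤
        ∑ a ∈ Icc (-((H + 1 : ℕ) : ℤ)) ((H + 1 : ℕ) : ℤ), fc (H + 1) a ^ 2 :=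
      Finset.sum_le_sum_of_subset_of_nonneg hsub (fun _ _ _ => by positivity)
    have h2 : ∑ a ∈ Icc (-(H : ℤ)) (H : ℤ), fc (H + 1) a ^ 2 =
        ∑ a ∈ Icc (-(H : ℤ)) (H : ℤ), (fc H a ^ 2 + 2 * fc H a + 1) := by
      apply Finset.sum_congr rfl
      intro a ha
      rw [Finset.mem_Icc] at ha
      have ha' : |a| ≤ (H : ℤ) := abs_le.2 ha
      rw [Jack_fc_eq H a ha', Jack_fc_eq (H + 1) a (by push_cast; omega)]
      push_cast
      ring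
    rw [h2, Finset.sum_add_distrib, Finset.sum_add_distrib, ← Finset.mul_sum, Jack_sum_fc] at h1
    simp only [sum_const, Int.card_Icc, nsmul_eq_mul, mul_one] at h1
    have h3 : (((H : ℤ) + 1 - -(H : ℤ)).toNat : ℝ) = 2 * H + 1 := by
      have : ((H : ℤ) + 1 - -(H : ℤ)).toNat = 2 * H + 1 := by omega
      rw [this]; push_cast; ring
    rw [h3] at h1
    push_cast at h1 ⊢
    nlinarith

private theorem Jack_reflect (H : ℕ) (F : ℤ → ℝ) :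
    ∑ a ∈ Icc (-(H : ℤ)) H, F (-a) = ∑ a ∈ Icc (-(H : ℤ)) H, F a := by
  apply Finset.sum_nbij' (fun a => -a) (fun a => -a)
  · intro a ha; rw [Finset.mem_Icc] at ha ⊢; omega
  · intro a ha; rw [Finset.mem_Icc] at ha ⊢; omega
  · intro a _; simp
  · intro a _; simp
  · intro a _; simp

private theorem Jack_conv (H : ℕ) (x : ℝ) (b : ℤ) (hb : b ∈ Icc (-(H : ℤ)) H) :
    ∑ c ∈ Icc (-(H : ℤ)) H, (fc H c : ℂ) * ee (((b + c : ℤ) : ℝ) * x) =
      ∑ a ∈ Icc (-(2 * H : ℤ)) (2 * H), (fc H (a - b) : ℂ) * ee (a * x) := by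
  rw [Finset.mem_Icc] at hb
  have hsub : (Icc (-(H : ℤ)) (H : ℤ)).image (fun c => b + c) ⊆ Icc (-(2 * H : ℤ)) (2 * H) := by
    intro a ha
    obtain ⟨c, hc, rfl⟩ := Finset.mem_image.1 ha
    rw [Finset.mem_Icc] at hc ⊢
    omega
  rw [← Finset.sum_subset hsub, Finset.sum_image]
  · apply Finset.sum_congr rfl
    intro c _
    rw [add_sub_cancel_left]
  · intro c _ c' _ h
    simpa using h
  · intro a _ ha
    have : (H : ℤ) ≤ |a - b| := by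
      by_contra hcon
      push Not at hcon
      apply ha
      rw [Finset.mem_image]
      refine ⟨a - b, ?_, by ring⟩
      rw [Finset.mem_Icc]
      have := abs_lt.1 hcon
      omega
    rw [Jack_fc_zero H _ this]
    simp

theorem exists_jac (H : ℕ) (hH : 1 ≤ H) : ∃ (j : ℤ → ℝ) (J : ℝ → ℝ),
    (∀ a, j (-a) = j a) ∧ j 0 = 1 ∧ (∀ a : ℤ, 2 * (H : ℤ) - 1 ≤ |a| → j a = 0) ∧
    (∀ a : ℤ, |1 - j a| ≤ 3 / 2 * |(a : ℝ)| / H) ∧
    (∀ x, ((J x : ℝ) : ℂ) = ∑ a ∈ Icc (-(2 * H : ℤ)) (2 * H), (j a : ℂ) * ee (a * x)) ∧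
    (∀ x, 0 ≤ J x) ∧ ∀ x, J x * (32 * H ^ 3 * dz x ^ 4) ≤ 3 := by
  have hH0 : (1 : ℝ) ≤ H := by exact_mod_cast hH
  set Z : ℝ := ∑ a ∈ Icc (-(H : ℤ)) H, fc H a ^ 2 with hZ
  have hZ1 : 2 / 3 * (H : ℝ) ^ 3 ≤ Z := Jack_Z H
  have hH3 : (1 : ℝ) ≤ (H : ℝ) ^ 3 := one_le_pow₀ hH0
  have hZ0 : 0 < Z := by linarith
  refine ⟨fun h => Z⁻¹ * ∑ a ∈ Icc (-(H : ℤ)) H, fc H a * fc H (h - a), fun x => fk H x ^ 2 / Z,
    ?_, ?_, ?_, ?_, ?_, ?_, ?_⟩
  · intro a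
    simp only
    congr 1
    rw [← Jack_reflect]
    apply Finset.sum_congr rfl
    intro b _
    rw [Jack_fc_neg]
    have : -a - -b = -(a - b) := by ring
    rw [this, Jack_fc_neg]
  · simp only
    have : ∑ a ∈ Icc (-(H : ℤ)) (H : ℤ), fc H a * fc H (0 - a) = Z := by
      rw [hZ]
      apply Finset.sum_congr rfl
      intro a _
      rw [zero_sub, Jack_fc_neg, sq]
    rw [this, inv_mul_cancel₀ hZ0.ne']
  · intro a ha
    simp only
    rw [Finset.sum_eq_zero, mul_zero]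
    intro b _
    by_cases hb : (H : ℤ) ≤ |b|
    · rw [Jack_fc_zero H b hb, zero_mul]
    · rw [Jack_fc_zero H (a - b), mul_zero]
      have h1 : |a| ≤ |a - b| + |b| := by
        have := abs_add_le (a - b) b
        rwa [sub_add_cancel] at this
      omega
  · intro a
    simp only
    have e1 : 1 - Z⁻¹ * ∑ b ∈ Icc (-(H : ℤ)) (H : ℤ), fc H b * fc H (a - b) =
        Z⁻¹ * ∑ b ∈ Icc (-(H : ℤ)) (H : ℤ), fc H b * (fc H b - fc H (a - b)) := by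
      have : ∑ b ∈ Icc (-(H : ℤ)) (H : ℤ), fc H b * (fc H b - fc H (a - b)) =
          Z - ∑ b ∈ Icc (-(H : ℤ)) (H : ℤ), fc H b * fc H (a - b) := by
        rw [hZ, ← Finset.sum_sub_distrib]
        apply Finset.sum_congr rfl
        intro b _
        ring
      rw [this, mul_sub, inv_mul_cancel₀ hZ0.ne']
    rw [e1, abs_mul, abs_of_pos (inv_pos.2 hZ0)]
    have h2 : |∑ b ∈ Icc (-(H : ℤ)) (H : ℤ), fc H b * (fc H b - fc H (a - b))| ≤
        |(a : ℝ)| * (H : ℝ) ^ 2 := by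
      refine le_trans (Finset.abs_sum_le_sum_abs _ _) ?_
      rw [← Jack_sum_fc, Finset.mul_sum]
      apply Finset.sum_le_sum
      intro b _
      rw [abs_mul, abs_of_nonneg (Jack_fc_nonneg H b), mul_comm]
      apply mul_le_mul_of_nonneg_right _ (Jack_fc_nonneg H b)
      have h3 : fc H (a - b) = fc H (b - a) := by
        rw [← Jack_fc_neg]; congr 1; ring
      rw [h3]
      have h4 := Jack_fc_lip H b (b - a)
      have e : ((b - (b - a) : ℤ) : ℝ) = a := by push_cast; ring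
      rwa [e] at h4
    calc Z⁻¹ * |∑ b ∈ Icc (-(H : ℤ)) (H : ℤ), fc H b * (fc H b - fc H (a - b))|
        ≤ Z⁻¹ * (|(a : ℝ)| * (H : ℝ) ^ 2) := mul_le_mul_of_nonneg_left h2 (inv_pos.2 hZ0).le
      _ ≤ (2 / 3 * (H : ℝ) ^ 3)⁻¹ * (|(a : ℝ)| * (H : ℝ) ^ 2) := by
          apply mul_le_mul_of_nonneg_right _ (by positivity)
          exact inv_anti₀ (by positivity) hZ1
      _ = 3 / 2 * |(a : ℝ)| / H := by
          have : (H : ℝ) ≠ 0 := by linarith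
          field_simp
  · intro x
    simp only
    have e0 : ((fk H x ^ 2 / Z : ℝ) : ℂ) = ((Z⁻¹ : ℝ) : ℂ) * (((fk H x : ℝ) : ℂ) * ((fk H x : ℝ) : ℂ)) := by
      push_cast
      field_simp
    rw [e0, fej_expand, Finset.sum_mul_sum]
    have e1 : ∑ b ∈ Icc (-(H : ℤ)) (H : ℤ), ∑ c ∈ Icc (-(H : ℤ)) (H : ℤ),
        (fc H b : ℂ) * ee (b * x) * ((fc H c : ℂ) * ee (c * x)) =
        ∑ b ∈ Icc (-(H : ℤ)) (H : ℤ), ∑ a ∈ Icc (-(2 * H : ℤ)) (2 * H),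
          (fc H b : ℂ) * ((fc H (a - b) : ℂ) * ee (a * x)) := by
      apply Finset.sum_congr rfl
      intro b hb
      rw [← Finset.mul_sum (Icc (-(2 * H : ℤ)) (2 * H)), ← Jack_conv H x b hb, Finset.mul_sum]
      apply Finset.sum_congr rfl
      intro c _
      have : ee (((b + c : ℤ) : ℝ) * x) = ee (b * x) * ee (c * x) := by
        rw [← ee_add]; congr 1; push_cast; ring
      rw [this]
      ring
    rw [e1, Finset.sum_comm, Finset.mul_sum]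
    apply Finset.sum_congr rfl
    intro a _
    push_cast
    rw [Finset.mul_sum, Finset.mul_sum, Finset.sum_mul]
    apply Finset.sum_congr rfl
    intro b _
    ring
  · intro x
    positivity
  · intro x
    simp only
    have h1 := geo_mul_le H x
    have h0 : 0 ≤ dz x := dz_nonneg x
    set G : ℝ := ‖∑ k ∈ range H, ee (k * x)‖ with hG
    have hG0 : 0 ≤ G := norm_nonneg _
    have h2 : (2 * dz x * G) ^ 4 ≤ 1 := pow_le_one₀ (by positivity) h1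
    have h3 : fk H x = G ^ 2 := rfl
    rw [h3, div_mul_eq_mul_div, div_le_iff₀ hZ0]
    have h4 : (G ^ 2) ^ 2 * (32 * (H : ℝ) ^ 3 * dz x ^ 4) = 2 * H ^ 3 * (2 * dz x * G) ^ 4 := by ring
    rw [h4]
    have h5 : 2 * (H : ℝ) ^ 3 * (2 * dz x * G) ^ 4 ≤ 2 * H ^ 3 * 1 :=
      mul_le_mul_of_nonneg_left h2 (by positivity)
    linarith

end Pool.Agent.Kro
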