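import Pool.Agent.Kro.Child
import Pool.Agent.Kro.Par

/-! Module Lim: binary digits. `a(n) = corner n i / 2^(s n - n)` (`n ≤ s n`). Nestedness: `corner (k+1) i / nn (k+1) = corner k i`
(`child_mem`), so `corner l i / 2^(s l - s k) = corner k i` for `l ≥ k`; hence `a(n+1)/2 = a(n)`, `a(0) = 0`, and
`corner k i = corner n i / 2^(s n - n)` for `n = s k ≥ k`. `digit n = a(n+1) % 2`, so `∑_{m<n} digit m/2^(m+1) = a(n)/2^n`
and the tail is between `0` and `2^(-n)`. -/

namespace Pool.Agent.Kro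

open Finset

theorem digit_lt (d : ℕ) (i : Fin d) (n : ℕ) : digit d i n < 2 := by
  unfold digit
  exact Nat.mod_lt _ (by norm_num)

theorem Lim_step (d k : ℕ) (i : Fin d) :
    corner d (k + 1) i / 2 ^ (s d (k + 1) - s d k) = corner d k i := by
  have h1 : corner d (k + 1) ∈ desc (nn d (k + 1)) (corner d k) :=
    child_mem d (nn d (k + 1)) (nn_pos d (k + 1)) (corner d k) _
  unfold desc at h1
  rw [Fintype.mem_piFinset] at h1
  have h2 := h1 i
  rw [Finset.mem_Ico] at h2
  have h3 : nn d (k + 1) = 2 ^ (s d (k + 1) - s d k) := rfl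
  rw [← h3]
  have hn := nn_pos d (k + 1)
  apply Nat.div_eq_of_lt_le
  · exact h2.1
  · have : (corner d k i + 1) * nn d (k + 1) = corner d k i * nn d (k + 1) + nn d (k + 1) := by ring
    rw [this]
    exact h2.2

theorem Lim_nest (d k i' : ℕ) (i : Fin d) :
    corner d (k + i') i / 2 ^ (s d (k + i') - s d k) = corner d k i := by
  induction i' with
  | zero => simp
  | succ j ih =>
    have h1 : s d (k + (j + 1)) - s d k
        = (s d (k + j + 1) - s d (k + j)) + (s d (k + j) - s d k) := by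
      have a1 := s_mono d (Nat.le_add_right k j)
      have a2 := s_mono d (Nat.le_succ (k + j))
      have a3 : k + (j + 1) = k + j + 1 := by ring
      rw [a3]
      simp only [Nat.succ_eq_add_one] at a2
      omega
    rw [h1, pow_add, ← Nat.div_div_eq_div_mul]
    have h2 := Lim_step d (k + j) i
    have a3 : k + (j + 1) = k + j + 1 := by ring
    rw [a3, h2]
    exact ih

noncomputable def Lim_a (d : ℕ) (i : Fin d) (n : ℕ) : ℕ := corner d n i / 2 ^ (s d n - n)

theorem Lim_a_zero (d : ℕ) (i : Fin d) : Lim_a d i 0 = 0 := by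
  unfold Lim_a
  show (0 : ℕ) / _ = 0
  simp

theorem Lim_a_half (d : ℕ) (i : Fin d) (n : ℕ) : Lim_a d i (n + 1) / 2 = Lim_a d i n := by
  unfold Lim_a
  have a1 := s_ge d (n + 1)
  have a2 := s_ge d n
  have a3 := s_mono d (Nat.le_succ n)
  simp only [Nat.succ_eq_add_one] at a3
  rw [Nat.div_div_eq_div_mul]
  have h1 : 2 ^ (s d (n + 1) - (n + 1)) * 2
      = 2 ^ (s d (n + 1) - s d n) * 2 ^ (s d n - n) := by
    rw [← pow_succ, ← pow_add]
    congr 1
    omega
  rw [h1, ← Nat.div_div_eq_div_mul, Lim_step]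

theorem Lim_a_succ (d : ℕ) (i : Fin d) (n : ℕ) :
    Lim_a d i (n + 1) = 2 * Lim_a d i n + digit d i n := by
  have h1 := Lim_a_half d i n
  have h2 : digit d i n = Lim_a d i (n + 1) % 2 := rfl
  omega

theorem Lim_sum (d : ℕ) (i : Fin d) (n : ℕ) :
    ∑ m ∈ range n, (digit d i m : ℝ) / 2 ^ (m + 1) = (Lim_a d i n : ℝ) / 2 ^ n := by
  induction n with
  | zero => simp [Lim_a_zero]
  | succ n ih =>
    rw [Finset.sum_range_succ, ih, Lim_a_succ]
    push_cast
    rw [pow_succ]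
    field_simp

theorem Lim_corner (d k : ℕ) (i : Fin d) : Lim_a d i (s d k) = corner d k i := by
  unfold Lim_a
  have a1 := s_ge d k
  obtain ⟨j, hj⟩ : ∃ j, s d k = k + j := ⟨s d k - k, by omega⟩
  have h1 := Lim_nest d k j i
  rw [← hj] at h1
  exact h1

theorem Lim_nonneg (d : ℕ) (i : Fin d) (n : ℕ) : 0 ≤ (digit d i n : ℝ) / 2 ^ (n + 1) := by
  positivity

theorem Lim_tail (d : ℕ) (i : Fin d) (n j : ℕ) :
    ∑ m ∈ range (n + j), (digit d i m : ℝ) / 2 ^ (m + 1)
      ≤ (Lim_a d i n : ℝ) / 2 ^ n + (1 / 2 ^ n - 1 / 2 ^ (n + j)) := by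
  induction j with
  | zero => rw [add_zero, Lim_sum]; simp
  | succ j ih =>
    rw [← add_assoc, Finset.sum_range_succ]
    have h1 : (digit d i (n + j) : ℝ) ≤ 1 := by
      have := digit_lt d i (n + j)
      have h2 : digit d i (n + j) ≤ 1 := by omega
      exact_mod_cast h2
    have h2 : (digit d i (n + j) : ℝ) / 2 ^ (n + j + 1) ≤ 1 / 2 ^ (n + j + 1) :=
      div_le_div_of_nonneg_right h1 (by positivity)
    have h3 : (1 : ℝ) / 2 ^ (n + j) = 2 * (1 / 2 ^ (n + j + 1)) := by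
      rw [pow_succ]
      field_simp
    linarith

theorem Lim_bound (d : ℕ) (i : Fin d) (n N : ℕ) :
    ∑ m ∈ range N, (digit d i m : ℝ) / 2 ^ (m + 1) ≤ ((Lim_a d i n : ℝ) + 1) / 2 ^ n := by
  have h1 : ∑ m ∈ range N, (digit d i m : ℝ) / 2 ^ (m + 1)
      ≤ ∑ m ∈ range (n + N), (digit d i m : ℝ) / 2 ^ (m + 1) := by
    apply Finset.sum_le_sum_of_subset_of_nonneg
    · intro m hm
      rw [Finset.mem_range] at *
      omega
    · intro m _ _
      exact Lim_nonneg d i m
  have h2 := Lim_tail d i n N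
  have h3 : (0 : ℝ) ≤ 1 / 2 ^ (n + N) := by positivity
  rw [add_div]
  linarith

theorem Lim_summable (d : ℕ) (i : Fin d) :
    Summable (fun n : ℕ => (digit d i n : ℝ) / 2 ^ (n + 1)) :=
  summable_of_sum_range_le (Lim_nonneg d i) (Lim_bound d i 0)

theorem alpha_ge (d k : ℕ) (i : Fin d) : (corner d k i : ℝ) / 2 ^ (s d k) ≤ alpha d i := by
  rw [← Lim_corner, ← Lim_sum]
  exact (Lim_summable d i).sum_le_tsum _ (fun m _ => Lim_nonneg d i m)

theorem alpha_le (d k : ℕ) (i : Fin d) : alpha d i ≤ ((corner d k i : ℝ) + 1) / 2 ^ (s d k) := by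
  rw [← Lim_corner]
  exact Real.tsum_le_of_sum_range_le (Lim_nonneg d i) (Lim_bound d i _)

end Pool.Agent.Kro
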