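import Pool.Agent.Kro.Expd
import Pool.Agent.Kro.Blk

/-! Module MainD: the main terms. `U m n = ∑_{|j| = m} ∏ D_i(j_i)(n α_i) = ∑_{|j| = m} ∑_{h ∈ bx} (∏ cD_i (j_i) (h_i)) e(n h·α)` (`expd`, `Dec.fD`).
Zero frequency: `∏ cD_i (j_i) 0` is `0` if some `j_i ≠ 0` (`Dec.zj`), i.e. if `m ≠ 0`; for `m = 0` (`j = 0`) it is `∏ μ_i` (`Dec.zμ`), and `bm_one`.
Other frequencies: `coef_le`, `bm_ee`. (`Bm m N` is linear in `P`.) -/

namespace Pool.Agent.Kro

open Finset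

theorem MainD_lin {ι : Type*} (m N : ℕ) (S : Finset ι) (P : ι → ℕ → ℂ) :
    Bm m N (fun n => ∑ j ∈ S, P j n) = ∑ j ∈ S, Bm m N (P j) := by
  unfold Bm
  rw [← Finset.mul_sum]
  congr 1
  have h1 : ∀ u ∈ range (2 ^ m), ∑ n ∈ range N, ∑ j ∈ S, P j (n + u)
      = ∑ j ∈ S, ∑ n ∈ range N, P j (n + u) := by
    intro u _
    exact Finset.sum_comm
  rw [Finset.sum_congr rfl h1]
  exact Finset.sum_comm

theorem MainD_smul (m N : ℕ) (c : ℂ) (P : ℕ → ℂ) :
    Bm m N (fun n => c * P n) = c * Bm m N P := by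
  unfold Bm
  simp only [← Finset.mul_sum]
  ring

theorem MainD_exp (d : ℕ) (f : Fin d → ℝ → ℝ) (μ : Fin d → ℝ) (C : ℝ)
    (D Ψ : Fin d → ℕ → ℝ → ℝ) (cD cΨ : Fin d → ℕ → ℤ → ℂ)
    (hD : ∀ i, Dec (f i) (μ i) C (D i) (Ψ i) (cD i) (cΨ i))
    (α : Fin d → ℝ) (j : Fin d → ℕ) (n : ℕ) :
    ∏ i, ((D i (j i) (n * α i) : ℝ) : ℂ)
      = ∑ h ∈ bx (fun i => 2 ^ (j i + 1)), (∏ i, cD i (j i) (h i)) * ee (n * ip h α) := by
  have h1 := expd d (fun i => 2 ^ (j i + 1)) (fun i => cD i (j i)) (fun i => (n : ℝ) * α i)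
  have h2 : ∀ i, ((D i (j i) (n * α i) : ℝ) : ℂ)
      = ∑ h ∈ Icc (-(((2 ^ (j i + 1) : ℕ) : ℤ))) (((2 ^ (j i + 1) : ℕ) : ℤ)),
        cD i (j i) h * ee (h * ((n : ℝ) * α i)) := by
    intro i
    rw [(hD i).fD (j i) (n * α i)]
    push_cast
    rfl
  rw [Finset.prod_congr rfl (fun i _ => h2 i), h1]
  refine Finset.sum_congr rfl ?_
  intro h _
  rw [ip_smul]

theorem main_term (d : ℕ) (f : Fin d → ℝ → ℝ) (μ : Fin d → ℝ) (C : ℝ) (hC : 0 ≤ C)
    (D Ψ : Fin d → ℕ → ℝ → ℝ) (cD cΨ : Fin d → ℕ → ℤ → ℂ)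
    (hD : ∀ i, Dec (f i) (μ i) C (D i) (Ψ i) (cD i) (cΨ i))
    (α : Fin d → ℝ) (hα : ∀ h : Fin d → ℤ, h ≠ 0 → dz (ip h α) ≠ 0) (m N : ℕ) :
    ‖Bm m N (fun n => ∑ j ∈ piAntidiag (univ : Finset (Fin d)) m, ∏ i, ((D i (j i) (n * α i) : ℝ) : ℂ))
        - (if m = 0 then (N : ℂ) * ∏ i, (μ i : ℂ) else 0)‖
      ≤ C ^ d * ∑ j ∈ piAntidiag (univ : Finset (Fin d)) m,
          ∑ h ∈ (bx fun i => 2 ^ (j i + 1)).filter (· ≠ 0), (1 / 2 ^ m) * gm m (dz (ip h α)) := by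
  classical
  have h1 : (fun n : ℕ => ∑ j ∈ piAntidiag (univ : Finset (Fin d)) m,
        ∏ i, ((D i (j i) (n * α i) : ℝ) : ℂ))
      = fun n : ℕ => ∑ j ∈ piAntidiag (univ : Finset (Fin d)) m,
        ∑ h ∈ bx (fun i => 2 ^ (j i + 1)), (∏ i, cD i (j i) (h i)) * ee (n * ip h α) := by
    funext n
    refine Finset.sum_congr rfl ?_
    intro j _
    exact MainD_exp d f μ C D Ψ cD cΨ hD α j n
  rw [h1, MainD_lin]
  have h2 : ∀ j ∈ piAntidiag (univ : Finset (Fin d)) m,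
      Bm m N (fun n : ℕ => ∑ h ∈ bx (fun i => 2 ^ (j i + 1)),
        (∏ i, cD i (j i) (h i)) * ee (n * ip h α))
      = (N : ℂ) * (∏ i, cD i (j i) 0)
        + ∑ h ∈ (bx (fun i => 2 ^ (j i + 1))).filter (· ≠ 0),
          (∏ i, cD i (j i) (h i)) * Bm m N (fun n : ℕ => ee (n * ip h α)) := by
    intro j _
    rw [MainD_lin]
    simp only [MainD_smul]
    have h0 : (0 : Fin d → ℤ) ∈ bx (fun i => 2 ^ (j i + 1)) := by
      unfold bx
      rw [Fintype.mem_piFinset]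
      intro i
      rw [Finset.mem_Icc]
      constructor
      · simp
      · simp
    rw [← Finset.add_sum_erase _ _ h0]
    have he : (bx (fun i => 2 ^ (j i + 1))).erase 0
        = (bx (fun i => 2 ^ (j i + 1))).filter (· ≠ 0) := by
      ext h
      simp only [Finset.mem_erase, Finset.mem_filter]
      tauto
    rw [he]
    congr 1
    have hz : (fun n : ℕ => ee (n * ip (0 : Fin d → ℤ) α)) = fun _ => (1 : ℂ) := by
      funext n
      unfold ee ip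
      simp
    rw [hz, bm_one]
    simp only [Pi.zero_apply]
    ring
  rw [Finset.sum_congr rfl h2, Finset.sum_add_distrib, ← Finset.mul_sum]
  have h3 : (N : ℂ) * ∑ j ∈ piAntidiag (univ : Finset (Fin d)) m, ∏ i, cD i (j i) 0
      = (if m = 0 then (N : ℂ) * ∏ i, (μ i : ℂ) else 0) := by
    split_ifs with hm
    · subst hm
      rw [Finset.piAntidiag_zero, Finset.sum_singleton]
      congr 1
      refine Finset.prod_congr rfl ?_
      intro i _
      exact (hD i).zμ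
    · have hz : ∀ j ∈ piAntidiag (univ : Finset (Fin d)) m, ∏ i, cD i (j i) 0 = 0 := by
        intro j hj
        rw [Finset.mem_piAntidiag] at hj
        have hex : ∃ i, j i ≠ 0 := by
          by_contra hcon
          push Not at hcon
          apply hm
          rw [← hj.1]
          simp [hcon]
        obtain ⟨i, hi⟩ := hex
        exact Finset.prod_eq_zero (Finset.mem_univ i) ((hD i).zj (j i) hi)
      rw [Finset.sum_eq_zero hz, mul_zero]
  rw [h3, add_sub_cancel_left, Finset.mul_sum]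
  refine le_trans (norm_sum_le _ _) (Finset.sum_le_sum ?_)
  intro j hj
  rw [Finset.mul_sum]
  refine le_trans (norm_sum_le _ _) (Finset.sum_le_sum ?_)
  intro h hh
  rw [Finset.mem_filter] at hh
  rw [norm_mul]
  have ha := coef_le d C j (fun i => cD i (j i)) hC (fun i h => (hD i).bD (j i) h) h
  have hb := bm_ee m N (ip h α) (hα h hh.2)
  rw [Finset.mem_piAntidiag] at hj
  rw [hj.1] at ha
  calc ‖∏ i, cD i (j i) (h i)‖ * ‖Bm m N (fun n : ℕ => ee (n * ip h α))‖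
      ≤ (C ^ d / 2 ^ m) * gm m (dz (ip h α)) :=
        mul_le_mul ha hb (norm_nonneg _) (by positivity)
    _ = C ^ d * ((1 / 2 ^ m) * gm m (dz (ip h α))) := by ring

end Pool.Agent.Kro
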