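import Pool.Agent.Kro.Trig

/-! Module Tent: sums of a nonnegative trigonometric sum over an interval of length `L = 2^(m+1)`.
For `0 ≤ t < L` there are `2L - t ≥ L` pairs `(a,b) ∈ [0,2L)²` with `a - b = t`, so
`L ∑_{t<L} g(M+t) ≤ ∑_{a,b<2L} g(M+a-b)`. The right side is `∑_h c_h e(Mθ_h) |∑_{a<2L} e(aθ_h)|²`, and
`|∑_{a<2L} e(aθ)|² ≤ min(4L², 1/(4 dz²))`. So the factor `(1/L)|..|²` is `≤ 4L` always, and `≤ 8 · gm m (dz θ)` if `dz θ ≠ 0`. -/

namespace Pool.Agent.Kro

open Finset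

/-- the factor of a frequency -/
noncomputable def tn (m : ℕ) (t : ℝ) : ℝ := if t = 0 then 8 * 2 ^ m else 8 * gm m t

theorem Tent_factor (m : ℕ) (θ : ℝ) :
    ‖∑ a ∈ range (2 * 2 ^ (m + 1)), ee (a * θ)‖ ^ 2 ≤ 2 ^ (m + 1) * tn m (dz θ) := by
  set S : ℝ := ‖∑ a ∈ range (2 * 2 ^ (m + 1)), ee (a * θ)‖ with hS
  set t : ℝ := dz θ with ht
  have hS0 : 0 ≤ S := norm_nonneg _
  have h1 : S ≤ 2 * 2 ^ (m + 1) := by
    have := geo_le (2 * 2 ^ (m + 1)) θ
    push_cast at this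
    exact this
  have h2 : 2 * t * S ≤ 1 := geo_mul_le (2 * 2 ^ (m + 1)) θ
  have ht0 : 0 ≤ t := dz_nonneg θ
  have hL : (2 : ℝ) ^ (m + 1) = 2 * 2 ^ m := by ring
  have hm : (0 : ℝ) < 2 ^ m := by positivity
  rw [hL] at h1 ⊢
  unfold tn gm
  split_ifs with c1 c2
  · nlinarith
  · have ht1 : 0 < t := lt_of_le_of_ne ht0 (Ne.symm c1)
    have h3 : S ^ 2 * t ≤ 16 * 2 ^ m := by nlinarith [mul_nonneg ht0 hS0]
    calc S ^ 2 = S ^ 2 * t / t := by field_simp
      _ ≤ 16 * 2 ^ m / t := div_le_div_of_nonneg_right h3 ht0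
      _ = 2 * 2 ^ m * (8 * (1 / t)) := by ring
  · have ht1 : 0 < t := lt_of_le_of_ne ht0 (Ne.symm c1)
    have h3 : S ^ 2 * t ^ 2 ≤ 1 := by
      have : (S * t) ^ 2 ≤ 1 := by
        apply pow_le_one₀ (by positivity)
        nlinarith [mul_nonneg hS0 ht0]
      nlinarith
    calc S ^ 2 = S ^ 2 * t ^ 2 / t ^ 2 := by field_simp
      _ ≤ 16 / t ^ 2 := div_le_div_of_nonneg_right (by linarith) (by positivity)
      _ = 2 * 2 ^ m * (8 * (1 / (2 ^ m * t ^ 2))) := by field_simp; norm_num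

theorem tent {ι : Type*} (s : Finset ι) (c : ι → ℂ) (θ : ι → ℝ) (g : ℤ → ℝ) (hg : ∀ n, 0 ≤ g n)
    (h : ∀ n : ℤ, ((g n : ℝ) : ℂ) = ∑ h ∈ s, c h * ee (n * θ h)) (m : ℕ) (M : ℤ) :
    ∑ t ∈ range (2 ^ (m + 1)), g (M + t) ≤ ∑ h ∈ s, ‖c h‖ * tn m (dz (θ h)) := by
  set L : ℕ := 2 ^ (m + 1) with hL
  have hLp : (0 : ℝ) < L := by rw [hL]; positivity
  have hLr : (L : ℝ) = 2 ^ (m + 1) := by rw [hL]; push_cast; rfl
  have h1 : (L : ℝ) * ∑ t ∈ range L, g (M + t) ≤
      ∑ b ∈ range (2 * L), ∑ a ∈ range (2 * L), g (M + a - b) := by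
    calc (L : ℝ) * ∑ t ∈ range L, g (M + t) = ∑ b ∈ range L, ∑ t ∈ range L, g (M + t) := by
          rw [sum_const, card_range, nsmul_eq_mul]
      _ = ∑ b ∈ range L, ∑ a ∈ Ico b (b + L), g (M + a - b) := by
          refine sum_congr rfl (fun b _ => ?_)
          rw [sum_Ico_eq_sum_range, Nat.add_sub_cancel_left]
          refine sum_congr rfl (fun t _ => ?_)
          congr 1
          push_cast; ring
      _ ≤ ∑ b ∈ range L, ∑ a ∈ range (2 * L), g (M + a - b) := by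
          refine sum_le_sum (fun b hb => ?_)
          rw [mem_range] at hb
          apply sum_le_sum_of_subset_of_nonneg
          · intro x hx
            rw [mem_Ico] at hx
            rw [mem_range]
            omega
          · intro i _ _
            exact hg _
      _ ≤ ∑ b ∈ range (2 * L), ∑ a ∈ range (2 * L), g (M + a - b) := by
          apply sum_le_sum_of_subset_of_nonneg
          · intro x hx
            rw [mem_range] at hx ⊢
            omega
          · intro i _ _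
            exact sum_nonneg (fun _ _ => hg _)
  have h2 : ((∑ b ∈ range (2 * L), ∑ a ∈ range (2 * L), g (M + a - b) : ℝ) : ℂ) =
      ∑ j ∈ s, c j * ee (M * θ j) * ((‖∑ a ∈ range (2 * L), ee (a * θ j)‖ ^ 2 : ℝ) : ℂ) := by
    push_cast
    simp only [h]
    calc ∑ b ∈ range (2 * L), ∑ a ∈ range (2 * L), ∑ j ∈ s, c j * ee (((M + a - b : ℤ) : ℝ) * θ j)
        = ∑ j ∈ s, ∑ b ∈ range (2 * L), ∑ a ∈ range (2 * L), c j * ee (((M + a - b : ℤ) : ℝ) * θ j) := by
          rw [sum_congr rfl (fun b _ => sum_comm), sum_comm]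
      _ = _ := by
          refine sum_congr rfl (fun j _ => ?_)
          rw [← Complex.mul_conj', map_sum, sum_mul_sum, mul_sum, sum_comm]
          refine sum_congr rfl (fun a _ => ?_)
          rw [mul_sum]
          refine sum_congr rfl (fun b _ => ?_)
          have h3 : (starRingEnd ℂ) (ee (b * θ j)) = ee (-(b * θ j)) := (ee_neg _).symm
          rw [h3, ← ee_add, mul_assoc, ← ee_add]
          congr 2
          push_cast; ring
  have h3 : ∑ b ∈ range (2 * L), ∑ a ∈ range (2 * L), g (M + a - b) ≤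
      ∑ j ∈ s, ‖c j‖ * (L * tn m (dz (θ j))) := by
    have h4 : ∑ b ∈ range (2 * L), ∑ a ∈ range (2 * L), g (M + a - b) ≤
        ‖((∑ b ∈ range (2 * L), ∑ a ∈ range (2 * L), g (M + a - b) : ℝ) : ℂ)‖ := by
      rw [Complex.norm_real]
      exact Real.le_norm_self _
    refine le_trans h4 ?_
    rw [h2]
    refine le_trans (norm_sum_le _ _) (sum_le_sum (fun j _ => ?_))
    rw [norm_mul, norm_mul, norm_ee, mul_one, Complex.norm_real, Real.norm_of_nonneg (by positivity)]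
    apply mul_le_mul_of_nonneg_left _ (norm_nonneg _)
    have := Tent_factor m (θ j)
    rw [hLr]
    exact this
  have h5 : (L : ℝ) * ∑ t ∈ range L, g (M + t) ≤ L * ∑ j ∈ s, ‖c j‖ * tn m (dz (θ j)) := by
    refine le_trans h1 (le_trans h3 ?_)
    rw [mul_sum]
    refine sum_le_sum (fun j _ => ?_)
    apply le_of_eq; ring
  exact le_of_mul_le_mul_left h5 hLp

end Pool.Agent.Kro
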