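import Pool.Agent.Kro.Expd
import Pool.Agent.Kro.Tent

/-! Module MainE: the error terms. For fixed `j`, `|j| = m`: `g(n) = ∏ Ψ_i(j_i)(n α_i)` (`n ∈ ℤ`) is `≥ 0` (`|D| ≤ Ψ`) and is
`∑_{h ∈ bx} (∏ cΨ_i (j_i) (h_i)) e(n h·α)` (`expd`, `Dec.fΨ`). `tent` with `coef_le`: the frequency `0` contributes `≤ C^d/2^m · 8 · 2^m`,
the others `≤ C^d/2^m · 8 gm m (dz ..)`. -/

namespace Pool.Agent.Kro

open Finset

theorem MainE_gm_nonneg (m : ℕ) (t : ℝ) (ht : 0 ≤ t) : 0 ≤ gm m t := by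
  unfold gm
  split_ifs <;> positivity

theorem MainE_exp (d : ℕ) (f : Fin d → ℝ → ℝ) (μ : Fin d → ℝ) (C : ℝ)
    (D Ψ : Fin d → ℕ → ℝ → ℝ) (cD cΨ : Fin d → ℕ → ℤ → ℂ)
    (hD : ∀ i, Dec (f i) (μ i) C (D i) (Ψ i) (cD i) (cΨ i))
    (α : Fin d → ℝ) (j : Fin d → ℕ) (n : ℝ) :
    ∏ i, ((Ψ i (j i) (n * α i) : ℝ) : ℂ)
      = ∑ h ∈ bx (fun i => 2 ^ (j i + 1)), (∏ i, cΨ i (j i) (h i)) * ee (n * ip h α) := by
  have h1 := expd d (fun i => 2 ^ (j i + 1)) (fun i => cΨ i (j i)) (fun i => (n : ℝ) * α i)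
  have h2 : ∀ i, ((Ψ i (j i) (n * α i) : ℝ) : ℂ)
      = ∑ h ∈ Icc (-(((2 ^ (j i + 1) : ℕ) : ℤ))) (((2 ^ (j i + 1) : ℕ) : ℤ)),
        cΨ i (j i) h * ee (h * ((n : ℝ) * α i)) := by
    intro i
    rw [(hD i).fΨ (j i) (n * α i)]
    push_cast
    rfl
  rw [Finset.prod_congr rfl (fun i _ => h2 i), h1]
  refine Finset.sum_congr rfl ?_
  intro h _
  rw [ip_smul]

theorem err_term (d : ℕ) (f : Fin d → ℝ → ℝ) (μ : Fin d → ℝ) (C : ℝ) (hC : 0 ≤ C)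
    (D Ψ : Fin d → ℕ → ℝ → ℝ) (cD cΨ : Fin d → ℕ → ℤ → ℂ)
    (hD : ∀ i, Dec (f i) (μ i) C (D i) (Ψ i) (cD i) (cΨ i))
    (α : Fin d → ℝ) (hα : ∀ h : Fin d → ℤ, h ≠ 0 → dz (ip h α) ≠ 0) (m M : ℕ) :
    ∑ n ∈ range (2 ^ (m + 1)), ∑ j ∈ piAntidiag (univ : Finset (Fin d)) m,
        ∏ i, Ψ i (j i) (((M + n : ℕ) : ℝ) * α i)
      ≤ 8 * C ^ d * ∑ j ∈ piAntidiag (univ : Finset (Fin d)) m,
          (1 + ∑ h ∈ (bx fun i => 2 ^ (j i + 1)).filter (· ≠ 0), (1 / 2 ^ m) * gm m (dz (ip h α))) := by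
  classical
  rw [Finset.sum_comm, Finset.mul_sum]
  refine Finset.sum_le_sum ?_
  intro j hj
  have hnn : ∀ i k x, 0 ≤ Ψ i k x := fun i k x => le_trans (abs_nonneg _) ((hD i).le1 k x)
  have h1 := tent (bx (fun i => 2 ^ (j i + 1))) (fun h => ∏ i, cΨ i (j i) (h i))
    (fun h => ip h α) (fun n : ℤ => ∏ i, Ψ i (j i) ((n : ℝ) * α i))
    (fun n => Finset.prod_nonneg (fun i _ => hnn i _ _))
    (by
      intro n
      have := MainE_exp d f μ C D Ψ cD cΨ hD α j (n : ℝ)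
      push_cast
      rw [this])
    m (M : ℤ)
  have h2 : ∑ n ∈ range (2 ^ (m + 1)), ∏ i, Ψ i (j i) (((M + n : ℕ) : ℝ) * α i)
      = ∑ t ∈ range (2 ^ (m + 1)),
        (fun n : ℤ => ∏ i, Ψ i (j i) ((n : ℝ) * α i)) ((M : ℤ) + (t : ℤ)) := by
    refine Finset.sum_congr rfl ?_
    intro t _
    push_cast
    rfl
  rw [h2]
  refine le_trans h1 ?_
  have h0 : (0 : Fin d → ℤ) ∈ bx (fun i => 2 ^ (j i + 1)) := by
    unfold bx
    rw [Fintype.mem_piFinset]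
    intro i
    rw [Finset.mem_Icc]
    constructor
    · simp
    · simp
  rw [← Finset.add_sum_erase _ _ h0]
  have he : (bx (fun i => 2 ^ (j i + 1))).erase 0
      = (bx (fun i => 2 ^ (j i + 1))).filter (· ≠ 0) := by
    ext h
    simp only [Finset.mem_erase, Finset.mem_filter]
    tauto
  rw [he, mul_add, mul_one]
  rw [Finset.mem_piAntidiag] at hj
  have hc : ∀ h : Fin d → ℤ, ‖∏ i, cΨ i (j i) (h i)‖ ≤ C ^ d / 2 ^ m := by
    intro h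
    have ha := coef_le d C j (fun i => cΨ i (j i)) hC (fun i h => (hD i).bΨ (j i) h) h
    rw [hj.1] at ha
    exact ha
  refine add_le_add ?_ ?_
  · have hz : dz (ip (0 : Fin d → ℤ) α) = 0 := by
      unfold dz ip
      simp
    rw [hz]
    have ht : tn m 0 = 8 * 2 ^ m := by
      unfold tn
      simp
    rw [ht]
    calc ‖∏ i, cΨ i (j i) ((0 : Fin d → ℤ) i)‖ * (8 * 2 ^ m)
        ≤ (C ^ d / 2 ^ m) * (8 * 2 ^ m) := mul_le_mul_of_nonneg_right (hc 0) (by positivity)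
      _ = 8 * C ^ d := by
        field_simp
  · rw [Finset.mul_sum]
    refine Finset.sum_le_sum ?_
    intro h hh
    rw [Finset.mem_filter] at hh
    have ht : tn m (dz (ip h α)) = 8 * gm m (dz (ip h α)) := by
      unfold tn
      rw [if_neg (hα h hh.2)]
    rw [ht]
    have hg : 0 ≤ gm m (dz (ip h α)) := MainE_gm_nonneg m _ (dz_nonneg _)
    calc ‖∏ i, cΨ i (j i) (h i)‖ * (8 * gm m (dz (ip h α)))
        ≤ (C ^ d / 2 ^ m) * (8 * gm m (dz (ip h α))) :=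
          mul_le_mul_of_nonneg_right (hc h) (by positivity)
      _ = 8 * C ^ d * ((1 / 2 ^ m) * gm m (dz (ip h α))) := by ring

end Pool.Agent.Kro
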