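import Pool.Agent.Kro.MainD
import Pool.Agent.Kro.MainE
import Pool.Agent.Kro.Alg
import Pool.Agent.Kro.Dec1

/-! Module MainF: assembly of `exists_dec` (one per coordinate), `prod_approx`, `blk_main`, `main_term`, `err_term`.
`P n = ∏ ind (a i) (b i) (n α_i)`, `U m n = ∑_{|j|=m} ∏ D_i (j_i) (n α_i)`, `W m n = d ∑_{|j|=m} ∏ Ψ_i (j_i) (n α_i)`.
`∑_{m ≤ K} [m = 0] N ∏ (b - a) = N ∏ (b - a)`. -/

namespace Pool.Agent.Kro

open Finset

theorem main_ineq (d : ℕ) : ∃ C : ℝ, 0 ≤ C ∧ ∀ α : Fin d → ℝ,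
    (∀ h : Fin d → ℤ, h ≠ 0 → dz (ip h α) ≠ 0) →
    ∀ a b : Fin d → ℝ, (∀ i, 0 ≤ a i ∧ a i ≤ b i ∧ b i ≤ 1) → ∀ K N : ℕ, N ≤ 2 ^ K →
    |∑ n ∈ range N, ∏ i, ind (a i) (b i) (n * α i) - N * ∏ i, (b i - a i)|
      ≤ C * ∑ m ∈ range (K + 1), ∑ j ∈ piAntidiag (univ : Finset (Fin d)) m,
          (1 + ∑ h ∈ (bx fun i => 2 ^ (j i + 1)).filter (· ≠ 0), (1 / 2 ^ m) * gm m (dz (ip h α))) := by
  classical
  refine ⟨160 ^ d * (1 + 32 * d), by positivity, ?_⟩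
  intro α hα a b hab K N hN
  have hex := fun i => exists_dec (a i) (b i) (hab i).1 (hab i).2.1 (hab i).2.2
  choose D Ψ cD cΨ hD using hex
  set P : ℕ → ℂ := fun n => ((∏ i, ind (a i) (b i) (n * α i) : ℝ) : ℂ) with hP
  set U : ℕ → ℕ → ℂ := fun m n => ∑ j ∈ piAntidiag (univ : Finset (Fin d)) m,
    ∏ i, ((D i (j i) (n * α i) : ℝ) : ℂ) with hU
  set V : ℕ → ℕ → ℝ := fun m n => ∑ j ∈ piAntidiag (univ : Finset (Fin d)) m,
    ∏ i, Ψ i (j i) ((n : ℝ) * α i) with hV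
  set W : ℕ → ℕ → ℝ := fun m n => d * V m n with hW
  set T : ℕ → ℝ := fun m => ∑ j ∈ piAntidiag (univ : Finset (Fin d)) m,
    (1 + ∑ h ∈ (bx fun i => 2 ^ (j i + 1)).filter (· ≠ 0), (1 / 2 ^ m) * gm m (dz (ip h α))) with hT
  have hPW : ∀ m n, ‖P n - ∑ m' ∈ range (m + 1), U m' n‖ ≤ W m n := by
    intro m n
    have h1 := prod_approx d (fun i => ind (a i) (b i) (n * α i)) (fun i j => D i j (n * α i))
      (fun i j => Ψ i j (n * α i)) (fun i => (hD i).f1 _) (fun i j => (hD i).le1 j _)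
      (fun i m => (hD i).le2 m _) (fun i => (hD i).le0 _) m
    have h2 : P n - ∑ m' ∈ range (m + 1), U m' n
        = ((∏ i, ind (a i) (b i) (n * α i) - ∑ n' ∈ range (m + 1),
          ∑ j ∈ piAntidiag (univ : Finset (Fin d)) n', ∏ i, D i (j i) (n * α i) : ℝ) : ℂ) := by
      simp only [hP, hU]
      push_cast
      rfl
    rw [h2, Complex.norm_real, Real.norm_eq_abs]
    exact h1
  have hmain := blk_main K N hN P U W hPW
  have hB : ∀ m, ‖Bm m N (U m) - (if m = 0 then (N : ℂ) * ∏ i, ((b i - a i : ℝ) : ℂ) else 0)‖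
      ≤ 160 ^ d * T m := by
    intro m
    refine le_trans (main_term d (fun i => ind (a i) (b i)) (fun i => b i - a i) 160 (by norm_num)
      D Ψ cD cΨ hD α hα m N) ?_
    refine mul_le_mul_of_nonneg_left ?_ (by positivity)
    refine Finset.sum_le_sum ?_
    intro j _
    linarith
  have hE : ∀ M m : ℕ, ∑ n ∈ range (2 ^ (m + 1)), V m (M + n) ≤ 8 * 160 ^ d * T m := by
    intro M m
    exact err_term d (fun i => ind (a i) (b i)) (fun i => b i - a i) 160 (by norm_num)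
      D Ψ cD cΨ hD α hα m M
  have hEsum : ∀ m : ℕ, ∑ n ∈ range (2 ^ (m + 1)), (W m n + W m (N + n))
      ≤ 16 * d * 160 ^ d * T m := by
    intro m
    have h0 := hE 0 m
    have h1 := hE N m
    simp only [zero_add] at h0
    rw [Finset.sum_add_distrib]
    simp only [hW]
    rw [← Finset.mul_sum, ← Finset.mul_sum]
    have hd0 : (0 : ℝ) ≤ d := Nat.cast_nonneg d
    calc (d : ℝ) * ∑ n ∈ range (2 ^ (m + 1)), V m n + d * ∑ n ∈ range (2 ^ (m + 1)), V m (N + n)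
        ≤ d * (8 * 160 ^ d * T m) + d * (8 * 160 ^ d * T m) :=
          add_le_add (mul_le_mul_of_nonneg_left h0 hd0) (mul_le_mul_of_nonneg_left h1 hd0)
      _ = 16 * d * 160 ^ d * T m := by ring
  have hsum0 : ∑ m ∈ range (K + 1), (if m = 0 then (N : ℂ) * ∏ i, ((b i - a i : ℝ) : ℂ) else 0)
      = (N : ℂ) * ∏ i, ((b i - a i : ℝ) : ℂ) := by
    rw [Finset.sum_ite_eq' (range (K + 1)) 0 (fun _ => (N : ℂ) * ∏ i, ((b i - a i : ℝ) : ℂ))]
    simp
  have hB2 : ‖∑ m ∈ range (K + 1), Bm m N (U m) - (N : ℂ) * ∏ i, ((b i - a i : ℝ) : ℂ)‖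
      ≤ 160 ^ d * ∑ m ∈ range (K + 1), T m := by
    rw [← hsum0, ← Finset.sum_sub_distrib, Finset.mul_sum]
    exact le_trans (norm_sum_le _ _) (Finset.sum_le_sum (fun m _ => hB m))
  have hE2 : 2 * ∑ m ∈ range (K + 1), ∑ n ∈ range (2 ^ (m + 1)), (W m n + W m (N + n))
      ≤ 160 ^ d * (32 * d) * ∑ m ∈ range (K + 1), T m := by
    have : ∑ m ∈ range (K + 1), ∑ n ∈ range (2 ^ (m + 1)), (W m n + W m (N + n))
        ≤ ∑ m ∈ range (K + 1), 16 * d * 160 ^ d * T m := Finset.sum_le_sum (fun m _ => hEsum m)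
    rw [← Finset.mul_sum] at this
    calc 2 * ∑ m ∈ range (K + 1), ∑ n ∈ range (2 ^ (m + 1)), (W m n + W m (N + n))
        ≤ 2 * (16 * d * 160 ^ d * ∑ m ∈ range (K + 1), T m) :=
          mul_le_mul_of_nonneg_left this (by norm_num)
      _ = 160 ^ d * (32 * d) * ∑ m ∈ range (K + 1), T m := by ring
  have hreal : ((∑ n ∈ range N, ∏ i, ind (a i) (b i) (n * α i) - N * ∏ i, (b i - a i) : ℝ) : ℂ)
      = (∑ n ∈ range N, P n - ∑ m ∈ range (K + 1), Bm m N (U m))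
        + (∑ m ∈ range (K + 1), Bm m N (U m) - (N : ℂ) * ∏ i, ((b i - a i : ℝ) : ℂ)) := by
    simp only [hP]
    push_cast
    ring
  rw [← Real.norm_eq_abs, ← Complex.norm_real, hreal]
  refine le_trans (norm_add_le _ _) ?_
  calc ‖∑ n ∈ range N, P n - ∑ m ∈ range (K + 1), Bm m N (U m)‖
        + ‖∑ m ∈ range (K + 1), Bm m N (U m) - (N : ℂ) * ∏ i, ((b i - a i : ℝ) : ℂ)‖
      ≤ 160 ^ d * (32 * d) * ∑ m ∈ range (K + 1), T m + 160 ^ d * ∑ m ∈ range (K + 1), T m :=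
        add_le_add (le_trans hmain hE2) hB2
    _ = 160 ^ d * (1 + 32 * d) * ∑ m ∈ range (K + 1), T m := by ring

end Pool.Agent.Kro
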