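import Pool.Agent.Kro.PLib
import Pool.Agent.Kro.Code

/-! Module PFun: the functions of the algorithm are primitive recursive (`FF_code`, `sum_child` to write `GG` as a sum over `range (nn ^ d)`,
`prim_sum`, `prim_fin_*`, `prim_pow`, `Primrec.nat_add`, ..., `Primrec.ite`, `Primrec.fin_app`). -/

namespace Pool.Agent.Kro

open Finset

variable {α : Type*} [Primcodable α]

theorem PFun_add {f g : α → ℕ} (hf : Primrec f) (hg : Primrec g) : Primrec fun a => f a + g a :=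
  Primrec.nat_add.comp hf hg

theorem PFun_mul {f g : α → ℕ} (hf : Primrec f) (hg : Primrec g) : Primrec fun a => f a * g a :=
  Primrec.nat_mul.comp hf hg

theorem PFun_sub {f g : α → ℕ} (hf : Primrec f) (hg : Primrec g) : Primrec fun a => f a - g a :=
  Primrec.nat_sub.comp hf hg

theorem PFun_mod {f g : α → ℕ} (hf : Primrec f) (hg : Primrec g) : Primrec fun a => f a % g a :=
  Primrec.nat_mod.comp hf hg

theorem PFun_max {f g : α → ℕ} (hf : Primrec f) (hg : Primrec g) : Primrec fun a => max (f a) (g a) :=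
  Primrec.nat_max.comp hf hg

theorem PFun_min {f g : α → ℕ} (hf : Primrec f) (hg : Primrec g) : Primrec fun a => min (f a) (g a) :=
  Primrec.nat_min.comp hf hg

theorem PFun_pow {f g : α → ℕ} (hf : Primrec f) (hg : Primrec g) : Primrec fun a => f a ^ g a :=
  prim_pow.comp hf hg

theorem PFun_app {d : ℕ} {f : α → Fin d → ℕ} (hf : Primrec f) (i : Fin d) : Primrec fun a => f a i :=
  Primrec.fin_app.comp hf (Primrec.const i)

theorem prim_s (d : ℕ) : Primrec (s d) := by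
  unfold s
  exact Primrec.ite (Primrec.eq.comp Primrec.id (Primrec.const 0)) (Primrec.const 0)
    (PFun_pow (Primrec.const 2) (PFun_add (Primrec.const _)
      (PFun_mul (Primrec.const _) (PFun_sub Primrec.id (Primrec.const 1)))))

theorem prim_E (d : ℕ) : Primrec (E d) := by
  unfold E
  exact PFun_add (Primrec.const _) (PFun_mul (Primrec.const _) Primrec.id)

theorem prim_A (d : ℕ) : Primrec (A d) := by
  unfold A
  exact PFun_mul (PFun_mul (Primrec.const _) (PFun_add (prim_E d) (Primrec.const 1)))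
    (PFun_pow (PFun_add (PFun_mul (Primrec.const 2) (prim_s d)) (Primrec.const 3)) (Primrec.const d))

theorem prim_nn (d : ℕ) : Primrec (nn d) := by
  unfold nn
  exact PFun_pow (Primrec.const 2) (PFun_sub (prim_s d)
    ((prim_s d).comp (PFun_sub Primrec.id (Primrec.const 1))))

theorem prim_fc2 (d : ℕ) :
    Primrec fun x : (ℕ × (Fin d → ℕ)) × (Fin d → ℕ) => fc2 d x.1.1 x.1.2 x.2 := by
  have hk : Primrec fun x : (ℕ × (Fin d → ℕ)) × (Fin d → ℕ) => x.1.1 :=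
    Primrec.fst.comp Primrec.fst
  have hc : Primrec fun x : (ℕ × (Fin d → ℕ)) × (Fin d → ℕ) => x.1.2 :=
    Primrec.snd.comp Primrec.fst
  have hj : Primrec fun x : (ℕ × (Fin d → ℕ)) × (Fin d → ℕ) => x.2 := Primrec.snd
  have hS : Primrec fun x : (ℕ × (Fin d → ℕ)) × (Fin d → ℕ) => s d x.1.1 := (prim_s d).comp hk
  have hS1 : Primrec fun x : (ℕ × (Fin d → ℕ)) × (Fin d → ℕ) => s d (x.1.1 - 1) :=
    (prim_s d).comp (PFun_sub hk (Primrec.const 1))
  have hE : Primrec fun x : (ℕ × (Fin d → ℕ)) × (Fin d → ℕ) => E d x.1.1 := (prim_E d).comp hk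
  have hE1 : Primrec fun x : (ℕ × (Fin d → ℕ)) × (Fin d → ℕ) => E d (x.1.1 - 1) :=
    (prim_E d).comp (PFun_sub hk (Primrec.const 1))
  have h2S : Primrec fun x : (ℕ × (Fin d → ℕ)) × (Fin d → ℕ) => 2 ^ s d x.1.1 :=
    PFun_pow (Primrec.const 2) hS
  have hnd : ∀ i, Primrec fun x : (ℕ × (Fin d → ℕ)) × (Fin d → ℕ) =>
      nd (2 ^ s d x.1.1) (x.2 i) := by
    intro i
    unfold nd
    exact PFun_add (PFun_sub (PFun_app hj i) h2S) (PFun_sub h2S (PFun_app hj i))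
  have hrc : Primrec fun x : (ℕ × (Fin d → ℕ)) × (Fin d → ℕ) => rc (2 ^ s d x.1.1) x.2 := by
    unfold rc
    exact prim_fin_prod (f := fun i (x : (ℕ × (Fin d → ℕ)) × (Fin d → ℕ)) =>
      max 1 (nd (2 ^ s d x.1.1) (x.2 i))) fun i => PFun_max (Primrec.const 1) (hnd i)
  have hmc : Primrec fun x : (ℕ × (Fin d → ℕ)) × (Fin d → ℕ) => mc (2 ^ s d x.1.1) x.2 := by
    unfold mc
    exact prim_fin_sup (f := fun i (x : (ℕ × (Fin d → ℕ)) × (Fin d → ℕ)) =>
      nd (2 ^ s d x.1.1) (x.2 i)) hnd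
  have htc : Primrec fun x : (ℕ × (Fin d → ℕ)) × (Fin d → ℕ) =>
      tc (s d x.1.1) (2 ^ s d x.1.1) x.2 x.1.2 := by
    unfold tc
    refine PFun_mod (PFun_add ?_ (PFun_mul (PFun_mul (PFun_sub h2S (Primrec.const 1)) h2S) ?_)) h2S
    · exact prim_fin_sum (f := fun i (x : (ℕ × (Fin d → ℕ)) × (Fin d → ℕ)) => x.2 i * x.1.2 i)
        fun i => PFun_mul (PFun_app hj i) (PFun_app hc i)
    · exact prim_fin_sum (f := fun i (x : (ℕ × (Fin d → ℕ)) × (Fin d → ℕ)) => x.1.2 i)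
        fun i => PFun_app hc i
  have hw : Primrec fun x : (ℕ × (Fin d → ℕ)) × (Fin d → ℕ) =>
      min (tc (s d x.1.1) (2 ^ s d x.1.1) x.2 x.1.2)
        (2 ^ s d x.1.1 - tc (s d x.1.1) (2 ^ s d x.1.1) x.2 x.1.2) :=
    PFun_min htc (PFun_sub h2S htc)
  have hR : Primrec fun x : (ℕ × (Fin d → ℕ)) × (Fin d → ℕ) =>
      rc (2 ^ s d x.1.1) x.2 * mc (2 ^ s d x.1.1) x.2 := PFun_mul hrc hmc
  have hin : Primrec₂ fun (x : (ℕ × (Fin d → ℕ)) × (Fin d → ℕ)) (e : ℕ) =>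
      if 2 ^ e * rc (2 ^ s d x.1.1) x.2 *
          min (tc (s d x.1.1) (2 ^ s d x.1.1) x.2 x.1.2)
            (2 ^ s d x.1.1 - tc (s d x.1.1) (2 ^ s d x.1.1) x.2 x.1.2)
            ≤ 4 ^ (d + 1) * 2 ^ (s d x.1.1) then 2 ^ e else 0 := by
    refine Primrec.ite (Primrec.nat_le.comp ?_ ?_) ?_ (Primrec.const 0)
    · exact PFun_mul (PFun_mul (PFun_pow (Primrec.const 2) Primrec.snd) (hrc.comp Primrec.fst))
        (hw.comp Primrec.fst)
    · exact PFun_mul (Primrec.const _) (h2S.comp Primrec.fst)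
    · exact PFun_pow (Primrec.const 2) Primrec.snd
  unfold fc2
  refine Primrec.ite (PrimrecPred.and (Primrec.nat_le.comp ?_ ?_) (Primrec.nat_lt.comp ?_ ?_)) ?_
    (Primrec.const 0)
  · exact PFun_mul hR (PFun_pow (Primrec.const 2) (PFun_add hE (Primrec.const d)))
  · exact h2S
  · exact PFun_pow (Primrec.const 2) hS1
  · exact PFun_mul hR (PFun_pow (Primrec.const 2) (PFun_add hE1 (Primrec.const d)))
  · exact prim_sum hin (PFun_add hE (Primrec.const 1))

theorem PFun_nn (d k : ℕ) : 1 ≤ nn d k := Nat.one_le_two_pow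

theorem PFun_GG (d k : ℕ) (c : Fin d → ℕ) :
    GG d k c = ∑ m ∈ range (nn d (k + 1) ^ d), FF d (k + 1) (child (nn d (k + 1)) c m) := by
  rw [sum_child d (nn d (k + 1)) (PFun_nn d (k + 1)) c (FF d (k + 1))]
  rfl

attribute [local irreducible] fc2 child FF GG s nn E A

theorem prim_FF (d : ℕ) : Primrec₂ (FF d) := by
  have hn : Primrec fun x : ℕ × (Fin d → ℕ) => 2 * 2 ^ s d x.1 + 1 :=
    PFun_add (PFun_mul (Primrec.const 2) (PFun_pow (Primrec.const 2) ((prim_s d).comp Primrec.fst)))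
      (Primrec.const 1)
  have hch : Primrec fun y : (ℕ × (Fin d → ℕ)) × ℕ =>
      child (2 * 2 ^ s d y.1.1 + 1) (fun _ : Fin d => 0) y.2 :=
    (prim_child d).comp (Primrec.pair (Primrec.pair (hn.comp Primrec.fst) (Primrec.const _)) Primrec.snd)
  have h : Primrec₂ fun (x : ℕ × (Fin d → ℕ)) (m : ℕ) =>
      fc2 d x.1 x.2 (child (2 * 2 ^ s d x.1 + 1) (fun _ => 0) m) :=
    (prim_fc2 d).comp (Primrec.pair Primrec.fst hch)
  have h2 : Primrec fun x : ℕ × (Fin d → ℕ) => ∑ m ∈ range ((2 * 2 ^ s d x.1 + 1) ^ d),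
      fc2 d x.1 x.2 (child (2 * 2 ^ s d x.1 + 1) (fun _ => 0) m) :=
    prim_sum h (PFun_pow hn (Primrec.const d))
  have e : (fun x : ℕ × (Fin d → ℕ) => FF d x.1 x.2)
      = fun x : ℕ × (Fin d → ℕ) => ∑ m ∈ range ((2 * 2 ^ s d x.1 + 1) ^ d),
      fc2 d x.1 x.2 (child (2 * 2 ^ s d x.1 + 1) (fun _ => 0) m) := by
    funext x
    exact FF_code d x.1 x.2
  have h3 : Primrec fun x : ℕ × (Fin d → ℕ) => FF d x.1 x.2 := by
    rw [e]
    exact h2
  exact h3

theorem prim_GG (d : ℕ) : Primrec₂ (GG d) := by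
  have hn : Primrec fun x : ℕ × (Fin d → ℕ) => nn d (x.1 + 1) :=
    (prim_nn d).comp (PFun_add Primrec.fst (Primrec.const 1))
  have hch : Primrec fun y : (ℕ × (Fin d → ℕ)) × ℕ => child (nn d (y.1.1 + 1)) y.1.2 y.2 :=
    (prim_child d).comp (Primrec.pair (Primrec.pair (hn.comp Primrec.fst)
      (Primrec.snd.comp Primrec.fst)) Primrec.snd)
  have h : Primrec₂ fun (x : ℕ × (Fin d → ℕ)) (m : ℕ) =>
      FF d (x.1 + 1) (child (nn d (x.1 + 1)) x.2 m) :=
    (prim_FF d).comp (PFun_add (Primrec.fst.comp Primrec.fst) (Primrec.const 1)) hch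
  have h2 : Primrec fun x : ℕ × (Fin d → ℕ) => ∑ m ∈ range (nn d (x.1 + 1) ^ d),
      FF d (x.1 + 1) (child (nn d (x.1 + 1)) x.2 m) := prim_sum h (PFun_pow hn (Primrec.const d))
  have e : (fun x : ℕ × (Fin d → ℕ) => GG d x.1 x.2)
      = fun x : ℕ × (Fin d → ℕ) => ∑ m ∈ range (nn d (x.1 + 1) ^ d),
      FF d (x.1 + 1) (child (nn d (x.1 + 1)) x.2 m) := by
    funext x
    exact PFun_GG d x.1 x.2
  have h3 : Primrec fun x : ℕ × (Fin d → ℕ) => GG d x.1 x.2 := by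
    rw [e]
    exact h2
  exact h3

theorem prim_Good (d : ℕ) : PrimrecRel (Good d) := by
  have hk : Primrec fun x : ℕ × (Fin d → ℕ) => x.1 := Primrec.fst
  have hk1 : Primrec fun x : ℕ × (Fin d → ℕ) => x.1 + 1 := PFun_add hk (Primrec.const 1)
  have hn : Primrec fun x : ℕ × (Fin d → ℕ) => nn d (x.1 + 1) ^ d :=
    PFun_pow ((prim_nn d).comp hk1) (Primrec.const d)
  have hA : Primrec fun x : ℕ × (Fin d → ℕ) => A d x.1 := (prim_A d).comp hk
  have hA1 : Primrec fun x : ℕ × (Fin d → ℕ) => A d (x.1 + 1) := (prim_A d).comp hk1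
  have hF : Primrec fun x : ℕ × (Fin d → ℕ) => FF d x.1 x.2 := prim_FF d
  have hG : Primrec fun x : ℕ × (Fin d → ℕ) => GG d x.1 x.2 := prim_GG d
  unfold Good
  exact Primrec.nat_le.comp
    (PFun_add (PFun_mul hF (PFun_mul hA1 hn)) (PFun_mul (PFun_mul (Primrec.const 2) hA) hG))
    (PFun_mul (PFun_mul (PFun_mul (Primrec.const 4) hA) hA1) hn)

end Pool.Agent.Kro
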