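import Pool.Agent.Kro.Defs

/-! Module PLib: primitive recursive functions (Mathlib `Primrec`).
`prim_sum`: `Primrec.nat_rec` (`sum_range_succ`) or `list_foldl`/`list_range`. `prim_pow`: `Primrec₂.unpaired'.1 Nat.Primrec.pow`.
`prim_fin_sum`, `prim_fin_prod`, `prim_fin_sup`: `Finset.induction` for the sums over a finset of `Fin d` (fixed).
`prim_find`: bounded search. `r = (fun r => if p a r then r else r + 1)^[n a] 0` is the least `r < n a` with `p a r`, or `n a` if there is none
(`Primrec.nat_iterate`); the value is `r` if `r < n a`, otherwise `0`. -/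

namespace Pool.Agent.Kro

open Finset

variable {α : Type*} [Primcodable α]

theorem prim_pow : Primrec₂ (fun m n : ℕ => m ^ n) := by
  have h : Primrec fun x : ℕ × ℕ => Nat.rec (motive := fun _ => ℕ) 1 (fun _ IH => IH * x.1) x.2 := by
    refine Primrec.nat_rec' (f := fun x : ℕ × ℕ => x.2) (g := fun _ => 1)
      (h := fun (x : ℕ × ℕ) (p : ℕ × ℕ) => p.2 * x.1) Primrec.snd (Primrec.const 1) ?_
    exact Primrec.nat_mul.comp (Primrec.snd.comp Primrec.snd) (Primrec.fst.comp Primrec.fst)
  refine h.of_eq ?_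
  rintro ⟨m, n⟩
  show Nat.rec (motive := fun _ => ℕ) 1 (fun _ IH => IH * m) n = m ^ n
  induction n with
  | zero => rfl
  | succ n ih => rw [pow_succ, ← ih]

theorem prim_sum {f : α → ℕ → ℕ} {n : α → ℕ} (hf : Primrec₂ f) (hn : Primrec n) :
    Primrec fun a => ∑ m ∈ range (n a), f a m := by
  have h : Primrec fun a : α =>
      Nat.rec (motive := fun _ => ℕ) 0 (fun m IH => IH + f a m) (n a) := by
    refine Primrec.nat_rec' (f := n) (g := fun _ => 0)
      (h := fun (a : α) (p : ℕ × ℕ) => p.2 + f a p.1) hn (Primrec.const 0) ?_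
    exact Primrec.nat_add.comp (Primrec.snd.comp Primrec.snd)
      (hf.comp Primrec.fst (Primrec.fst.comp Primrec.snd))
  refine h.of_eq ?_
  intro a
  induction n a with
  | zero => rfl
  | succ k ih => rw [sum_range_succ, ← ih]

theorem PLib_fin {d : ℕ} {f : Fin d → α → ℕ} (hf : ∀ i, Primrec (f i)) (op : ℕ → ℕ → ℕ)
    (e : ℕ) (hop : Primrec₂ op) (l : List (Fin d)) :
    Primrec fun a => l.foldr (fun i x => op (f i a) x) e := by
  induction l with
  | nil => exact Primrec.const e
  | cons i l ih => exact hop.comp (hf i) ih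

theorem prim_fin_sum {d : ℕ} {f : Fin d → α → ℕ} (hf : ∀ i, Primrec (f i)) :
    Primrec fun a => ∑ i, f i a := by
  refine (PLib_fin hf (· + ·) 0 Primrec.nat_add (List.finRange d)).of_eq ?_
  intro a
  have h : ∀ l : List (Fin d), l.foldr (fun i x => f i a + x) 0 = (l.map fun i => f i a).sum := by
    intro l
    induction l with
    | nil => rfl
    | cons i l ih => simp [ih]
  show (List.finRange d).foldr (fun i x => f i a + x) 0 = _
  rw [h, ← Fin.sum_univ_def]

theorem prim_fin_prod {d : ℕ} {f : Fin d → α → ℕ} (hf : ∀ i, Primrec (f i)) :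
    Primrec fun a => ∏ i, f i a := by
  refine (PLib_fin hf (· * ·) 1 Primrec.nat_mul (List.finRange d)).of_eq ?_
  intro a
  have h : ∀ l : List (Fin d), l.foldr (fun i x => f i a * x) 1 = (l.map fun i => f i a).prod := by
    intro l
    induction l with
    | nil => rfl
    | cons i l ih => simp [ih]
  show (List.finRange d).foldr (fun i x => f i a * x) 1 = _
  rw [h, ← Fin.prod_univ_def]

theorem prim_fin_sup {d : ℕ} {f : Fin d → α → ℕ} (hf : ∀ i, Primrec (f i)) :
    Primrec fun a => univ.sup fun i => f i a := by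
  refine (PLib_fin hf max 0 Primrec.nat_max (List.finRange d)).of_eq ?_
  intro a
  have h : ∀ l : List (Fin d), l.foldr (fun i x => max (f i a) x) 0 =
      l.toFinset.sup fun i => f i a := by
    intro l
    induction l with
    | nil => rfl
    | cons i l ih => simp [ih, sup_insert]
  rw [h]
  congr 1
  ext i
  simp

theorem PLib_iter (p : ℕ → Prop) [DecidablePred p] (n : ℕ) :
    (∃ m < n, p m ∧ (∀ k < m, ¬ p k) ∧ (fun r => if p r then r else r + 1)^[n] 0 = m) ∨
    ((∀ k < n, ¬ p k) ∧ (fun r => if p r then r else r + 1)^[n] 0 = n) := by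
  induction n with
  | zero => right; simp
  | succ n ih =>
    rw [Function.iterate_succ_apply']
    rcases ih with ⟨m, hm, hp, hk, he⟩ | ⟨hk, he⟩
    · left
      refine ⟨m, by omega, hp, hk, ?_⟩
      rw [he]
      simp [hp]
    · rw [he]
      by_cases hp : p n
      · left
        exact ⟨n, by omega, hp, hk, by simp [hp]⟩
      · right
        refine ⟨?_, by simp [hp]⟩
        intro k hk'
        rcases Nat.lt_succ_iff_lt_or_eq.1 hk' with h | h
        · exact hk k h
        · rw [h]; exact hp

theorem prim_find {p : α → ℕ → Prop} {n : α → ℕ} (hp : PrimrecRel p) (hn : Primrec n) :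
    Primrec fun a => sInf {m | m < n a ∧ p a m} := by
  classical
  have hstep : Primrec₂ (fun (a : α) (r : ℕ) => if p a r then r else r + 1) :=
    Primrec.ite (hp.comp Primrec.fst Primrec.snd) Primrec.snd (Primrec.succ.comp Primrec.snd)
  have hit : Primrec fun a => (fun r => if p a r then r else r + 1)^[n a] 0 :=
    Primrec.nat_iterate hn (Primrec.const 0) hstep
  have hres : Primrec fun a =>
      if (fun r => if p a r then r else r + 1)^[n a] 0 < n a then
        (fun r => if p a r then r else r + 1)^[n a] 0 else 0 :=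
    Primrec.ite (Primrec.nat_lt.comp hit hn) hit (Primrec.const 0)
  refine hres.of_eq ?_
  intro a
  rcases PLib_iter (p a) (n a) with ⟨m, hm, hpm, hk, he⟩ | ⟨hk, he⟩
  · rw [he, if_pos hm]
    symm
    apply le_antisymm
    · exact Nat.sInf_le ⟨hm, hpm⟩
    · by_contra hlt
      push Not at hlt
      have hne : {m | m < n a ∧ p a m}.Nonempty := ⟨m, hm, hpm⟩
      exact hk _ hlt (Nat.sInf_mem hne).2
  · rw [he, if_neg (lt_irrefl _)]
    have : {m | m < n a ∧ p a m} = ∅ := by
      ext m
      simp only [Set.mem_empty_iff_false, iff_false]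
      rintro ⟨hm, h2⟩
      exact hk m hm h2
    rw [this, Nat.sInf_empty]

theorem prim_child (d : ℕ) :
    Primrec fun x : (ℕ × (Fin d → ℕ)) × ℕ => child x.1.1 x.1.2 x.2 := by
  rw [Primrec.fin_curry]
  have hX : Primrec fun y : ((ℕ × (Fin d → ℕ)) × ℕ) × Fin d => y.1.1.1 :=
    Primrec.fst.comp (Primrec.fst.comp Primrec.fst)
  have hc : Primrec fun y : ((ℕ × (Fin d → ℕ)) × ℕ) × Fin d => y.1.1.2 y.2 :=
    Primrec.fin_app.comp (Primrec.snd.comp (Primrec.fst.comp Primrec.fst)) Primrec.snd
  have hm : Primrec fun y : ((ℕ × (Fin d → ℕ)) × ℕ) × Fin d => y.1.2 :=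
    Primrec.snd.comp Primrec.fst
  have hi : Primrec fun y : ((ℕ × (Fin d → ℕ)) × ℕ) × Fin d => (y.2 : ℕ) :=
    Primrec.fin_val.comp Primrec.snd
  exact Primrec.nat_add.comp (Primrec.nat_mul.comp hc hX)
    (Primrec.nat_mod.comp (Primrec.nat_div.comp hm (prim_pow.comp hX hi)) hX)

end Pool.Agent.Kro
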