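import Pool.Agent.Kro.Jack

/-! Module Saw: approximation of the sawtooth by the convolution with the Jackson kernel.
Take `j, J` from `exists_jac`. `V(x) = - ∑_{1 ≤ h ≤ 2H} j(h) sin(2πhx)/(πh)`, i.e. `v(a) = - j(a)/(2πi a)` for `a ≠ 0`, `v(0) = 0`.
`g(x) = x - 1/2 - V(x)`. `g' = 1 + ∑_{h ≥ 1} 2 j(h) cos(2πhx) = J(x) ≥ 0`. `V(0) = V(1/2) = 0`, `V` odd and 1-periodic.
So `g(0) = -1/2`, `g(1/2) = 0`, `g(1) = 1/2`, `g` monotone: `|g| ≤ 1/2` on `[0,1]`; `g(1 - x) = - g(x)`.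
For `0 < x ≤ 1/2`: `φ(x) = g(x) + x⁻³/(32H³)` has `φ' = J(x) - 3x⁻⁴/(32H³) ≤ 0` on `(0,1/2]`, so `φ(x) ≥ φ(1/2) ≥ 0`: `|g(x)| ≤ 1/(32H³x³)`.
For `x ∈ [0,1)`: `fract x - 1/2 - V(x) = g(x)`; for `x ∈ (1/2, 1)` use `g(1-x) = -g(x)`, `dz x = 1 - x`; periodicity gives all `x`. -/

namespace Pool.Agent.Kro

open Finset

theorem Saw_split (f : ℤ → ℂ) (N : ℕ) : ∑ a ∈ Icc (-(N : ℤ)) N, f a =
    f 0 + ∑ h ∈ range N, (f ((h : ℤ) + 1) + f (-((h : ℤ) + 1))) := by
  induction N with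
  | zero => simp
  | succ N ih =>
    have h1 : Icc (-((N + 1 : ℕ) : ℤ)) ((N + 1 : ℕ) : ℤ) =
        insert ((N : ℤ) + 1) (insert (-((N : ℤ) + 1)) (Icc (-(N : ℤ)) N)) := by
      ext x
      simp only [mem_Icc, mem_insert]
      push_cast
      omega
    rw [h1, sum_insert, sum_insert, ih, sum_range_succ]
    · ring
    · simp only [mem_Icc]; omega
    · simp only [mem_Icc, mem_insert]; omega

/-- `V` -/
noncomputable def Saw_V (j : ℤ → ℝ) (N : ℕ) (x : ℝ) : ℝ :=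
  -∑ h ∈ range N, j ((h : ℤ) + 1) * Real.sin (2 * Real.pi * ((h : ℝ) + 1) * x) /
    (Real.pi * ((h : ℝ) + 1))

theorem Saw_V_zero (j : ℤ → ℝ) (N : ℕ) : Saw_V j N 0 = 0 := by
  unfold Saw_V
  simp

theorem Saw_V_half (j : ℤ → ℝ) (N : ℕ) : Saw_V j N (1 / 2) = 0 := by
  unfold Saw_V
  rw [neg_eq_zero]
  refine sum_eq_zero (fun h _ => ?_)
  have h1 : 2 * Real.pi * ((h : ℝ) + 1) * (1 / 2) = ((h + 1 : ℕ) : ℝ) * Real.pi := by
    push_cast; ring
  rw [h1, Real.sin_nat_mul_pi]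
  simp

theorem Saw_V_neg (j : ℤ → ℝ) (N : ℕ) (x : ℝ) : Saw_V j N (-x) = -Saw_V j N x := by
  unfold Saw_V
  rw [← sum_neg_distrib, neg_neg]
  refine sum_congr rfl (fun h _ => ?_)
  rw [show 2 * Real.pi * ((h : ℝ) + 1) * -x = -(2 * Real.pi * ((h : ℝ) + 1) * x) by ring,
    Real.sin_neg]
  ring

theorem Saw_V_add_int (j : ℤ → ℝ) (N : ℕ) (x : ℝ) (n : ℤ) : Saw_V j N (x + n) = Saw_V j N x := by
  unfold Saw_V
  congr 1
  refine sum_congr rfl (fun h _ => ?_)
  have h1 : 2 * Real.pi * ((h : ℝ) + 1) * (x + n) =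
      2 * Real.pi * ((h : ℝ) + 1) * x + (((h : ℤ) + 1) * n : ℤ) * (2 * Real.pi) := by
    push_cast; ring
  rw [h1, Real.sin_add_int_mul_two_pi]

theorem Saw_V_deriv (j : ℤ → ℝ) (N : ℕ) (x : ℝ) : HasDerivAt (Saw_V j N)
    (-∑ h ∈ range N, j ((h : ℤ) + 1) * (2 * Real.cos (2 * Real.pi * ((h : ℝ) + 1) * x))) x := by
  unfold Saw_V
  refine HasDerivAt.fun_neg (HasDerivAt.fun_sum (fun h _ => ?_))
  have h1 : HasDerivAt (fun y : ℝ => 2 * Real.pi * ((h : ℝ) + 1) * y) (2 * Real.pi * ((h : ℝ) + 1)) x := by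
    simpa using (hasDerivAt_id x).const_mul (2 * Real.pi * ((h : ℝ) + 1))
  have h2 := ((h1.sin).const_mul (j ((h : ℤ) + 1))).div_const (Real.pi * ((h : ℝ) + 1))
  refine h2.congr_deriv ?_
  have : (Real.pi * ((h : ℝ) + 1)) ≠ 0 := by positivity
  field_simp

theorem Saw_ee_add (y : ℝ) : ee y + ee (-y) = ((2 * Real.cos (2 * Real.pi * y) : ℝ) : ℂ) := by
  unfold ee
  push_cast
  rw [Complex.two_cos, show 2 * (Real.pi : ℂ) * -(y : ℂ) * Complex.I =
    -(2 * (Real.pi : ℂ) * (y : ℂ)) * Complex.I by ring]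

theorem Saw_ee_sub (y : ℝ) : ee y - ee (-y) =
    2 * Complex.I * ((Real.sin (2 * Real.pi * y) : ℝ) : ℂ) := by
  unfold ee
  push_cast
  have h := Complex.two_sin (2 * (Real.pi : ℂ) * (y : ℂ))
  rw [show 2 * Complex.I * Complex.sin (2 * (Real.pi : ℂ) * (y : ℂ)) =
    Complex.I * (2 * Complex.sin (2 * (Real.pi : ℂ) * (y : ℂ))) by ring, h]
  rw [show 2 * (Real.pi : ℂ) * -(y : ℂ) * Complex.I =
    -(2 * (Real.pi : ℂ) * (y : ℂ)) * Complex.I by ring]
  have hI : Complex.I * Complex.I = -1 := Complex.I_mul_I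
  linear_combination (-(Complex.exp (-(2 * (Real.pi : ℂ) * (y : ℂ)) * Complex.I) -
    Complex.exp (2 * (Real.pi : ℂ) * (y : ℂ) * Complex.I))) * hI

theorem Saw_dz_eq {x : ℝ} (h0 : 0 ≤ x) (h1 : x ≤ 1 / 2) : dz x = x := by
  unfold dz
  rw [abs_sub_round_eq_min, Int.fract_eq_self.mpr ⟨h0, by linarith⟩]
  exact min_eq_left (by linarith)

theorem exists_saw (H : ℕ) (hH : 1 ≤ H) : ∃ (v : ℤ → ℂ) (V : ℝ → ℝ),
    (∀ x, ((V x : ℝ) : ℂ) = ∑ a ∈ Icc (-(2 * H : ℤ)) (2 * H), v a * ee (a * x)) ∧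
    v 0 = 0 ∧ (∀ a : ℤ, 2 * (H : ℤ) - 1 ≤ |a| → v a = 0) ∧
    (∀ a : ℤ, a ≠ 0 → ‖v a + 1 / (2 * Real.pi * Complex.I * a)‖ ≤ 1 / (4 * H)) ∧
    (∀ x, |Int.fract x - 1 / 2 - V x| ≤ 1 / 2) ∧
    ∀ x, |Int.fract x - 1 / 2 - V x| * (32 * H ^ 3 * dz x ^ 3) ≤ 1 := by
  obtain ⟨j, J, hsym, hj0, hjz, hjd, hJ, hJ0, hJb⟩ := exists_jac H hH
  have hHr : (0 : ℝ) < H := by exact_mod_cast hH
  set N : ℕ := 2 * H with hN
  have hpi : (Real.pi : ℂ) ≠ 0 := by exact_mod_cast Real.pi_ne_zero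
  have hcast : ((2 * H : ℕ) : ℤ) = 2 * (H : ℤ) := by push_cast; ring
  -- the derivative
  have hJ' : ∀ x, J x = 1 + ∑ h ∈ range N, j ((h : ℤ) + 1) * (2 * Real.cos (2 * Real.pi * ((h : ℝ) + 1) * x)) := by
    intro x
    have h1 := hJ x
    rw [← hcast, Saw_split] at h1
    have h2 : ((J x : ℝ) : ℂ) = ((1 + ∑ h ∈ range N, j ((h : ℤ) + 1) *
        (2 * Real.cos (2 * Real.pi * ((h : ℝ) + 1) * x)) : ℝ) : ℂ) := by
      rw [h1]
      push_cast
      congr 1
      · rw [hj0]; simp [ee_zero]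
      · refine sum_congr rfl (fun h _ => ?_)
        rw [hsym]
        have h3 := Saw_ee_add (((h : ℝ) + 1) * x)
        have h4 : -1 + -(h : ℝ) = -((h : ℝ) + 1) := by ring
        rw [← mul_add, neg_add_rev, h4, neg_mul, h3]
        push_cast
        ring_nf
    exact_mod_cast h2
  set g : ℝ → ℝ := fun x => x - 1 / 2 - Saw_V j N x with hg
  have hgd : ∀ x, HasDerivAt g (J x) x := by
    intro x
    have h1 := ((hasDerivAt_id x).sub_const (1 / 2)).sub (Saw_V_deriv j N x)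
    refine h1.congr_deriv ?_
    rw [hJ' x]; ring
  have hgm : Monotone g := monotone_of_hasDerivAt_nonneg hgd (fun x => hJ0 x)
  have hg0 : g 0 = -(1 / 2) := by simp only [hg]; rw [Saw_V_zero]; ring
  have hgh : g (1 / 2) = 0 := by simp only [hg]; rw [Saw_V_half]; ring
  have hV1 : Saw_V j N 1 = 0 := by
    have := Saw_V_add_int j N 0 1
    rw [Saw_V_zero] at this
    simpa using this
  have hg1 : g 1 = 1 / 2 := by simp only [hg]; rw [hV1]; ring
  have hrefl : ∀ x, g (1 - x) = -g x := by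
    intro x
    simp only [hg]
    have h1 := Saw_V_add_int j N (-x) 1
    rw [Saw_V_neg] at h1
    have h2 : (1 : ℝ) - x = -x + (1 : ℤ) := by push_cast; ring
    rw [h2, h1]; push_cast; ring
  -- the bound on (0, 1/2]
  have hb : ∀ x, 0 < x → x ≤ 1 / 2 → |g x| * (32 * H ^ 3 * x ^ 3) ≤ 1 := by
    intro x hx0 hx1
    have h1 : g x ≤ 0 := by rw [← hgh]; exact hgm hx1
    set φ : ℝ → ℝ := fun t => g t + (t ^ 3)⁻¹ / (32 * H ^ 3) with hφ
    have hd : ∀ t, 0 < t → HasDerivAt φ (J t - 3 * (t ^ 4)⁻¹ / (32 * H ^ 3)) t := by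
      intro t ht
      have h2 : HasDerivAt (fun t : ℝ => (t ^ 3)⁻¹) (-(3 * t ^ 2) / (t ^ 3) ^ 2) t := by
        have := (hasDerivAt_pow 3 t).fun_inv (by positivity)
        simpa using this
      refine ((hgd t).add (h2.div_const (32 * (H : ℝ) ^ 3))).congr_deriv ?_
      field_simp
      ring
    have hanti : AntitoneOn φ (Set.Icc x (1 / 2)) := by
      apply antitoneOn_of_deriv_nonpos (convex_Icc _ _)
      · intro t ht
        exact (hd t (lt_of_lt_of_le hx0 ht.1)).continuousAt.continuousWithinAt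
      · intro t ht
        rw [interior_Icc] at ht
        exact (hd t (lt_trans hx0 ht.1)).differentiableAt.differentiableWithinAt
      · intro t ht
        rw [interior_Icc] at ht
        have ht0 : 0 < t := lt_trans hx0 ht.1
        rw [(hd t ht0).deriv]
        have h3 := hJb t
        rw [Saw_dz_eq ht0.le ht.2.le] at h3
        have h4 : J t ≤ 3 * (t ^ 4)⁻¹ / (32 * H ^ 3) := by
          rw [le_div_iff₀ (by positivity)]
          rw [← div_eq_mul_inv, le_div_iff₀ (by positivity)]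
          linarith
        linarith
    have h5 := hanti (Set.left_mem_Icc.mpr hx1) (Set.right_mem_Icc.mpr hx1) hx1
    simp only [hφ] at h5
    rw [hgh] at h5
    have h6 : (0 : ℝ) ≤ (((1 / 2 : ℝ)) ^ 3)⁻¹ / (32 * H ^ 3) := by positivity
    have h7 : -g x ≤ (x ^ 3)⁻¹ / (32 * H ^ 3) := by linarith
    rw [abs_of_nonpos h1]
    calc -g x * (32 * H ^ 3 * x ^ 3) ≤ ((x ^ 3)⁻¹ / (32 * H ^ 3)) * (32 * H ^ 3 * x ^ 3) :=
          mul_le_mul_of_nonneg_right h7 (by positivity)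
      _ = 1 := by field_simp
  have hfr : ∀ x, Int.fract x - 1 / 2 - Saw_V j N x = g (Int.fract x) := by
    intro x
    simp only [hg]
    have h1 := Saw_V_add_int j N (Int.fract x) ⌊x⌋
    rw [Int.fract_add_floor] at h1
    rw [h1]
  refine ⟨fun a => if a = 0 then 0 else -(j a : ℂ) / (2 * Real.pi * Complex.I * a),
    Saw_V j N, ?_, ?_, ?_, ?_, ?_, ?_⟩
  · intro x
    rw [← hcast, Saw_split]
    simp only [if_true, zero_mul, zero_add]
    unfold Saw_V
    rw [← sum_neg_distrib, Complex.ofReal_sum]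
    refine sum_congr rfl (fun h _ => ?_)
    have e1 : ((h : ℤ) + 1) ≠ 0 := by omega
    have e2 : (-((h : ℤ) + 1)) ≠ 0 := by omega
    rw [if_neg e1, if_neg e2, hsym]
    have e3 := Saw_ee_sub (((h : ℝ) + 1) * x)
    have e4 : ((((h : ℤ) + 1 : ℤ)) : ℝ) * x = ((h : ℝ) + 1) * x := by push_cast; ring
    have e5 : (((-((h : ℤ) + 1) : ℤ)) : ℝ) * x = -(((h : ℝ) + 1) * x) := by push_cast; ring
    rw [e4, e5]
    have e6 : ee (((h : ℝ) + 1) * x) = ee (-(((h : ℝ) + 1) * x)) +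
        2 * Complex.I * ((Real.sin (2 * Real.pi * (((h : ℝ) + 1) * x)) : ℝ) : ℂ) := by
      rw [← e3]; ring
    rw [e6, show 2 * Real.pi * ((h : ℝ) + 1) * x = 2 * Real.pi * (((h : ℝ) + 1) * x) by ring]
    have e7 : ((h : ℂ) + 1) ≠ 0 := by
      have : (0 : ℝ) < (h : ℝ) + 1 := by positivity
      exact_mod_cast this.ne'
    push_cast
    field_simp
    ring
  · simp
  · intro a ha
    show (if a = 0 then 0 else -(j a : ℂ) / (2 * Real.pi * Complex.I * a)) = 0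
    rw [hjz a ha]
    split_ifs <;> simp
  · intro a ha
    show ‖(if a = 0 then 0 else -(j a : ℂ) / (2 * Real.pi * Complex.I * a)) +
      1 / (2 * Real.pi * Complex.I * a)‖ ≤ 1 / (4 * H)
    rw [if_neg ha]
    have har : (0 : ℝ) < |(a : ℝ)| := abs_pos.mpr (by exact_mod_cast ha)
    have e1 : -(j a : ℂ) / (2 * Real.pi * Complex.I * a) + 1 / (2 * Real.pi * Complex.I * a) =
        ((1 - j a : ℝ) : ℂ) / (2 * Real.pi * Complex.I * a) := by
      push_cast; ring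
    rw [e1, norm_div, norm_mul, norm_mul, norm_mul, Complex.norm_I, Complex.norm_real,
      Complex.norm_real, Real.norm_eq_abs, Real.norm_of_nonneg Real.pi_pos.le]
    have e2 : ‖(2 : ℂ)‖ = 2 := by simp
    have e3 : ‖(a : ℂ)‖ = |(a : ℝ)| := by simp
    rw [e2, e3, mul_one]
    rw [div_le_div_iff₀ (by positivity) (by positivity), one_mul]
    have h3 := hjd a
    have h4 := Real.pi_gt_three
    calc |1 - j a| * (4 * H) ≤ (3 / 2 * |(a : ℝ)| / H) * (4 * H) :=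
          mul_le_mul_of_nonneg_right h3 (by positivity)
      _ = 6 * |(a : ℝ)| := by field_simp; ring
      _ ≤ 2 * Real.pi * |(a : ℝ)| := by
          apply mul_le_mul_of_nonneg_right _ har.le
          linarith
  · intro x
    rw [hfr]
    have h1 : 0 ≤ Int.fract x := Int.fract_nonneg x
    have h2 : Int.fract x ≤ 1 := (Int.fract_lt_one x).le
    rw [abs_le]
    constructor
    · rw [← hg0]; exact hgm h1
    · rw [← hg1]; exact hgm h2
  · intro x
    rw [hfr]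
    have h1 : 0 ≤ Int.fract x := Int.fract_nonneg x
    have h2 : Int.fract x < 1 := Int.fract_lt_one x
    have h3 : dz x = min (Int.fract x) (1 - Int.fract x) := by
      unfold dz; exact abs_sub_round_eq_min x
    rw [h3]
    rcases le_or_gt (Int.fract x) (1 / 2) with h4 | h4
    · rw [min_eq_left (by linarith)]
      rcases h1.eq_or_lt with h5 | h5
      · rw [← h5]; simp
      · exact hb _ h5 h4
    · rw [min_eq_right (by linarith)]
      have h5 := hb (1 - Int.fract x) (by linarith) (by linarith)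
      rw [hrefl, abs_neg] at h5
      exact h5

end Pool.Agent.Kro
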