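import Pool.Agent.Kro.Avg
import Pool.Agent.Kro.Child

/-! Module Step: the greedy step. `nn k * nn (k+1) = 2^(s(k+1) - s(k-1))`, `(k+1) - 2 = k - 1`, so by `desc_desc` and `avg_FF` (for `k+1`)
`∑_{c' ∈ desc (nn k) c} GG k c' ≤ A(k+1) (nn k * nn (k+1))^d`. With the hypothesis the sum over `c' ∈ desc (nn k) c` of the left side of `Good` is
`≤ A(k+1) nn(k+1)^d · 2 A(k) nn(k)^d + 2 A(k) A(k+1) (nn k nn(k+1))^d = nn(k)^d ·` (right side of `Good`); `card_desc`: some `c'` is good (`child_surj`). -/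

namespace Pool.Agent.Kro

open Finset

theorem Step_nn (d k : ℕ) (hk : 1 ≤ k) :
    2 ^ (s d (k + 1) - s d (k + 1 - 2)) = nn d k * nn d (k + 1) := by
  unfold nn
  rw [← pow_add]
  congr 1
  obtain ⟨j, rfl⟩ : ∃ j, k = j + 1 := ⟨k - 1, by omega⟩
  have a1 := s_mono d (Nat.le_succ j)
  have a2 := s_mono d (Nat.le_succ (j + 1))
  have e1 : j + 1 + 1 - 2 = j := by omega
  have e2 : j + 1 - 1 = j := by omega
  have e3 : j + 1 + 1 - 1 = j + 1 := by omega
  rw [e1, e2, e3]
  simp only [Nat.succ_eq_add_one] at a1 a2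
  omega

theorem Step_GG (d k : ℕ) (hd : 1 ≤ d) (hk : 1 ≤ k) (c : Fin d → ℕ) :
    ∑ c' ∈ desc (nn d k) c, GG d k c' ≤ A d (k + 1) * (nn d k * nn d (k + 1)) ^ d := by
  unfold GG
  rw [desc_desc d (nn d k) (nn d (k + 1)) (nn_pos d k) (nn_pos d (k + 1)) c, ← Step_nn d k hk]
  exact avg_FF d (k + 1) hd (by omega) c

theorem exists_good (d k : ℕ) (hd : 1 ≤ d) (hk : 1 ≤ k) (c : Fin d → ℕ)
    (hc : ∑ c' ∈ desc (nn d k) c, FF d k c' ≤ 2 * A d k * nn d k ^ d) :
    ∃ m < nn d k ^ d, Good d k (child (nn d k) c m) := by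
  have hex : ∃ c' ∈ desc (nn d k) c, Good d k c' := by
    by_contra hcon
    push Not at hcon
    have h1 : ∀ c' ∈ desc (nn d k) c, 4 * A d k * A d (k + 1) * nn d (k + 1) ^ d <
        FF d k c' * (A d (k + 1) * nn d (k + 1) ^ d) + 2 * A d k * GG d k c' := by
      intro c' hc'
      have := hcon c' hc'
      unfold Good at this
      omega
    have hcard : (desc (nn d k) c).card = nn d k ^ d := card_desc d _ c
    have hpos : 0 < nn d k ^ d := pow_pos (nn_pos d k) d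
    have hne : (desc (nn d k) c).Nonempty := by
      rw [← Finset.card_pos, hcard]
      exact hpos
    have h2 := Finset.sum_lt_sum_of_nonempty hne h1
    rw [Finset.sum_const, hcard, smul_eq_mul, Finset.sum_add_distrib, ← Finset.sum_mul,
      ← Finset.mul_sum] at h2
    have h3 := Step_GG d k hd hk c
    have h4 : (∑ c' ∈ desc (nn d k) c, FF d k c') * (A d (k + 1) * nn d (k + 1) ^ d)
        ≤ 2 * A d k * nn d k ^ d * (A d (k + 1) * nn d (k + 1) ^ d) :=
      Nat.mul_le_mul_right _ hc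
    have h5 : 2 * A d k * ∑ c' ∈ desc (nn d k) c, GG d k c'
        ≤ 2 * A d k * (A d (k + 1) * (nn d k * nn d (k + 1)) ^ d) := Nat.mul_le_mul_left _ h3
    have h6 : 2 * A d k * nn d k ^ d * (A d (k + 1) * nn d (k + 1) ^ d)
        + 2 * A d k * (A d (k + 1) * (nn d k * nn d (k + 1)) ^ d)
        = nn d k ^ d * (4 * A d k * A d (k + 1) * nn d (k + 1) ^ d) := by
      rw [mul_pow]
      ring
    omega
  obtain ⟨c', hc', hg⟩ := hex
  obtain ⟨m, hm, hmc⟩ := child_surj d (nn d k) (nn_pos d k) c c' hc'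
  exact ⟨m, hm, by rw [hmc]; exact hg⟩

/-- a good cube satisfies the hypothesis of the next step -/
theorem good_next (d k : ℕ) (c : Fin d → ℕ) (hc : Good d k c) :
    ∑ c' ∈ desc (nn d (k + 1)) c, FF d (k + 1) c' ≤ 2 * A d (k + 1) * nn d (k + 1) ^ d := by
  unfold Good at hc
  have h1 : 2 * A d k * GG d k c ≤ 2 * A d k * (2 * A d (k + 1) * nn d (k + 1) ^ d) := by
    have : 2 * A d k * (2 * A d (k + 1) * nn d (k + 1) ^ d)
        = 4 * A d k * A d (k + 1) * nn d (k + 1) ^ d := by ring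
    omega
  have h2 : 0 < 2 * A d k := by
    have := A_pos d k
    omega
  exact Nat.le_of_mul_le_mul_left h1 h2

theorem good_FF (d k : ℕ) (c : Fin d → ℕ) (hc : Good d k c) : FF d k c ≤ 4 * A d k := by
  unfold Good at hc
  have h1 : FF d k c * (A d (k + 1) * nn d (k + 1) ^ d)
      ≤ 4 * A d k * (A d (k + 1) * nn d (k + 1) ^ d) := by
    have : 4 * A d k * (A d (k + 1) * nn d (k + 1) ^ d)
        = 4 * A d k * A d (k + 1) * nn d (k + 1) ^ d := by ring
    omega
  have h2 : 0 < A d (k + 1) * nn d (k + 1) ^ d :=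
    Nat.mul_pos (A_pos d (k + 1)) (pow_pos (nn_pos d (k + 1)) d)
  exact Nat.le_of_mul_le_mul_right h1 h2

end Pool.Agent.Kro
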