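import Pool.Agent.Kro.Defs

/-! Module Trig: `dz` and `ee`.
`one_sub_ee`: `‖1 - e(x)‖ = 2 |sin π x| = 2 sin(π dz x) ≥ 4 dz x` (`sin(π t) ≥ 2 t` on `[0, 1/2]`, Jordan:
`Real.mul_le_sin`). `geo_mul`: `(1 - e(x)) ∑_{k<H} e(kx) = 1 - e(Hx)`, norm `≤ 2`. -/

namespace Pool.Agent.Kro

open Finset

theorem dz_nonneg (x : ℝ) : 0 ≤ dz x := abs_nonneg _

theorem dz_le_half (x : ℝ) : dz x ≤ 1 / 2 := abs_sub_round x

theorem dz_le_int (x : ℝ) (n : ℤ) : dz x ≤ |x - n| := round_le x n

theorem dz_neg (x : ℝ) : dz (-x) = dz x := by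
  apply le_antisymm
  · have h := dz_le_int (-x) (-(round x))
    have e : |(-x) - ((-(round x) : ℤ) : ℝ)| = |x - round x| := by
      push_cast
      rw [← abs_neg]
      ring_nf
    rw [e] at h
    exact h
  · have h := dz_le_int x (-(round (-x)))
    have e : |x - ((-(round (-x)) : ℤ) : ℝ)| = |(-x) - round (-x)| := by
      push_cast
      rw [← abs_neg]
      ring_nf
    rw [e] at h
    exact h

theorem dz_add_int (x : ℝ) (n : ℤ) : dz (x + n) = dz x := by
  unfold dz
  rw [round_add_intCast]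
  push_cast
  ring_nf

theorem dz_add_le (x y : ℝ) : dz (x + y) ≤ dz x + dz y := by
  have h := dz_le_int (x + y) (round x + round y)
  have e : (x + y) - ((round x + round y : ℤ) : ℝ) = (x - round x) + (y - round y) := by
    push_cast
    ring
  rw [e] at h
  exact h.trans (abs_add_le _ _)

theorem Trig_dz_le_abs (x : ℝ) : dz x ≤ |x| := by
  have h := dz_le_int x 0
  simpa using h

theorem dz_sub_abs (x y : ℝ) : |dz x - dz y| ≤ |x - y| := by
  have h1 : dz x ≤ dz y + |x - y| := by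
    have h := dz_add_le y (x - y)
    rw [add_sub_cancel] at h
    exact h.trans (add_le_add_right (Trig_dz_le_abs _) _)
  have h2 : dz y ≤ dz x + |x - y| := by
    have h := dz_add_le x (y - x)
    rw [add_sub_cancel] at h
    have h3 := Trig_dz_le_abs (y - x)
    rw [abs_sub_comm] at h3
    linarith
  rw [abs_le]
  constructor <;> linarith

theorem ee_zero : ee 0 = 1 := by
  unfold ee
  simp

theorem ee_add (x y : ℝ) : ee (x + y) = ee x * ee y := by
  unfold ee
  rw [← Complex.exp_add]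
  congr 1
  push_cast
  ring

theorem ee_neg (x : ℝ) : ee (-x) = star (ee x) := by
  unfold ee
  rw [Complex.star_def, ← Complex.exp_conj]
  congr 1
  simp only [map_mul, Complex.conj_ofReal, Complex.conj_I, Complex.ofReal_neg]
  have h2 : (starRingEnd ℂ) 2 = 2 := by
    have := Complex.conj_ofReal 2
    simpa using this
  rw [h2]
  ring

theorem ee_int (n : ℤ) : ee n = 1 := by
  unfold ee
  rw [Complex.exp_eq_one_iff]
  refine ⟨n, ?_⟩
  push_cast
  ring

theorem norm_ee (x : ℝ) : ‖ee x‖ = 1 := by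
  unfold ee
  have h : (2 * Real.pi * x * Complex.I : ℂ) = ((2 * Real.pi * x : ℝ) : ℂ) * Complex.I := by
    push_cast
    ring
  rw [h, Complex.norm_exp_ofReal_mul_I]

theorem ee_nat_mul (n : ℕ) (x : ℝ) : ee (n * x) = ee x ^ n := by
  unfold ee
  rw [← Complex.exp_nat_mul]
  congr 1
  push_cast
  ring

theorem ee_sum {ι : Type*} (t : Finset ι) (f : ι → ℝ) : ee (∑ i ∈ t, f i) = ∏ i ∈ t, ee (f i) := by
  classical
  induction t using Finset.induction_on with
  | empty => simp [ee_zero]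
  | insert a t ha ih => rw [sum_insert ha, prod_insert ha, ee_add, ih]

theorem Trig_norm_one_sub (x : ℝ) : ‖1 - ee x‖ = 2 * |Real.sin (Real.pi * x)| := by
  have h1 : ‖1 - ee x‖ ^ 2 = (2 * |Real.sin (Real.pi * x)|) ^ 2 := by
    rw [← Complex.normSq_eq_norm_sq]
    have hre : ee x = ((Real.cos (2 * (Real.pi * x)) : ℝ) : ℂ)
        + ((Real.sin (2 * (Real.pi * x)) : ℝ) : ℂ) * Complex.I := by
      unfold ee
      have h : (2 * Real.pi * x * Complex.I : ℂ) = ((2 * (Real.pi * x) : ℝ) : ℂ) * Complex.I := by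
        push_cast
        ring
      rw [h, Complex.exp_mul_I]
      push_cast
      rfl
    rw [hre, Complex.normSq_apply]
    simp only [Complex.sub_re, Complex.one_re, Complex.add_re, Complex.ofReal_re, Complex.mul_re,
      Complex.I_re, Complex.I_im, Complex.ofReal_im, Complex.sub_im, Complex.one_im,
      Complex.add_im, Complex.mul_im]
    rw [mul_pow, sq_abs, Real.cos_two_mul, Real.sin_two_mul]
    have := Real.sin_sq_add_cos_sq (Real.pi * x)
    nlinarith [this]
  exact (pow_left_inj₀ (norm_nonneg _) (by positivity) (by norm_num)).mp h1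

theorem Trig_abs_sin (x : ℝ) : |Real.sin (Real.pi * x)| = Real.sin (Real.pi * dz x) := by
  have h1 : |Real.sin (Real.pi * x)| = |Real.sin (Real.pi * (x - round x))| := by
    have : Real.pi * (x - round x) = Real.pi * x - (round x : ℤ) * Real.pi := by ring
    rw [this, Real.sin_sub_int_mul_pi, abs_mul, abs_zpow]
    simp
  have h2 : |Real.sin (Real.pi * (x - round x))| = |Real.sin (Real.pi * dz x)| := by
    unfold dz
    rcases abs_choice (x - round x) with h | h
    · rw [h]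
    · rw [h]
      rw [mul_neg, Real.sin_neg, abs_neg]
  have h3 : 0 ≤ Real.sin (Real.pi * dz x) := by
    apply Real.sin_nonneg_of_nonneg_of_le_pi
    · exact mul_nonneg Real.pi_pos.le (dz_nonneg x)
    · have := dz_le_half x
      nlinarith [Real.pi_pos]
  rw [h1, h2, abs_of_nonneg h3]

theorem one_sub_ee (x : ℝ) : 4 * dz x ≤ ‖1 - ee x‖ := by
  rw [Trig_norm_one_sub, Trig_abs_sin]
  have h := Real.mul_le_sin (x := Real.pi * dz x) (mul_nonneg Real.pi_pos.le (dz_nonneg x))
    (by have := dz_le_half x; nlinarith [Real.pi_pos])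
  have h2 : 2 / Real.pi * (Real.pi * dz x) = 2 * dz x := by
    field_simp
  rw [h2] at h
  linarith

theorem geo_le (H : ℕ) (x : ℝ) : ‖∑ k ∈ range H, ee (k * x)‖ ≤ H := by
  refine (norm_sum_le _ _).trans ?_
  simp [norm_ee]

theorem Trig_geo (H : ℕ) (x : ℝ) :
    (∑ k ∈ range H, ee (k * x)) * (1 - ee x) = 1 - ee (H * x) := by
  simp_rw [ee_nat_mul]
  exact geom_sum_mul_neg (ee x) H

theorem geo_mul_le (H : ℕ) (x : ℝ) : 2 * dz x * ‖∑ k ∈ range H, ee (k * x)‖ ≤ 1 := by
  have h1 := congrArg norm (Trig_geo H x)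
  rw [norm_mul] at h1
  have h2 : ‖1 - ee (H * x)‖ ≤ 2 := by
    refine (norm_sub_le _ _).trans ?_
    rw [norm_ee, norm_one]
    norm_num
  have h3 := one_sub_ee x
  have h4 := norm_nonneg (∑ k ∈ range H, ee (k * x))
  nlinarith [mul_le_mul_of_nonneg_left h3 h4]

/-- `|sin π x| ≤ π dz x` -/
theorem sin_sq_le (x : ℝ) : Real.sin (Real.pi * x) ^ 2 ≤ Real.pi ^ 2 * dz x ^ 2 := by
  rw [← sq_abs, Trig_abs_sin, ← mul_pow]
  have h0 : 0 ≤ Real.pi * dz x := mul_nonneg Real.pi_pos.le (dz_nonneg x)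
  apply pow_le_pow_left₀
  · apply Real.sin_nonneg_of_nonneg_of_le_pi h0
    have := dz_le_half x
    nlinarith [Real.pi_pos]
  · exact Real.sin_le h0

/-- `|∑_{k<H} e(kx)|² sin²(πx) = sin²(πHx)` -/
theorem geo_sin (H : ℕ) (x : ℝ) :
    ‖∑ k ∈ range H, ee (k * x)‖ ^ 2 * Real.sin (Real.pi * x) ^ 2 = Real.sin (Real.pi * (H * x)) ^ 2 := by
  have h1 := congrArg norm (Trig_geo H x)
  rw [norm_mul, Trig_norm_one_sub, Trig_norm_one_sub] at h1
  have h2 : ‖∑ k ∈ range H, ee (k * x)‖ * |Real.sin (Real.pi * x)| = |Real.sin (Real.pi * (H * x))| := by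
    linarith
  have h3 := congrArg (fun t => t ^ 2) h2
  simpa [mul_pow, sq_abs] using h3

end Pool.Agent.Kro
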