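import Pool.Agent.Kro.Corner
import Pool.Agent.Kro.Lim

/-! Module Xh. `S = s k`, `E = E k`, `c = corner k`, `x = xx α h = r dz(h·α)`, `x' = r di S (ipz h c)/2^S = r dz(h·c/2^S)` (`dz_div`).
`|x - x'| ≤ r ∑ |h_i| 2^(-S) ≤ d r M/2^S ≤ d 2^(-E-d) ≤ 2^(-E)/2` (`alpha_ge`, `alpha_le`, `dz_sub_abs`, `h ∈ HH`, `2 d ≤ 2^d`).
`ff ≤ FF ≤ 4 A < 2^E` (`FF_corner`, `A_lt`). If `2^E x' ≤ 4^(d+1)`, all layers `e ≤ E` are present and `ff ≥ 2^E`: contradiction. So `x' > 4^(d+1)/2^E`,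
`|x - x'| ≤ x'/2`, `0 < x'/2 ≤ x`. If `x ≤ 4^d` then `x' ≤ 4^d + 1/2 ≤ 4^(d+1)`; let `e` be the largest layer (`2^e x' ≤ 4^(d+1)`), `e < E`:
`ff ≥ 2^e > 4^(d+1)/(2x') ≥ 4^(d+1)/(4x) ≥ 1/x`. -/

namespace Pool.Agent.Kro

open Finset

theorem Xh_two_mul (d : ℕ) : 2 * d ≤ 2 ^ d := by
  induction d with
  | zero => simp
  | succ n ih =>
    rcases Nat.eq_zero_or_pos n with h | h
    · subst h; norm_num
    · have h1 : 2 ≤ 2 ^ n := by
        calc 2 = 2 ^ 1 := by norm_num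
          _ ≤ 2 ^ n := Nat.pow_le_pow_right (by norm_num) h
      rw [pow_succ]
      omega

/-- truncation error -/
theorem Xh_close (d k : ℕ) (h : Fin d → ℤ) :
    |ip h (alpha d) - (ipz h (corner d k) : ℝ) / 2 ^ (s d k)| ≤ d * mx h / 2 ^ (s d k) := by
  have h1 : ip h (alpha d) - (ipz h (corner d k) : ℝ) / 2 ^ (s d k)
      = ∑ i, (h i : ℝ) * (alpha d i - (corner d k i : ℝ) / 2 ^ (s d k)) := by
    unfold ip ipz
    push_cast
    rw [Finset.sum_div, ← Finset.sum_sub_distrib]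
    exact Finset.sum_congr rfl (fun i _ => by ring)
  rw [h1]
  refine (Finset.abs_sum_le_sum_abs _ _).trans ?_
  have h2 : ∀ i ∈ (Finset.univ : Finset (Fin d)),
      |(h i : ℝ) * (alpha d i - (corner d k i : ℝ) / 2 ^ (s d k))| ≤ mx h / 2 ^ (s d k) := by
    intro i _
    rw [abs_mul]
    have e1 : |(h i : ℝ)| ≤ mx h := by
      have a1 : (h i).natAbs ≤ mx h := Finset.le_sup (f := fun i => (h i).natAbs) (Finset.mem_univ i)
      have a2 : |(h i : ℝ)| = ((h i).natAbs : ℝ) := by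
        rw [Nat.cast_natAbs]
        push_cast
        rfl
      rw [a2]
      exact_mod_cast a1
    have e2 : |alpha d i - (corner d k i : ℝ) / 2 ^ (s d k)| ≤ 1 / 2 ^ (s d k) := by
      rw [abs_le]
      have a1 := alpha_ge d k i
      have a2 := alpha_le d k i
      rw [add_div] at a2
      have a3 : (0 : ℝ) ≤ 1 / 2 ^ (s d k) := by positivity
      constructor
      · linarith
      · linarith
    calc |(h i : ℝ)| * |alpha d i - (corner d k i : ℝ) / 2 ^ (s d k)|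
        ≤ mx h * (1 / 2 ^ (s d k)) := mul_le_mul e1 e2 (abs_nonneg _) (Nat.cast_nonneg _)
      _ = mx h / 2 ^ (s d k) := by ring
  refine (Finset.sum_le_sum h2).trans (le_of_eq ?_)
  rw [Finset.sum_const, Finset.card_univ, Fintype.card_fin, nsmul_eq_mul]
  ring

theorem Xh_main (d k : ℕ) (hd : 1 ≤ d) (hk : 1 ≤ k) (h : Fin d → ℤ) (hh : h ∈ HH d k) :
    4 ^ (d + 1) * 2 ^ (s d k) < 2 ^ E d k * rr h * di (s d k) (ipz h (corner d k)) ∧
    |xx (alpha d) h - rr h * ((di (s d k) (ipz h (corner d k)) : ℝ) / 2 ^ (s d k))|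
      ≤ 1 / (2 * 2 ^ E d k) := by
  constructor
  · by_contra hcon
    rw [not_lt] at hcon
    have h1 : 2 ^ E d k ≤ ff d k h (corner d k) := by
      unfold ff
      calc 2 ^ E d k = (if 2 ^ E d k * rr h * di (s d k) (ipz h (corner d k))
            ≤ 4 ^ (d + 1) * 2 ^ (s d k) then 2 ^ E d k else 0) := by rw [if_pos hcon]
        _ ≤ _ := Finset.single_le_sum
            (f := fun e => if 2 ^ e * rr h * di (s d k) (ipz h (corner d k))
              ≤ 4 ^ (d + 1) * 2 ^ (s d k) then 2 ^ e else 0)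
            (fun _ _ => Nat.zero_le _) (by rw [Finset.mem_range]; omega)
    have h2 : ff d k h (corner d k) ≤ FF d k (corner d k) := by
      unfold FF
      exact Finset.single_le_sum (f := fun h => ff d k h (corner d k))
        (fun _ _ => Nat.zero_le _) hh
    have h3 := FF_corner d k hd hk
    have h4 := A_lt d k hd hk
    omega
  · rw [← dz_div]
    unfold xx
    rw [← mul_sub, abs_mul, abs_of_nonneg (Nat.cast_nonneg (rr h))]
    have h1 := (dz_sub_abs (ip h (alpha d)) ((ipz h (corner d k) : ℝ) / 2 ^ (s d k))).trans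
      (Xh_close d k h)
    have h2 : (rr h : ℝ) * mx h * 2 ^ (E d k + d) ≤ 2 ^ (s d k) := by
      unfold HH at hh
      rw [Finset.mem_filter] at hh
      exact_mod_cast hh.2.1
    have h3 : (2 : ℝ) * d ≤ 2 ^ d := by exact_mod_cast Xh_two_mul d
    have hS : (0 : ℝ) < 2 ^ (s d k) := by positivity
    have hE : (0 : ℝ) < 2 ^ E d k := by positivity
    have hr : (0 : ℝ) ≤ rr h := Nat.cast_nonneg _
    have hm : (0 : ℝ) ≤ mx h := Nat.cast_nonneg _
    calc (rr h : ℝ) * |dz (ip h (alpha d)) - dz ((ipz h (corner d k) : ℝ) / 2 ^ (s d k))|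
        ≤ rr h * (d * mx h / 2 ^ (s d k)) := mul_le_mul_of_nonneg_left h1 hr
      _ ≤ 1 / (2 * 2 ^ E d k) := by
          rw [mul_div_assoc', div_le_div_iff₀ hS (by positivity)]
          have h4 : (rr h : ℝ) * mx h * (2 * d) * 2 ^ E d k ≤ (rr h : ℝ) * mx h * 2 ^ d * 2 ^ E d k := by
            apply mul_le_mul_of_nonneg_right _ hE.le
            exact mul_le_mul_of_nonneg_left h3 (mul_nonneg hr hm)
          have h5 : (rr h : ℝ) * mx h * 2 ^ (E d k + d) = (rr h : ℝ) * mx h * 2 ^ d * 2 ^ E d k := by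
            rw [pow_add]; ring
          nlinarith

theorem Xh_lower (d k : ℕ) (hd : 1 ≤ d) (hk : 1 ≤ k) (h : Fin d → ℤ) (hh : h ∈ HH d k) :
    (4 : ℝ) ^ (d + 1) / 2 ^ E d k < rr h * ((di (s d k) (ipz h (corner d k)) : ℝ) / 2 ^ (s d k)) ∧
    rr h * ((di (s d k) (ipz h (corner d k)) : ℝ) / 2 ^ (s d k)) / 2 ≤ xx (alpha d) h := by
  obtain ⟨h1, h2⟩ := Xh_main d k hd hk h hh
  have hS : (0 : ℝ) < 2 ^ (s d k) := by positivity
  have hE : (0 : ℝ) < 2 ^ E d k := by positivity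
  have h3 : (4 : ℝ) ^ (d + 1) * 2 ^ (s d k)
      < 2 ^ E d k * rr h * di (s d k) (ipz h (corner d k)) := by exact_mod_cast h1
  have h4 : (4 : ℝ) ^ (d + 1) / 2 ^ E d k
      < rr h * ((di (s d k) (ipz h (corner d k)) : ℝ) / 2 ^ (s d k)) := by
    rw [mul_div_assoc', div_lt_div_iff₀ hE hS]
    linarith
  refine ⟨h4, ?_⟩
  have h5 : (1 : ℝ) ≤ 4 ^ (d + 1) := one_le_pow₀ (by norm_num)
  have h6 : (1 : ℝ) / (2 * 2 ^ E d k) ≤ (4 : ℝ) ^ (d + 1) / 2 ^ E d k / 2 := by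
    rw [div_div, mul_comm (2 ^ E d k) (2 : ℝ)]
    exact div_le_div_of_nonneg_right h5 (by positivity)
  have h7 := (abs_le.1 h2).1
  linarith

theorem xx_pos_HH (d k : ℕ) (hd : 1 ≤ d) (hk : 1 ≤ k) (h : Fin d → ℤ) (hh : h ∈ HH d k) :
    0 < xx (alpha d) h := by
  obtain ⟨h1, h2⟩ := Xh_lower d k hd hk h hh
  have h3 : (0 : ℝ) < (4 : ℝ) ^ (d + 1) / 2 ^ E d k := by positivity
  linarith

theorem inv_xx_le (d k : ℕ) (hd : 1 ≤ d) (hk : 1 ≤ k) (h : Fin d → ℤ) (hh : h ∈ HH d k)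
    (hx : xx (alpha d) h ≤ 4 ^ d) : 1 / xx (alpha d) h ≤ ff d k h (corner d k) := by
  obtain ⟨h1, h2⟩ := Xh_lower d k hd hk h hh
  obtain ⟨g1, g2⟩ := Xh_main d k hd hk h hh
  have hxpos := xx_pos_HH d k hd hk h hh
  have hS : (0 : ℝ) < 2 ^ (s d k) := by positivity
  have hE : (0 : ℝ) < 2 ^ E d k := by positivity
  set D := di (s d k) (ipz h (corner d k)) with hD
  set x' : ℝ := rr h * ((D : ℝ) / 2 ^ (s d k)) with hx'
  have hx'pos : 0 < x' := lt_trans (by positivity) h1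
  -- layer 0
  have h0 : 2 ^ 0 * rr h * D ≤ 4 ^ (d + 1) * 2 ^ (s d k) := by
    have e1 : x' ≤ 4 ^ (d + 1) := by
      have e2 := (abs_le.1 g2).1
      have e3 : (1 : ℝ) / (2 * 2 ^ E d k) ≤ 1 := by
        rw [div_le_one (by positivity)]
        have : (1 : ℝ) ≤ 2 ^ E d k := one_le_pow₀ (by norm_num)
        linarith
      have e4 : (4 : ℝ) ^ (d + 1) = 4 * 4 ^ d := by rw [pow_succ]; ring
      have e5 : (1 : ℝ) ≤ 4 ^ d := one_le_pow₀ (by norm_num)
      rw [e4]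
      linarith
    have e2 : (rr h : ℝ) * D ≤ 4 ^ (d + 1) * 2 ^ (s d k) := by
      rw [hx', mul_div_assoc', div_le_iff₀ hS] at e1
      exact e1
    rw [pow_zero, one_mul]
    exact_mod_cast e2
  -- the last layer
  obtain ⟨e, he1, he2, he3⟩ : ∃ e, e < E d k ∧ 2 ^ e * rr h * D ≤ 4 ^ (d + 1) * 2 ^ (s d k) ∧
      ¬ 2 ^ (e + 1) * rr h * D ≤ 4 ^ (d + 1) * 2 ^ (s d k) := by
    by_contra hcon
    push Not at hcon
    have : ∀ e, e ≤ E d k → 2 ^ e * rr h * D ≤ 4 ^ (d + 1) * 2 ^ (s d k) := by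
      intro e
      induction e with
      | zero => intro _; exact h0
      | succ e ih => intro he; exact hcon e (by omega) (ih (by omega))
    have h3 := this (E d k) le_rfl
    omega
  have hff : 2 ^ e ≤ ff d k h (corner d k) := by
    unfold ff
    calc 2 ^ e = (if 2 ^ e * rr h * di (s d k) (ipz h (corner d k))
          ≤ 4 ^ (d + 1) * 2 ^ (s d k) then 2 ^ e else 0) := by rw [if_pos he2]
      _ ≤ _ := Finset.single_le_sum
          (f := fun e => if 2 ^ e * rr h * di (s d k) (ipz h (corner d k))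
            ≤ 4 ^ (d + 1) * 2 ^ (s d k) then 2 ^ e else 0)
          (fun _ _ => Nat.zero_le _) (by rw [Finset.mem_range]; omega)
  have hffr : (2 : ℝ) ^ e ≤ ff d k h (corner d k) := by exact_mod_cast hff
  rw [not_le] at he3
  have h3 : (4 : ℝ) ^ (d + 1) * 2 ^ (s d k) < 2 ^ (e + 1) * rr h * D := by exact_mod_cast he3
  have h4 : (4 : ℝ) ^ (d + 1) < 2 ^ (e + 1) * x' := by
    rw [hx', mul_div_assoc', mul_div_assoc', lt_div_iff₀ hS]
    linarith
  refine le_trans ?_ hffr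
  rw [div_le_iff₀ hxpos]
  have h5 : (4 : ℝ) ≤ 4 ^ (d + 1) := by
    rw [pow_succ]
    have : (1 : ℝ) ≤ 4 ^ d := one_le_pow₀ (by norm_num)
    linarith
  have h6 : (2 : ℝ) ^ (e + 1) * x' ≤ 4 * (2 ^ e * xx (alpha d) h) := by
    rw [pow_succ]
    have h7 : x' ≤ 2 * xx (alpha d) h := by linarith
    have h8 : (0 : ℝ) < 2 ^ e := by positivity
    nlinarith
  linarith

end Pool.Agent.Kro
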